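import Pool.Agent.LibRotU.Def

/-!
# The free part of the shift: no Baire measurable eigenfunctions
-/

namespace Pool.Agent.LibRotU

open Topology

/-! ## Intersections of open sets are Polish -/

theorem polish_iInter {X ι : Type} [TopologicalSpace X] [PolishSpace X] [Countable ι]
    (U : ι → Set X) (hU : ∀ i, IsOpen (U i)) : PolishSpace (⋂ i, U i : Set X) := by
  have : ∀ i, PolishSpace (U i) := fun i => (hU i).polishSpace
  have : PolishSpace (∀ i, U i) := {}
  let f : (⋂ i, U i : Set X) → X × (∀ i, U i) := fun x => (x.1, fun i => ⟨x.1, Set.mem_iInter.1 x.2 i⟩)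
  have hc : Continuous f := by
    refine Continuous.prodMk continuous_subtype_val (continuous_pi fun i => ?_)
    exact Continuous.subtype_mk continuous_subtype_val _
  have he : IsEmbedding f := by
    refine IsEmbedding.of_comp hc continuous_fst ?_
    exact IsEmbedding.subtypeVal
  have hr : Set.range f = ⋂ i, {p : X × (∀ i, U i) | (p.2 i : X) = p.1} := by
    ext p
    simp only [Set.mem_range, Set.mem_iInter, Set.mem_ofPred_eq]
    constructor
    · rintro ⟨x, rfl⟩ i
      rfl
    · intro hp
      refine ⟨⟨p.1, Set.mem_iInter.2 fun i => by rw [← hp i]; exact (p.2 i).2⟩, ?_⟩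
      refine Prod.ext rfl (funext fun i => Subtype.ext (hp i).symm)
  have hcl : IsClosed (Set.range f) := by
    rw [hr]
    refine isClosed_iInter fun i => isClosed_eq ?_ continuous_fst
    exact continuous_subtype_val.comp ((continuous_apply i).comp continuous_snd)
  exact IsClosedEmbedding.polishSpace ⟨he, hcl⟩

/-! ## The free part of the shift -/

/-- The free part of the shift on `{0, 1} ^ (ℤ ^ n)`. -/
def FP (n : ℕ) : Set ((Fin n → ℤ) → Bool) :=
  ⋂ g : {g : Fin n → ℤ // g ≠ 0}, {y | ∃ h, y (h + g.1) ≠ y h}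

theorem FP_open {n : ℕ} (g : Fin n → ℤ) :
    IsOpen {y : (Fin n → ℤ) → Bool | ∃ h, y (h + g) ≠ y h} := by
  have : {y : (Fin n → ℤ) → Bool | ∃ h, y (h + g) ≠ y h} =
      ⋃ h, {y : (Fin n → ℤ) → Bool | y (h + g) ≠ y h} := by ext; simp
  rw [this]
  exact isOpen_iUnion fun h => isOpen_ne_fun (continuous_apply _) (continuous_apply _)

instance (n : ℕ) : PolishSpace (FP n) := by
  have : PolishSpace ((Fin n → ℤ) → Bool) := {}
  exact polish_iInter _ fun g => FP_open g.1

theorem FP_mem {n : ℕ} {y : (Fin n → ℤ) → Bool} :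
    y ∈ FP n ↔ ∀ g : Fin n → ℤ, g ≠ 0 → ∃ h, y (h + g) ≠ y h := by
  unfold FP
  simp only [Set.mem_iInter, Subtype.forall, Set.mem_ofPred_eq]

/-- The shift. -/
def sh {n : ℕ} (g : Fin n → ℤ) (y : FP n) : FP n :=
  ⟨fun h => y.1 (h + g), FP_mem.2 fun k hk => by
    obtain ⟨h, hh⟩ := FP_mem.1 y.2 k hk
    refine ⟨h - g, ?_⟩
    simpa [sub_add_cancel, show h - g + k + g = h + k by abel] using hh⟩

theorem sh_continuous {n : ℕ} (g : Fin n → ℤ) : Continuous (sh g : FP n → FP n) := by
  refine Continuous.subtype_mk (continuous_pi fun h => ?_) _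
  exact (continuous_apply (h + g)).comp continuous_subtype_val

theorem sh_zero {n : ℕ} (y : FP n) : sh 0 y = y := Subtype.ext (funext fun h => by simp [sh])

theorem sh_add {n : ℕ} (g h : Fin n → ℤ) (y : FP n) : sh (g + h) y = sh g (sh h y) :=
  Subtype.ext (funext fun k => by simp [sh, add_assoc])

/-- The shift as a free action. -/
def shAct (n : ℕ) : FreeBorelAction n (FP n) where
  act := sh
  zero := sh_zero
  add := sh_add
  meas g := (sh_continuous g).borel_measurable
  free g y h := by
    by_contra hg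
    obtain ⟨k, hk⟩ := FP_mem.1 y.2 g hg
    exact hk (congrFun (congrArg Subtype.val h) k)

/-- The shift as a homeomorphism. -/
def shH {n : ℕ} (g : Fin n → ℤ) : FP n ≃ₜ FP n where
  toFun := sh g
  invFun := sh (-g)
  left_inv y := by rw [← sh_add, neg_add_cancel, sh_zero]
  right_inv y := by rw [← sh_add, add_neg_cancel, sh_zero]
  continuous_toFun := sh_continuous g
  continuous_invFun := sh_continuous (-g)

/-- Mixing. -/
theorem sh_mix {n : ℕ} {U : Set (FP n)} (hU : IsOpen U) (hne : U.Nonempty) {v : Fin n → ℤ}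
    (hv : v ≠ 0) : ∃ M : ℕ, ∀ i : ℤ, (M : ℤ) ≤ i → ∃ y ∈ U, sh (i • v) y ∈ U := by
  obtain ⟨y0, hy0⟩ := hne
  obtain ⟨V, hV, rfl⟩ := isOpen_induced_iff.1 hU
  obtain ⟨S, u, hu, hS⟩ := isOpen_pi_iff.1 hV y0.1 hy0
  have hS' : ∀ z : (Fin n → ℤ) → Bool, (∀ h ∈ S, z h = y0.1 h) → z ∈ V := by
    intro z hz
    apply hS
    intro h hh
    show z h ∈ u h
    rw [hz h hh]
    exact (hu h hh).2
  obtain ⟨k, hk⟩ := Function.ne_iff.1 hv
  have hk' : v k ≠ 0 := hk
  have : Infinite (Fin n → ℤ) := by
    refine Infinite.of_injective (fun i : ℤ => i • v) fun i j hij => ?_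
    have := congrFun hij k
    simpa [hk'] using this
  obtain ⟨M, hM⟩ : ∃ M : ℕ, ∀ s ∈ S, ∀ t ∈ S, (s k - t k).natAbs < M := by
    refine ⟨((S ×ˢ S).sup fun p => (p.1 k - p.2 k).natAbs) + 1, fun s hs t ht => ?_⟩
    exact Nat.lt_succ_of_le (Finset.le_sup (f := fun p : (Fin n → ℤ) × (Fin n → ℤ) =>
      (p.1 k - p.2 k).natAbs) (Finset.mk_mem_product hs ht))
  refine ⟨M, fun i hi => ?_⟩
  have hd : ∀ s ∈ S, ∀ t ∈ S, s ≠ t + i • v := by
    intro s hs t ht hst
    have h1 := hM s hs t ht
    have h2 : s k - t k = i * v k := by rw [hst]; simp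
    rw [h2, Int.natAbs_mul] at h1
    have h3 : 1 ≤ (v k).natAbs := Int.natAbs_pos.2 hk'
    have h4 : M ≤ i.natAbs := by omega
    have h5 : i.natAbs * 1 ≤ i.natAbs * (v k).natAbs := Nat.mul_le_mul_left _ h3
    omega
  classical
  obtain ⟨p, hp⟩ := Infinite.exists_notMem_finset (S ∪ S.image (fun t => t + i • v))
  rw [Finset.mem_union, not_or] at hp
  let z : (Fin n → ℤ) → Bool := fun h =>
    if h ∈ S then y0.1 h else if h - i • v ∈ S then y0.1 (h - i • v) else decide (h = p)
  have z1 : ∀ h ∈ S, z h = y0.1 h := fun h hh => if_pos hh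
  have z2 : ∀ h ∈ S, z (h + i • v) = y0.1 h := by
    intro h hh
    have : h + i • v ∉ S := fun h' => hd _ h' h hh rfl
    show (if h + i • v ∈ S then _ else if h + i • v - i • v ∈ S then _ else _) = _
    rw [if_neg this, add_sub_cancel_right, if_pos hh]
  have z3 : z p = true := by
    have : p - i • v ∉ S := by
      intro h'
      exact hp.2 (Finset.mem_image.2 ⟨p - i • v, h', by abel⟩)
    show (if p ∈ S then _ else if p - i • v ∈ S then _ else _) = _
    rw [if_neg hp.1, if_neg this]
    simp
  have z4 : ∀ h, z h = true → h ∈ insert p (S ∪ S.image (fun t => t + i • v)) := by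
    intro h hh
    by_cases h1 : h ∈ S
    · simp [h1]
    · by_cases h2 : h - i • v ∈ S
      · refine Finset.mem_insert_of_mem (Finset.mem_union_right _ ?_)
        exact Finset.mem_image.2 ⟨h - i • v, h2, by abel⟩
      · have : z h = decide (h = p) := by
          show (if h ∈ S then _ else if h - i • v ∈ S then _ else _) = _
          rw [if_neg h1, if_neg h2]
        rw [this, decide_eq_true_eq] at hh
        rw [hh]
        exact Finset.mem_insert_self _ _
  have zf : z ∈ FP n := by
    rw [FP_mem]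
    intro g hg
    by_contra hc
    push Not at hc
    have h1 : ∀ m : ℕ, z (p + m • g) = true := by
      intro m
      induction m with
      | zero => simpa using z3
      | succ m ih => rw [succ_nsmul, ← add_assoc, hc, ih]
    have hinj : Function.Injective (fun m : ℕ => p + m • g) := by
      obtain ⟨k', hk'⟩ := Function.ne_iff.1 hg
      have hk2 : g k' ≠ 0 := hk'
      intro a b hab
      have := congrFun hab k'
      simpa [hk2] using this
    exact (Set.infinite_of_injective_forall_mem hinj (fun m => h1 m)).mono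
      (s := {h | z h = true}) (t := ↑(insert p (S ∪ S.image (fun t => t + i • v))))
      (fun h hh => z4 h hh) |>.not_finite (Finset.finite_toSet _)
  refine ⟨⟨z, zf⟩, hS' z z1, hS' _ z2⟩

end Pool.Agent.LibRotU
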