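import Pool.Agent.LibRotU.Cfg

/-!
# Blocks of a valid configuration
-/

namespace Pool.Agent.LibRotU

variable {c : Cfg}

/-- Horizontal position of a digit relative to the base of its block. -/
def px (d : Dg) : ℤ := if d.2.val < 2 then (d.1.val : ℤ) else (d.1.val : ℤ) - 1

/-- Vertical position of a digit relative to the base of its block. -/
def py (d : Dg) (p : Fin 4) : ℤ := if d.2.val < 2 ∧ d.1.val = 2 then (d.2.val : ℤ) - ca p else d.2.val

theorem ca_cases (p : Fin 4) : ca p = 0 ∨ ca p = 1 := by revert p; decide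

theorem Valid.site (h : Valid c) {x y : ℤ} {p : Fin 4} (hb : c.s x y = ((0, 0), p)) (d : Dg)
    (hd : present (d, p) = true) {x' y' : ℤ} (hx : x' = x + px d) (hy : y' = y + py d p) :
    c.s x' y' = (d, p) := by
  subst hx hy
  have s10 : c.s (x + 1) y = ((1, 0), p) := h.f1 hb (n1_00 p) rfl rfl
  have s01 : c.s x (y + 1) = ((0, 1), p) := h.f2 hb (n2_00 p) rfl rfl
  have s11 : c.s (x + 1) (y + 1) = ((1, 1), p) := h.f2 s10 (n2_10 p) rfl rfl
  have s21 : c.s (x + 2) (y + 1 - ca p) = ((2, 1), p) := by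
    rcases ca_cases p with ha | ha
    · exact h.f1 s11 (n1_11 p ha) (by ring) (by rw [ha]; simp)
    · exact h.f1 s10 (n1_10 p ha) (by ring) (by rw [ha]; simp)
  have s20 : c.s (x + 2) (y - ca p) = ((2, 0), p) := h.b2 s21 (p2_21 p) rfl (by ring)
  have s12 : c.s x (y + 2) = ((1, 2), p) := h.f2 s01 (n2_01 p) rfl (by ring)
  have s22 : c.s (x + 1) (y + 2) = ((2, 2), p) := h.f2 s11 (n2_11 p) rfl (by ring)
  have s02 : c.s (x - 1) (y + 2) = ((0, 2), p) := h.b1 s12 (p1_12 p) (by ring) rfl
  have s03 : present ((0, 3), p) = true → c.s (x - 1) (y + 3) = ((0, 3), p) := fun hp =>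
    h.f2 s02 (n2_i2 0 p hp) rfl (by ring)
  have s13 : present ((1, 3), p) = true → c.s x (y + 3) = ((1, 3), p) := fun hp =>
    h.f2 s12 (n2_i2 1 p hp) rfl (by ring)
  have s23 : present ((2, 3), p) = true → c.s (x + 1) (y + 3) = ((2, 3), p) := fun hp =>
    h.f2 s22 (n2_i2 2 p hp) rfl (by ring)
  obtain ⟨i, j⟩ := d
  fin_cases i <;> fin_cases j
  · simpa [px, py] using hb
  · simpa [px, py] using s01
  · simpa [px, py, sub_eq_add_neg] using s02
  · simpa [px, py, sub_eq_add_neg] using s03 hd
  · simpa [px, py] using s10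
  · simpa [px, py] using s11
  · simpa [px, py] using s12
  · simpa [px, py] using s13 hd
  · simpa [px, py, sub_eq_add_neg] using s20
  · simpa [px, py, sub_eq_add_neg, add_assoc] using s21
  · simpa [px, py] using s22
  · simpa [px, py] using s23 hd

theorem Valid.base (h : Valid c) {x y : ℤ} {d : Dg} {p : Fin 4} (hs : c.s x y = (d, p)) {x' y' : ℤ}
    (hx : x' = x - px d) (hy : y' = y - py d p) : c.s x' y' = ((0, 0), p) := by
  subst hx hy
  have b10 : ∀ x y, c.s x y = ((1, 0), p) → c.s (x - 1) y = ((0, 0), p) := fun x y hs =>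
    h.b1 hs (p1_10 p) (by ring) rfl
  have b01 : ∀ x y, c.s x y = ((0, 1), p) → c.s x (y - 1) = ((0, 0), p) := fun x y hs =>
    h.b2 hs (p2_01 p) rfl (by ring)
  have b11 : ∀ x y, c.s x y = ((1, 1), p) → c.s (x - 1) (y - 1) = ((0, 0), p) := fun x y hs =>
    b10 _ _ (h.b2 hs (p2_11 p) rfl (by ring))
  have b21 : ∀ x y, c.s x y = ((2, 1), p) → c.s (x - 2) (y - 1 + ca p) = ((0, 0), p) := by
    intro x y hs
    rcases ca_cases p with ha | ha
    · have := b11 _ _ (h.b1 hs (p1_21b p ha) (show x = (x - 1) + 1 by ring) rfl)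
      rw [ha]
      convert this using 2
      · ring
      · simp
    · have := b10 _ _ (h.b1 hs (p1_21a p ha) (show x = (x - 1) + 1 by ring) rfl)
      rw [ha]
      convert this using 2
      · ring
      · push_cast; ring
  have b20 : ∀ x y, c.s x y = ((2, 0), p) → c.s (x - 2) (y + ca p) = ((0, 0), p) := by
    intro x y hs
    have := b21 _ _ (h.f2 hs (n2_20 p) rfl rfl)
    convert this using 2
    ring
  have b12 : ∀ x y, c.s x y = ((1, 2), p) → c.s x (y - 2) = ((0, 0), p) := by
    intro x y hs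
    have := b01 _ _ (h.b2 hs (p2_12 p) (show x = x from rfl) (show y = (y - 1) + 1 by ring))
    convert this using 2
    ring
  have b22 : ∀ x y, c.s x y = ((2, 2), p) → c.s (x - 1) (y - 2) = ((0, 0), p) := by
    intro x y hs
    have := b11 _ _ (h.b2 hs (p2_22 p) (show x = x from rfl) (show y = (y - 1) + 1 by ring))
    convert this using 2
    ring
  have b02 : ∀ x y, c.s x y = ((0, 2), p) → c.s (x + 1) (y - 2) = ((0, 0), p) := fun x y hs =>
    b12 _ _ (h.f1 hs (n1_02 p) rfl rfl)
  have bi3 : ∀ (i : Fin 3) x y, c.s x y = ((i, 3), p) → c.s x (y - 1) = ((i, 2), p) :=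
    fun i x y hs => h.b2 hs (p2_i3 i p) rfl (by ring)
  obtain ⟨i, j⟩ := d
  fin_cases i <;> fin_cases j
  · simpa [px, py] using hs
  · simpa [px, py] using b01 _ _ hs
  · simpa [px, py] using b02 _ _ hs
  · have := b02 _ _ (bi3 0 _ _ hs)
    simp only [px, py]
    norm_num
    convert this using 2
    ring
  · simpa [px, py] using b10 _ _ hs
  · simpa [px, py] using b11 _ _ hs
  · simpa [px, py] using b12 _ _ hs
  · have := b12 _ _ (bi3 1 _ _ hs)
    simp only [px, py]
    norm_num
    convert this using 2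
    ring
  · have := b20 _ _ hs
    simp only [px, py]
    norm_num
    convert this using 2
  · have := b21 _ _ hs
    simp only [px, py]
    norm_num
    convert this using 2
    ring
  · simpa [px, py] using b22 _ _ hs
  · have := b22 _ _ (bi3 2 _ _ hs)
    simp only [px, py]
    norm_num
    convert this using 2
    ring

end Pool.Agent.LibRotU
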