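import Pool.Agent.LibRotU.Fin

/-!
# Valid configurations and their blocks
-/

namespace Pool.Agent.LibRotU

/-- A configuration: states of the sites and labels of the horizontal and vertical pairs. -/
structure Cfg where
  s : ℤ → ℤ → St
  l1 : ℤ → ℤ → Lb
  l2 : ℤ → ℤ → Lb

/-- The local rule. -/
structure Valid (c : Cfg) : Prop where
  pr : ∀ x y, present (c.s x y) = true
  t1 : ∀ x y, Tr false (c.s x y) (c.s (x + 1) y)
  t2 : ∀ x y, Tr true (c.s x y) (c.s x (y + 1))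
  i1 : ∀ x y, (nd1 (c.s x y)).1 = none → LI false (c.s x y) (c.l1 x y)
  i2 : ∀ x y, (nd2 (c.s x y)).1 = none → LI true (c.s x y) (c.l2 x y)
  vx : ∀ x y, VR (c.l1 x y) (c.l1 x (y + 1)) (c.l2 x y) (c.l2 (x + 1) y)

variable {c : Cfg}

theorem Valid.win (h : Valid c) (x y : ℤ) :
    Win (c.s x y) (c.s (x + 1) y) (c.s x (y + 1)) (c.s (x + 1) (y + 1)) :=
  ⟨h.pr _ _, h.pr _ _, h.pr _ _, h.pr _ _, h.t1 _ _, h.t2 _ _, h.t2 _ _, h.t1 _ _⟩

theorem Valid.ki (h : Valid c) {x y x1 y1 : ℤ} (hx : x1 = x + 1) (hy : y1 = y + 1) {k : Fin 8}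
    (hk : kind (c.s x y) = k) (h7 : k ≠ 7) :
    KI k (c.l1 x y) (c.l1 x y1) (c.l2 x y) (c.l2 x1 y) := by
  subst hx hy
  rw [← hk]
  exact uniq (h.win x y) ⟨h.i1 _ _, h.i1 _ _, h.i2 _ _, h.i2 _ _⟩ (h.vx x y) (by rw [hk]; exact h7)

/-! ## Moving inside a block -/

theorem Valid.f1 (h : Valid c) {x y x' y' : ℤ} {d d' : Dg} {p : Fin 4} (hs : c.s x y = (d, p))
    (hn : nd1 (d, p) = (none, d')) (hx : x' = x + 1) (hy : y' = y) : c.s x' y' = (d', p) := by
  subst hx hy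
  have := h.t1 x y'
  rw [hs] at this
  obtain ⟨h1, h2⟩ := this
  simp only [nd, Bool.false_eq_true, if_false, hn] at h1 h2
  exact Prod.ext h1.symm (h2 trivial)

theorem Valid.f2 (h : Valid c) {x y x' y' : ℤ} {d d' : Dg} {p : Fin 4} (hs : c.s x y = (d, p))
    (hn : nd2 (d, p) = (none, d')) (hx : x' = x) (hy : y' = y + 1) : c.s x' y' = (d', p) := by
  subst hx hy
  have := h.t2 x' y
  rw [hs] at this
  obtain ⟨h1, h2⟩ := this
  simp only [nd, if_true, hn] at h1 h2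
  exact Prod.ext h1.symm (h2 trivial)

theorem Valid.g1 (h : Valid c) {x y x' y' : ℤ} {d d' : Dg} {p : Fin 4} (hs : c.s x y = (d, p))
    (hn : (nd1 (d, p)).2 = d') (hx : x' = x + 1) (hy : y' = y) : (c.s x' y').1 = d' := by
  subst hx hy
  have := h.t1 x y'
  rw [hs] at this
  exact this.1.symm.trans hn

theorem Valid.g2 (h : Valid c) {x y x' y' : ℤ} {d d' : Dg} {p : Fin 4} (hs : c.s x y = (d, p))
    (hn : (nd2 (d, p)).2 = d') (hx : x' = x) (hy : y' = y + 1) : (c.s x' y').1 = d' := by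
  subst hx hy
  have := h.t2 x' y
  rw [hs] at this
  exact this.1.symm.trans hn

theorem Valid.b1 (h : Valid c) {x y x' y' : ℤ} {d d' : Dg} {p : Fin 4} (hs : c.s x' y' = (d', p))
    (hn : ∀ s0 : St, present s0 = true → Tr false s0 (d', p) → s0 = (d, p)) (hx : x' = x + 1)
    (hy : y' = y) : c.s x y = (d, p) := by
  subst hx hy
  have := h.t1 x y'
  rw [hs] at this
  exact hn _ (h.pr _ _) this

theorem Valid.b2 (h : Valid c) {x y x' y' : ℤ} {d d' : Dg} {p : Fin 4} (hs : c.s x' y' = (d', p))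
    (hn : ∀ s0 : St, present s0 = true → Tr true s0 (d', p) → s0 = (d, p)) (hx : x' = x)
    (hy : y' = y + 1) : c.s x y = (d, p) := by
  subst hx hy
  have := h.t2 x' y
  rw [hs] at this
  exact hn _ (h.pr _ _) this

/-! ## Finite facts about steps -/

theorem n1_00 : ∀ p : Fin 4, nd1 ((0, 0), p) = (none, (1, 0)) := by decide
theorem n1_02 : ∀ p : Fin 4, nd1 ((0, 2), p) = (none, (1, 2)) := by decide
theorem n2_00 : ∀ p : Fin 4, nd2 ((0, 0), p) = (none, (0, 1)) := by decide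
theorem n2_10 : ∀ p : Fin 4, nd2 ((1, 0), p) = (none, (1, 1)) := by decide
theorem n2_20 : ∀ p : Fin 4, nd2 ((2, 0), p) = (none, (2, 1)) := by decide
theorem n2_01 : ∀ p : Fin 4, nd2 ((0, 1), p) = (none, (1, 2)) := by decide
theorem n2_11 : ∀ p : Fin 4, nd2 ((1, 1), p) = (none, (2, 2)) := by decide
theorem n1_10 : ∀ p : Fin 4, ca p = 1 → nd1 ((1, 0), p) = (none, (2, 1)) := by decide
theorem n1_11 : ∀ p : Fin 4, ca p = 0 → nd1 ((1, 1), p) = (none, (2, 1)) := by decide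
theorem n2_i2 : ∀ (i : Fin 3) (p : Fin 4), present ((i, 3), p) = true →
    nd2 ((i, 2), p) = (none, (i, 3)) := by decide

theorem p1_10 : ∀ (p : Fin 4) (s0 : St), present s0 = true → Tr false s0 ((1, 0), p) →
    s0 = ((0, 0), p) := by decide
theorem p1_12 : ∀ (p : Fin 4) (s0 : St), present s0 = true → Tr false s0 ((1, 2), p) →
    s0 = ((0, 2), p) := by decide
theorem p1_21a : ∀ (p : Fin 4), ca p = 1 → ∀ (s0 : St), present s0 = true →
    Tr false s0 ((2, 1), p) → s0 = ((1, 0), p) := by decide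
theorem p1_21b : ∀ (p : Fin 4), ca p = 0 → ∀ (s0 : St), present s0 = true →
    Tr false s0 ((2, 1), p) → s0 = ((1, 1), p) := by decide
theorem p2_01 : ∀ (p : Fin 4) (s0 : St), present s0 = true → Tr true s0 ((0, 1), p) →
    s0 = ((0, 0), p) := by decide
theorem p2_11 : ∀ (p : Fin 4) (s0 : St), present s0 = true → Tr true s0 ((1, 1), p) →
    s0 = ((1, 0), p) := by decide
theorem p2_21 : ∀ (p : Fin 4) (s0 : St), present s0 = true → Tr true s0 ((2, 1), p) →
    s0 = ((2, 0), p) := by decide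
theorem p2_12 : ∀ (p : Fin 4) (s0 : St), present s0 = true → Tr true s0 ((1, 2), p) →
    s0 = ((0, 1), p) := by decide
theorem p2_22 : ∀ (p : Fin 4) (s0 : St), present s0 = true → Tr true s0 ((2, 2), p) →
    s0 = ((1, 1), p) := by decide
theorem p2_i3 : ∀ (i : Fin 3) (p : Fin 4) (s0 : St), present s0 = true →
    Tr true s0 ((i, 3), p) → s0 = ((i, 2), p) := by decide
theorem p1_00 : ∀ (p : Fin 4) (s0 : St), present s0 = true → Tr false s0 ((0, 0), p) →
    s0.1 = (2, 0) := by decide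
theorem p2_00 : ∀ (p : Fin 4) (s0 : St), present s0 = true → Tr true s0 ((0, 0), p) →
    s0.1.1 = 0 ∧ s0.1.2.val = 3 - cb s0.2 := by decide

end Pool.Agent.LibRotU
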