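import Pool.Agent.LibRotU.Block

/-!
# Labels along the border of a block
-/

namespace Pool.Agent.LibRotU

variable {c : Cfg}

theorem p_cases (p : Fin 4) : (p = 0 ∧ ca p = 0 ∧ cb p = 0 ∧ cg p = 0) ∨
    (p = 1 ∧ ca p = 0 ∧ cb p = 0 ∧ cg p = 1) ∨ (p = 2 ∧ ca p = 1 ∧ cb p = 0 ∧ cg p = 1) ∨
    (p = 3 ∧ ca p = 1 ∧ cb p = 1 ∧ cg p = 1) := by revert p; decide

/-- The vertex rule, with explicit arguments. -/
theorem Valid.kx (h : Valid c) (x y x1 y1 : ℤ) {k : Fin 8} (hk : kind (c.s x y) = k) (h7 : k ≠ 7)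
    (hx : x1 = x + 1) (hy : y1 = y + 1) : KI k (c.l1 x y) (c.l1 x y1) (c.l2 x y) (c.l2 x1 y) :=
  h.ki hx hy hk h7

theorem kd00 : ∀ p : Fin 4, kind ((0, 0), p) = 0 := by decide
theorem kd01 : ∀ p : Fin 4, kind ((0, 1), p) = 0 := by decide
theorem kd20 : ∀ p : Fin 4, kind ((2, 0), p) = 1 := by decide
theorem kd21 : ∀ p : Fin 4, kind ((2, 1), p) = 5 := by decide
theorem kd2_02 : ∀ p : Fin 4, kind2 ((0, 2), p) = 5 := by decide
theorem cg_le : ∀ p : Fin 4, cg p ≤ 1 := by decide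

/-- Explicit sites of a block. -/
structure Sites (c : Cfg) (x y : ℤ) (p : Fin 4) : Prop where
  s00 : c.s x y = ((0, 0), p)
  s10 : c.s (x + 1) y = ((1, 0), p)
  s20 : c.s (x + 2) (y - ca p) = ((2, 0), p)
  s01 : c.s x (y + 1) = ((0, 1), p)
  s11 : c.s (x + 1) (y + 1) = ((1, 1), p)
  s21 : c.s (x + 2) (y + 1 - ca p) = ((2, 1), p)
  s02 : c.s (x - 1) (y + 2) = ((0, 2), p)
  s12 : c.s x (y + 2) = ((1, 2), p)
  s22 : c.s (x + 1) (y + 2) = ((2, 2), p)
  s03 : cb p = 0 → c.s (x - 1) (y + 3) = ((0, 3), p)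
  s13 : cb p = 0 → c.s x (y + 3) = ((1, 3), p)
  s23 : cg p = 0 → c.s (x + 1) (y + 3) = ((2, 3), p)

theorem Valid.sites (h : Valid c) {x y : ℤ} {p : Fin 4} (hb : c.s x y = ((0, 0), p)) :
    Sites c x y p := by
  have hp2 : ∀ (i : Fin 3) (j : Fin 4) (p : Fin 4), j.val ≤ 2 → present ((i, j), p) = true := by
    decide
  have hp3 : ∀ (i : Fin 3) (p : Fin 4), i.val ≤ 1 → cb p = 0 → present ((i, 3), p) = true := by
    decide
  have hp4 : ∀ (p : Fin 4), cg p = 0 → present ((2, 3), p) = true := by decide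
  refine ⟨hb, ?_, ?_, ?_, ?_, ?_, ?_, ?_, ?_, fun hp => ?_, fun hp => ?_, fun hp => ?_⟩
  · exact h.site hb (1, 0) (hp2 _ _ _ (by decide)) (by simp [px]) (by simp [py])
  · exact h.site hb (2, 0) (hp2 _ _ _ (by decide)) (by simp [px]) (by simp [py, sub_eq_add_neg])
  · exact h.site hb (0, 1) (hp2 _ _ _ (by decide)) (by simp [px]) (by simp [py])
  · exact h.site hb (1, 1) (hp2 _ _ _ (by decide)) (by simp [px]) (by simp [py])
  · exact h.site hb (2, 1) (hp2 _ _ _ (by decide)) (by simp [px])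
      (by simp [py, sub_eq_add_neg, add_assoc])
  · exact h.site hb (0, 2) (hp2 _ _ _ (by decide)) (by simp [px, sub_eq_add_neg]) (by simp [py])
  · exact h.site hb (1, 2) (hp2 _ _ _ (by decide)) (by simp [px]) (by simp [py])
  · exact h.site hb (2, 2) (hp2 _ _ _ (by decide)) (by simp [px]) (by simp [py])
  · exact h.site hb (0, 3) (hp3 _ _ (by decide) hp) (by simp [px, sub_eq_add_neg]) (by simp [py])
  · exact h.site hb (1, 3) (hp3 _ _ (by decide) hp) (by simp [px]) (by simp [py])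
  · exact h.site hb (2, 3) (hp4 _ hp) (by simp [px]) (by simp [py])

/-- The right neighbour block starts at `(x + 3, y - a)`. -/
theorem Valid.right (h : Valid c) {x y : ℤ} {p : Fin 4} (hb : c.s x y = ((0, 0), p)) :
    (c.s (x + 3) (y - ca p)).1 = (0, 0) := by
  have hs := h.sites hb
  have hn : ∀ p : Fin 4, (nd1 ((2, 0), p)).2 = (0, 0) := by decide
  exact h.g1 hs.s20 (hn p) (by ring) rfl

/-- The upper neighbour block starts at `(x - 1, y + 4 - b)`. -/
theorem Valid.upper (h : Valid c) {x y : ℤ} {p : Fin 4} (hb : c.s x y = ((0, 0), p)) :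
    (c.s (x - 1) (y + 4 - cb p)).1 = (0, 0) := by
  have hs := h.sites hb
  rcases p_cases p with ⟨rfl, -, h2, -⟩ | ⟨rfl, -, h2, -⟩ | ⟨rfl, -, h2, -⟩ | ⟨rfl, -, h2, -⟩
  · exact h.g2 (hs.s03 h2) (by decide) rfl (by rw [h2]; push_cast; ring)
  · exact h.g2 (hs.s03 h2) (by decide) rfl (by rw [h2]; push_cast; ring)
  · exact h.g2 (hs.s03 h2) (by decide) rfl (by rw [h2]; push_cast; ring)
  · exact h.g2 hs.s02 (by decide) rfl (by rw [h2]; push_cast; ring)

theorem win7_fin (s0 : St) (p1 p2 p3 : Fin 4) :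
    decide (Win s0 ((nd1 s0).2, p1) ((nd2 s0).2, p2) ((nd2 ((nd1 s0).2, p1)).2, p3)) = true →
      (decide (kind s0 = 7 → (nd1 s0).2.1 = 0 ∧ (nd1 s0).2.2.val + cg s0.2 = 3 + ca s0.2 ∧
        ca s0.2 + cb p1 = cg s0.2) &&
      decide ((kind s0 = 2 ∧ s0.1.1 = 1) ∨ kind s0 = 6 → (nd2 s0).2 = (1, 0) ∧
        ca p2 + cb s0.2 = cg s0.2)) = true := by
  revert s0 p1 p2 p3
  decide +kernel

theorem win7 {s0 s1 s2 s3 : St} (hw : Win s0 s1 s2 s3) (hk : kind s0 = 7) :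
    s1.1.1 = 0 ∧ s1.1.2.val + cg s0.2 = 3 + ca s0.2 ∧ ca s0.2 + cb s1.2 = cg s0.2 := by
  have := win_all (fun s0 s1 s2 _ => decide (kind s0 = 7 → s1.1.1 = 0 ∧
      s1.1.2.val + cg s0.2 = 3 + ca s0.2 ∧ ca s0.2 + cb s1.2 = cg s0.2) &&
      decide ((kind s0 = 2 ∧ s0.1.1 = 1) ∨ kind s0 = 6 → s2.1 = (1, 0) ∧
        ca s2.2 + cb s0.2 = cg s0.2)) win7_fin hw
  simp only [Bool.and_eq_true, decide_eq_true_eq] at this
  exact this.1 hk

theorem win6 {s0 s1 s2 s3 : St} (hw : Win s0 s1 s2 s3)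
    (hk : (kind s0 = 2 ∧ s0.1.1 = 1) ∨ kind s0 = 6) :
    s2.1 = (1, 0) ∧ ca s2.2 + cb s0.2 = cg s0.2 := by
  have := win_all (fun s0 s1 s2 _ => decide (kind s0 = 7 → s1.1.1 = 0 ∧
      s1.1.2.val + cg s0.2 = 3 + ca s0.2 ∧ ca s0.2 + cb s1.2 = cg s0.2) &&
      decide ((kind s0 = 2 ∧ s0.1.1 = 1) ∨ kind s0 = 6 → s2.1 = (1, 0) ∧
        ca s2.2 + cb s0.2 = cg s0.2)) win7_fin hw
  simp only [Bool.and_eq_true, decide_eq_true_eq] at this
  exact this.2 hk

/-- The top site of the last column. -/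
theorem Sites.top2 {x y : ℤ} {p : Fin 4} (hs : Sites c x y p) :
    ∃ d : Dg, c.s (x + 1) (y + 3 - cg p) = (d, p) ∧ kind (d, p) = 7 := by
  rcases p_cases p with ⟨rfl, -, -, h3⟩ | ⟨rfl, -, -, h3⟩ | ⟨rfl, -, -, h3⟩ | ⟨rfl, -, -, h3⟩
  · exact ⟨(2, 3), by
      have := hs.s23 h3
      rw [h3]; simpa using this, by decide⟩
  · exact ⟨(2, 2), by
      have := hs.s22
      rw [h3]; convert this using 2; push_cast; ring, by decide⟩
  · exact ⟨(2, 2), by
      have := hs.s22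
      rw [h3]; convert this using 2; push_cast; ring, by decide⟩
  · exact ⟨(2, 2), by
      have := hs.s22
      rw [h3]; convert this using 2; push_cast; ring, by decide⟩

/-- The top site of the middle column. -/
theorem Sites.top1 {x y : ℤ} {p : Fin 4} (hs : Sites c x y p) :
    ∃ j : Fin 4, c.s x (y + 3 - cb p) = ((1, j), p) ∧
      (cg p = cb p → kind ((1, j), p) = 2) ∧ (cg p ≠ cb p → kind ((1, j), p) = 6) := by
  rcases p_cases p with ⟨rfl, -, h2, h3⟩ | ⟨rfl, -, h2, h3⟩ | ⟨rfl, -, h2, h3⟩ | ⟨rfl, -, h2, h3⟩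
  · exact ⟨3, by
      have := hs.s13 h2
      rw [h2]; simpa using this, by decide, by decide⟩
  · exact ⟨3, by
      have := hs.s13 h2
      rw [h2]; simpa using this, by decide, by decide⟩
  · exact ⟨3, by
      have := hs.s13 h2
      rw [h2]; simpa using this, by decide, by decide⟩
  · exact ⟨2, by
      have := hs.s12
      rw [h2]; convert this using 2; push_cast; ring, by decide, by decide⟩

/-- The top site of the first column. -/
theorem Sites.top0 {x y : ℤ} {p : Fin 4} (hs : Sites c x y p) :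
    ∃ j : Fin 4, c.s (x - 1) (y + 3 - cb p) = ((0, j), p) ∧ kind ((0, j), p) = 2 := by
  rcases p_cases p with ⟨rfl, -, h2, h3⟩ | ⟨rfl, -, h2, h3⟩ | ⟨rfl, -, h2, h3⟩ | ⟨rfl, -, h2, h3⟩
  · exact ⟨3, by
      have := hs.s03 h2
      rw [h2]; simpa using this, by decide⟩
  · exact ⟨3, by
      have := hs.s03 h2
      rw [h2]; simpa using this, by decide⟩
  · exact ⟨3, by
      have := hs.s03 h2
      rw [h2]; simpa using this, by decide⟩
  · exact ⟨2, by
      have := hs.s02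
      rw [h2]; convert this using 2; push_cast; ring, by decide⟩

/-- Type relation with the right neighbour. -/
theorem Valid.adj1 (h : Valid c) {x y : ℤ} {p : Fin 4} (hb : c.s x y = ((0, 0), p)) :
    ca p + cb (c.s (x + 3) (y - ca p)).2 = cg p := by
  obtain ⟨d, hd, hk⟩ := (h.sites hb).top2
  have hw := h.win (x + 1) (y + 3 - cg p)
  rw [hd] at hw
  obtain ⟨k1, k2, k3⟩ := win7 hw hk
  generalize hs1 : c.s (x + 1 + 1) (y + 3 - cg p) = s1 at *
  obtain ⟨⟨i, j⟩, p'⟩ := s1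
  simp only at k1 k2 k3
  subst k1
  have hj2 : ¬ (j.val < 2) := by
    have := cg_le p
    omega
  have hbase := h.base hs1 (x' := x + 3) (y' := y - ca p)
    (by simp only [px, if_neg hj2]; simp; ring)
    (by simp only [py, hj2, false_and, if_false]; omega)
  rw [hbase]
  exact k3

/-- Type relation with the upper neighbour. -/
theorem Valid.adj2 (h : Valid c) {x y : ℤ} {p : Fin 4} (hb : c.s x y = ((0, 0), p)) :
    ca (c.s (x - 1) (y + 4 - cb p)).2 + cb p = cg p := by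
  obtain ⟨j, hd, hk1, hk2⟩ := (h.sites hb).top1
  have hw := h.win x (y + 3 - cb p)
  rw [hd] at hw
  obtain ⟨k1, k2⟩ := win6 hw (by
    by_cases hc : cg p = cb p
    · exact Or.inl ⟨hk1 hc, rfl⟩
    · exact Or.inr (hk2 hc))
  generalize hs1 : c.s x (y + 3 - cb p + 1) = s1 at *
  obtain ⟨d, p'⟩ := s1
  simp only at k1 k2
  subst k1
  have hbase := h.base hs1 (x' := x - 1) (y' := y + 4 - cb p) (by simp [px]) (by simp [py]; ring)
  rw [hbase]
  exact k2

/-! ## Labels along the borders -/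

/-- The state of the block read at the pair above the base. -/
theorem Valid.sig_a (h : Valid c) {x y : ℤ} {p : Fin 4} (hb : c.s x y = ((0, 0), p)) :
    (c.l1 x y).2.2 = (c.l2 x y).2.2 := by
  exact ((h.kx x y (x + 1) (y + 1) (by rw [hb]; exact kd00 p) (by decide) rfl rfl).1 rfl).2.1

theorem Valid.sig_b (h : Valid c) {x y : ℤ} {p : Fin 4} (hb : c.s x y = ((0, 0), p)) :
    (c.l1 x y).2.2 = (c.l2 (x + 2) (y - ca p)).2.2 := by
  have hs := h.sites hb
  have e0 := ((h.kx x y (x + 1) (y + 1) (by rw [hb]; exact kd00 p) (by decide) rfl rfl).1 rfl)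
  -- e0 : l1(x,y) = l1(x,y+1) = l2(x,y) = l2(x+1,y)
  rcases ca_cases p with ha | ha
  · have k1 : ∀ p : Fin 4, ca p = 0 → kind ((1, 0), p) = 0 := by decide
    have e1 := ((h.kx (x + 1) y (x + 2) (y + 1) (by rw [hs.s10]; exact k1 p ha) (by decide)
      (by ring) rfl).1 rfl)
    rw [e0.2.2, ← e1.2.1, e1.2.2, ha]
    simp
  · have k1 : ∀ p : Fin 4, ca p = 1 → kind ((1, 0), p) = 3 := by decide
    have e1 := ((h.kx (x + 1) y (x + 2) (y + 1) (by rw [hs.s10]; exact k1 p ha)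
      (by decide) (by ring) rfl).2.2.2.1 (Or.inl rfl))
    -- the window below
    have s20 := hs.s20
    rw [ha] at s20
    have hw := h.win (x + 1) (y - 1)
    have hs1 : c.s (x + 1 + 1) (y - 1) = ((2, 0), p) := by
      rw [← s20]; congr 1; ring
    rw [hs1] at hw
    have k6 := (win_fin' hw).2.2.2.2.2 (by rw [n2_20])
    have k6' : ∀ p : Fin 4, ca p = 1 → kind1 ((2, 0), p) = 6 := by decide
    rw [k6' p ha] at k6
    have e2 := ((h.kx (x + 1) (y - 1) (x + 2) y k6 (by decide) (by ring) (by ring)).2.2.2.2.1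
      (Or.inr rfl))
    rw [e0.2.2, ← e1.1, e2.1, ha]
    simp

theorem Valid.sig_c (h : Valid c) {x y : ℤ} {p : Fin 4} (hb : c.s x y = ((0, 0), p)) :
    (c.l1 x y).2.2 = (c.l1 (x - 1) (y + 3 - cb p)).2.2 := by
  have hs := h.sites hb
  have e0 := ((h.kx x y (x + 1) (y + 1) (by rw [hb]; exact kd00 p) (by decide) rfl rfl).1 rfl)
  have e1 := ((h.kx x (y + 1) (x + 1) (y + 1 + 1) (by rw [hs.s01]; exact kd01 p) (by decide)
    rfl rfl).1 rfl)
  have hw := h.win (x - 1) (y + 1)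
  have hs2 : c.s (x - 1) (y + 1 + 1) = ((0, 2), p) := by
    rw [← hs.s02]; congr 1; ring
  rw [hs2] at hw
  have k5 := (win_fin' hw).2.2.2.2.1 (by rw [n1_02])
  rw [kd2_02] at k5
  have e2 := ((h.kx (x - 1) (y + 1) x (y + 2) k5 (by decide) (by ring) (by ring)).2.2.2.2.1
    (Or.inl rfl))
  -- e2.1 : l1 (x-1) (y+2) = l2 x (y+1)
  have e3 : (c.l1 x y).2.2 = (c.l1 (x - 1) (y + 2)).2.2 := by
    rw [e0.1, e1.2.1, e2.1]
  rcases p_cases p with ⟨rfl, -, h2, h3⟩ | ⟨rfl, -, h2, h3⟩ | ⟨rfl, -, h2, h3⟩ | ⟨rfl, -, h2, h3⟩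
  · have e4 := ((h.kx (x - 1) (y + 2) (x - 1 + 1) (y + 3) (k := 0) (by rw [hs.s02]; decide)
      (by decide) rfl (by ring)).1 rfl)
    rw [e3, e4.1, h2]; simp
  · have e4 := ((h.kx (x - 1) (y + 2) (x - 1 + 1) (y + 3) (k := 0) (by rw [hs.s02]; decide)
      (by decide) rfl (by ring)).1 rfl)
    rw [e3, e4.1, h2]; simp
  · have e4 := ((h.kx (x - 1) (y + 2) (x - 1 + 1) (y + 3) (k := 0) (by rw [hs.s02]; decide)
      (by decide) rfl (by ring)).1 rfl)
    rw [e3, e4.1, h2]; simp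
  · rw [e3, h2]
    congr 3
    push_cast; ring

/-- The label of the right border is constant. -/
theorem Valid.bord1 (h : Valid c) {x y : ℤ} {p : Fin 4} (hb : c.s x y = ((0, 0), p)) :
    c.l1 (x + 2) (y - ca p) = c.l1 (x + 1) (y + 3 - cg p) := by
  have hs := h.sites hb
  have e1 := ((h.kx (x + 2) (y - ca p) (x + 2 + 1) (y + 1 - ca p) (by rw [hs.s20]; exact kd20 p)
    (by decide) rfl (by ring)).2.1 rfl).1
  have e2 := ((h.kx (x + 2) (y + 1 - ca p) _ _ (by rw [hs.s21]; exact kd21 p) (by decide)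
    rfl rfl).2.2.2.2.1 (Or.inl rfl)).2
  -- e1 : l1 (x+2) (y-a) = l1 (x+2) (y+1-a);  e2 : l1 (x+2) (y+1-a) = l2 (x+2) (y+1-a)
  have e3 : c.l2 (x + 2) (y + 1 - ca p) = c.l1 (x + 1) (y + 2) := by
    rcases ca_cases p with ha | ha
    · have k11 : ∀ p : Fin 4, ca p = 0 → kind ((1, 1), p) = 3 := by decide
      have := ((h.kx (x + 1) (y + 1) (x + 2) (y + 2)
        (by rw [hs.s11]; exact k11 p ha) (by decide) (by ring) (by ring)).2.2.2.1 (Or.inl rfl)).2
      rw [this, ha]; simp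
    · have k10 : ∀ p : Fin 4, ca p = 1 → kind ((1, 0), p) = 3 := by decide
      have k11 : ∀ p : Fin 4, ca p = 1 → kind ((1, 1), p) = 1 := by decide
      have a1 := ((h.kx (x + 1) y (x + 2) (y + 1)
        (by rw [hs.s10]; exact k10 p ha) (by decide) (by ring) (by ring)).2.2.2.1 (Or.inl rfl)).2
      have a2 := ((h.kx (x + 1) (y + 1) (x + 2) (y + 2)
        (by rw [hs.s11]; exact k11 p ha) (by decide) (by ring) (by ring)).2.1 rfl).1
      rw [← a2, a1, ha]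
      congr 1; push_cast; ring
  rw [e1, e2, e3]
  rcases p_cases p with ⟨rfl, -, h2, h3⟩ | ⟨rfl, -, h2, h3⟩ | ⟨rfl, -, h2, h3⟩ | ⟨rfl, -, h2, h3⟩
  · have e4 := ((h.kx (x + 1) (y + 2) (x + 1 + 1) (y + 3) (k := 1) (by rw [hs.s22]; decide)
      (by decide) rfl (by ring)).2.1 rfl).1
    rw [e4, h3]; simp
  · rw [h3]; congr 1; push_cast; ring
  · rw [h3]; congr 1; push_cast; ring
  · rw [h3]; congr 1; push_cast; ring

/-- The label of the upper border is constant. -/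
theorem Valid.bord2 (h : Valid c) {x y : ℤ} {p : Fin 4} (hb : c.s x y = ((0, 0), p)) :
    c.l2 (x - 1) (y + 3 - cb p) = c.l2 (x + 1) (y + 3 - cg p) := by
  have hs := h.sites hb
  obtain ⟨j0, t0, k0⟩ := hs.top0
  obtain ⟨j1, t1, k1, k1'⟩ := hs.top1
  have e1 := ((h.kx (x - 1) (y + 3 - cb p) x _ (by rw [t0]; exact k0) (by decide) (by ring)
    rfl).2.2.1 rfl).1
  rw [e1]
  by_cases hc : cg p = cb p
  · have e2 := ((h.kx x (y + 3 - cb p) _ _ (by rw [t1]; exact k1 hc) (by decide) rfl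
      rfl).2.2.1 rfl).1
    rw [e2, hc]
  · have e2 := ((h.kx x (y + 3 - cb p) _ _ (by rw [t1]; exact k1' hc) (by decide) rfl
      rfl).2.2.2.2.1 (Or.inr rfl)).2
    rw [← e2]
    have hc' : ∀ p : Fin 4, cg p ≠ cb p → cb p = 0 ∧ cg p = 1 ∧ kind ((1, 2), p) = 4 := by decide
    obtain ⟨h2, h3, k4⟩ := hc' p hc
    have e3 := ((h.kx x (y + 2) (x + 1) (y + 3) (by rw [hs.s12]; exact k4)
      (by decide) rfl (by ring)).2.2.2.1 (Or.inr rfl)).2
    rw [h2, h3]
    push_cast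
    rw [sub_zero, e3]
    congr 1; ring

/-- The relation across the right border. -/
theorem Valid.cross1 (h : Valid c) {x y : ℤ} {p : Fin 4} (hb : c.s x y = ((0, 0), p)) :
    Cr false (c.l1 x y).2.2 (c.l1 (x + 3) (y - ca p)).2.2 (c.l1 (x + 2) (y - ca p)) := by
  have hs := h.sites hb
  have e1 := ((h.kx (x + 2) (y - ca p) (x + 3) _ (by rw [hs.s20]; exact kd20 p)
    (by decide) (by ring) rfl).2.1 rfl).2
  rw [← h.sig_b hb] at e1
  have hr : c.s (x + 3) (y - ca p) = ((0, 0), (c.s (x + 3) (y - ca p)).2) :=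
    Prod.ext (h.right hb) rfl
  rw [← h.sig_a hr] at e1
  exact e1

/-- The relation across the upper border. -/
theorem Valid.cross2 (h : Valid c) {x y : ℤ} {p : Fin 4} (hb : c.s x y = ((0, 0), p)) :
    Cr true (c.l1 x y).2.2 (c.l1 (x - 1) (y + 4 - cb p)).2.2 (c.l2 (x - 1) (y + 3 - cb p)) := by
  have hs := h.sites hb
  obtain ⟨j0, t0, k0⟩ := hs.top0
  have e1 := ((h.kx (x - 1) (y + 3 - cb p) _ (y + 4 - cb p) (by rw [t0]; exact k0)
    (by decide) rfl (by ring)).2.2.1 rfl).2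
  rw [← h.sig_c hb] at e1
  exact e1

/-- The vertex rule at the vertex where four blocks meet. -/
theorem Valid.vert (h : Valid c) {x y : ℤ} {p pr pu : Fin 4} (hb : c.s x y = ((0, 0), p))
    (hr : (c.s (x + 3) (y - ca p)).2 = pr) (hu : (c.s (x - 1) (y + 4 - cb p)).2 = pu) :
    VR (c.l1 (x + 2) (y - ca p)) (c.l1 (x - 1 + 2) (y + 4 - cb p - ca pu))
      (c.l2 (x - 1) (y + 3 - cb p)) (c.l2 (x + 3 - 1) (y - ca p + 3 - cb pr)) := by
  have a1 := h.adj1 hb
  have a2 := h.adj2 hb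
  rw [hr] at a1
  rw [hu] at a2
  rw [h.bord1 hb, h.bord2 hb]
  have := h.vx (x + 1) (y + 3 - cg p)
  convert this using 2
  · ring
  · rw [← a2]; push_cast; ring
  · ring
  · rw [← a1]; push_cast; ring

end Pool.Agent.LibRotU
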