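import Pool.Agent.LibRotU.Dev

/-!
# The digits of a phase
-/

namespace Pool.Agent.LibRotU

/-- The parameters: `C` is `l ^ 2` and `B` is `l * (4 * l - l ^ 2)`. -/
structure IsP (l C B : ℝ) : Prop where
  one : 1 = 12 * l - 3 * C - B
  l1 : 0.0877 < l
  l2 : l < 0.0878
  c1 : 0.00769 < C
  c2 : C < 0.00771
  b1 : 0.03 < B
  b2 : B < 0.0303
  eC : C = l * l
  eB : B = l * (4 * l - C)

theorem isP_of {l : ℝ} (h1 : l ^ 3 - 7 * l ^ 2 + 12 * l - 1 = 0) (h2 : 0 < l) (h3 : l < 1 / 4) :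
    IsP l (l * l) (l * (4 * l - l * l)) := by
  have l1 : 0.0877 < l := by
    by_contra hc
    push Not at hc
    nlinarith [mul_nonneg (sq_nonneg l) h2.le, mul_nonneg h2.le (sub_nonneg.2 hc)]
  have l2 : l < 0.0878 := by
    by_contra hc
    push Not at hc
    nlinarith [mul_nonneg (sub_nonneg.2 hc) (sub_nonneg.2 h3.le),
      mul_nonneg h2.le (mul_nonneg (sub_nonneg.2 hc) (sub_nonneg.2 h3.le)),
      mul_nonneg h2.le (sub_nonneg.2 hc)]
  have c1 : 0.00769 < l * l := by nlinarith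
  have c2 : l * l < 0.00771 := by nlinarith
  exact ⟨by linear_combination (-1 : ℝ) * h1, l1, l2, c1, c2, by nlinarith, by nlinarith, rfl, rfl⟩

/-- The type of a phase. -/
noncomputable def qz (l C y : ℝ) : Fin 4 :=
  if y < 1 - (5 * l - C) then 0 else if y < 1 - (4 * l - C) then 1
  else if y < 1 - l then 2 else 3

/-- The digit of a phase and the position of its block. -/
noncomputable def dgo (l C B y : ℝ) : Dg × ℝ :=
  if y < l then ((0, 0), 0) else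
  if y < 2 * l then ((0, 1), l) else
  if y < 3 * l then ((1, 2), 2 * l) else
  if y < 4 * l - C then ((1, 3), 3 * l) else
  if y < 5 * l - C then ((1, 0), 4 * l - C) else
  if y < 6 * l - C then ((1, 1), 5 * l - C) else
  if y < 7 * l - C then ((2, 2), 6 * l - C) else
  if y < 8 * l - 2 * C - B then ((2, 3), 7 * l - C) else
  if y < 8 * l - 2 * C then ((2, 0), 7 * l - 2 * C) else
  if y < 9 * l - 2 * C - B then ((2, 0), 8 * l - 2 * C) else
  if y < 9 * l - 2 * C then ((2, 1), 8 * l - 2 * C) else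
  if y < 10 * l - 2 * C - B then ((2, 1), 9 * l - 2 * C) else
  if y < 11 * l - 2 * C - B then ((0, 2), 10 * l - 2 * C - B) else
  ((0, 3), 11 * l - 2 * C - B)

/-- The digit of a phase. -/
noncomputable def dg (l C B y : ℝ) : Dg := (dgo l C B y).1

/-- The phase of the block. -/
noncomputable def nx (l C B y : ℝ) : ℝ := (y - (dgo l C B y).2) / l

/-- The integer part of a position. -/
def gg (d : Dg) : ℤ := if d.1.val = 0 ∧ 2 ≤ d.2.val then 1 else 0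

/-- The position of a digit. -/
noncomputable def PP (l C : ℝ) (d : Dg) (p : Fin 4) : ℝ :=
  px d * (4 * l - C) + py d p * l + gg d

theorem qz_cases {l C B : ℝ} (h : IsP l C B) {w : ℝ} (h0 : 0 ≤ w) (h1 : w < 1) :
    (qz l C w = 0 ∧ 0 ≤ l * w ∧ l * w < l - B - C) ∨
    (qz l C w = 1 ∧ l - B - C ≤ l * w ∧ l * w < l - B) ∨
    (qz l C w = 2 ∧ l - B ≤ l * w ∧ l * w < l - C) ∨
    (qz l C w = 3 ∧ l - C ≤ l * w ∧ l * w < l) := by
  obtain ⟨one, l1, l2, c1, c2, b1, b2, eC, eB⟩ := h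
  have hl : 0 < l := by linarith
  have m : ∀ x : ℝ, (w < x ↔ l * w < l * x) := fun x => (mul_lt_mul_iff_right₀ hl).symm
  unfold qz
  split_ifs with g1 g2 g3
  · left
    refine ⟨rfl, by positivity, ?_⟩
    have := (m _).1 g1
    nlinarith
  · right; left
    refine ⟨rfl, ?_, ?_⟩
    · have := mt (m _).2 g1
      push Not at this
      nlinarith
    · have := (m _).1 g2
      nlinarith
  · right; right; left
    refine ⟨rfl, ?_, ?_⟩
    · have := mt (m _).2 g2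
      push Not at this
      nlinarith
    · have := (m _).1 g3
      nlinarith
  · right; right; right
    refine ⟨rfl, ?_, ?_⟩
    · have := mt (m _).2 g3
      push Not at this
      nlinarith
    · have := (m _).1 h1
      nlinarith

/-- The phase `y` is at the digit `d` of the block with phase `w`. -/
def Rep (l C : ℝ) (y : ℝ) (d : Dg) (w : ℝ) : Prop :=
  0 ≤ w ∧ w < 1 ∧ present (d, qz l C w) = true ∧ y = PP l C d (qz l C w) + l * w

theorem dgo0 {l C B y : ℝ} (_ : IsP l C B) (h2 : y < l) :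
    dgo l C B y = ((0, 0), 0) := by
  unfold dgo
  rw [if_pos h2]

theorem dgo1 {l C B y : ℝ} (h : IsP l C B) (h1 : l ≤ y) (h2 : y < 2 * l) :
    dgo l C B y = ((0, 1), l) := by
  obtain ⟨one, l1, l2, c1, c2, b1, b2, -, -⟩ := h
  unfold dgo
  rw [if_neg (by linarith), if_pos h2]

theorem dgo2 {l C B y : ℝ} (h : IsP l C B) (h1 : 2 * l ≤ y) (h2 : y < 3 * l) :
    dgo l C B y = ((1, 2), 2 * l) := by
  obtain ⟨one, l1, l2, c1, c2, b1, b2, -, -⟩ := h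
  unfold dgo
  rw [if_neg (by linarith), if_neg (by linarith), if_pos h2]

theorem dgo3 {l C B y : ℝ} (h : IsP l C B) (h1 : 3 * l ≤ y) (h2 : y < 4 * l - C) :
    dgo l C B y = ((1, 3), 3 * l) := by
  obtain ⟨one, l1, l2, c1, c2, b1, b2, -, -⟩ := h
  unfold dgo
  rw [if_neg (by linarith), if_neg (by linarith), if_neg (by linarith), if_pos h2]

theorem dgo4 {l C B y : ℝ} (h : IsP l C B) (h1 : 4 * l - C ≤ y) (h2 : y < 5 * l - C) :
    dgo l C B y = ((1, 0), 4 * l - C) := by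
  obtain ⟨one, l1, l2, c1, c2, b1, b2, -, -⟩ := h
  unfold dgo
  rw [if_neg (by linarith), if_neg (by linarith), if_neg (by linarith), if_neg (by linarith), if_pos h2]

theorem dgo5 {l C B y : ℝ} (h : IsP l C B) (h1 : 5 * l - C ≤ y) (h2 : y < 6 * l - C) :
    dgo l C B y = ((1, 1), 5 * l - C) := by
  obtain ⟨one, l1, l2, c1, c2, b1, b2, -, -⟩ := h
  unfold dgo
  rw [if_neg (by linarith), if_neg (by linarith), if_neg (by linarith), if_neg (by linarith), if_neg (by linarith), if_pos h2]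

theorem dgo6 {l C B y : ℝ} (h : IsP l C B) (h1 : 6 * l - C ≤ y) (h2 : y < 7 * l - C) :
    dgo l C B y = ((2, 2), 6 * l - C) := by
  obtain ⟨one, l1, l2, c1, c2, b1, b2, -, -⟩ := h
  unfold dgo
  rw [if_neg (by linarith), if_neg (by linarith), if_neg (by linarith), if_neg (by linarith), if_neg (by linarith), if_neg (by linarith), if_pos h2]

theorem dgo7 {l C B y : ℝ} (h : IsP l C B) (h1 : 7 * l - C ≤ y) (h2 : y < 8 * l - 2 * C - B) :
    dgo l C B y = ((2, 3), 7 * l - C) := by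
  obtain ⟨one, l1, l2, c1, c2, b1, b2, -, -⟩ := h
  unfold dgo
  rw [if_neg (by linarith), if_neg (by linarith), if_neg (by linarith), if_neg (by linarith), if_neg (by linarith), if_neg (by linarith), if_neg (by linarith), if_pos h2]

theorem dgo8 {l C B y : ℝ} (h : IsP l C B) (h1 : 8 * l - 2 * C - B ≤ y) (h2 : y < 8 * l - 2 * C) :
    dgo l C B y = ((2, 0), 7 * l - 2 * C) := by
  obtain ⟨one, l1, l2, c1, c2, b1, b2, -, -⟩ := h
  unfold dgo
  rw [if_neg (by linarith), if_neg (by linarith), if_neg (by linarith), if_neg (by linarith), if_neg (by linarith), if_neg (by linarith), if_neg (by linarith), if_neg (by linarith), if_pos h2]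

theorem dgo9 {l C B y : ℝ} (h : IsP l C B) (h1 : 8 * l - 2 * C ≤ y) (h2 : y < 9 * l - 2 * C - B) :
    dgo l C B y = ((2, 0), 8 * l - 2 * C) := by
  obtain ⟨one, l1, l2, c1, c2, b1, b2, -, -⟩ := h
  unfold dgo
  rw [if_neg (by linarith), if_neg (by linarith), if_neg (by linarith), if_neg (by linarith), if_neg (by linarith), if_neg (by linarith), if_neg (by linarith), if_neg (by linarith), if_neg (by linarith), if_pos h2]

theorem dgo10 {l C B y : ℝ} (h : IsP l C B) (h1 : 9 * l - 2 * C - B ≤ y) (h2 : y < 9 * l - 2 * C) :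
    dgo l C B y = ((2, 1), 8 * l - 2 * C) := by
  obtain ⟨one, l1, l2, c1, c2, b1, b2, -, -⟩ := h
  unfold dgo
  rw [if_neg (by linarith), if_neg (by linarith), if_neg (by linarith), if_neg (by linarith), if_neg (by linarith), if_neg (by linarith), if_neg (by linarith), if_neg (by linarith), if_neg (by linarith), if_neg (by linarith), if_pos h2]

theorem dgo11 {l C B y : ℝ} (h : IsP l C B) (h1 : 9 * l - 2 * C ≤ y) (h2 : y < 10 * l - 2 * C - B) :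
    dgo l C B y = ((2, 1), 9 * l - 2 * C) := by
  obtain ⟨one, l1, l2, c1, c2, b1, b2, -, -⟩ := h
  unfold dgo
  rw [if_neg (by linarith), if_neg (by linarith), if_neg (by linarith), if_neg (by linarith), if_neg (by linarith), if_neg (by linarith), if_neg (by linarith), if_neg (by linarith), if_neg (by linarith), if_neg (by linarith), if_neg (by linarith), if_pos h2]

theorem dgo12 {l C B y : ℝ} (h : IsP l C B) (h1 : 10 * l - 2 * C - B ≤ y) (h2 : y < 11 * l - 2 * C - B) :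
    dgo l C B y = ((0, 2), 10 * l - 2 * C - B) := by
  obtain ⟨one, l1, l2, c1, c2, b1, b2, -, -⟩ := h
  unfold dgo
  rw [if_neg (by linarith), if_neg (by linarith), if_neg (by linarith), if_neg (by linarith), if_neg (by linarith), if_neg (by linarith), if_neg (by linarith), if_neg (by linarith), if_neg (by linarith), if_neg (by linarith), if_neg (by linarith), if_neg (by linarith), if_pos h2]

theorem dgo13 {l C B y : ℝ} (h : IsP l C B) (h1 : 11 * l - 2 * C - B ≤ y) :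
    dgo l C B y = ((0, 3), 11 * l - 2 * C - B) := by
  obtain ⟨one, l1, l2, c1, c2, b1, b2, -, -⟩ := h
  unfold dgo
  rw [if_neg (by linarith), if_neg (by linarith), if_neg (by linarith), if_neg (by linarith), if_neg (by linarith), if_neg (by linarith), if_neg (by linarith), if_neg (by linarith), if_neg (by linarith), if_neg (by linarith), if_neg (by linarith), if_neg (by linarith), if_neg (by linarith)]


theorem qz0 {l C y : ℝ} (h2 : y < 1 - (5 * l - C)) : qz l C y = 0 := if_pos h2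

theorem qz1 {l C y : ℝ} (h1 : 1 - (5 * l - C) ≤ y) (h2 : y < 1 - (4 * l - C)) : qz l C y = 1 := by
  unfold qz
  rw [if_neg (not_lt.2 h1), if_pos h2]

theorem qz2 {l C y : ℝ} (hc : l < 4 * l - C ∧ 0 < l) (h1 : 1 - (4 * l - C) ≤ y) (h2 : y < 1 - l) :
    qz l C y = 2 := by
  unfold qz
  rw [if_neg (by linarith), if_neg (not_lt.2 h1), if_pos h2]

theorem qz3 {l C y : ℝ} (hc : l < 4 * l - C ∧ 0 < l) (h1 : 1 - l ≤ y) : qz l C y = 3 := by
  unfold qz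
  rw [if_neg (by linarith), if_neg (by linarith), if_neg (not_lt.2 h1)]

theorem PP00 (l C : ℝ) (p : Fin 4) : PP l C (0, 0) p = 0 := by
  simp [PP, px, py, gg]

theorem PP01 (l C : ℝ) (p : Fin 4) : PP l C (0, 1) p = l := by
  simp [PP, px, py, gg]

theorem PP12 (l C : ℝ) (p : Fin 4) : PP l C (1, 2) p = 2 * l := by
  simp [PP, px, py, gg]

theorem PP13 (l C : ℝ) (p : Fin 4) : PP l C (1, 3) p = 3 * l := by
  simp [PP, px, py, gg]

theorem PP10 (l C : ℝ) (p : Fin 4) : PP l C (1, 0) p = 4 * l - C := by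
  simp [PP, px, py, gg]

theorem PP11 (l C : ℝ) (p : Fin 4) : PP l C (1, 1) p = 5 * l - C := by
  simp only [PP, px, py, gg]
  norm_num
  try ring

theorem PP22 (l C : ℝ) (p : Fin 4) : PP l C (2, 2) p = 6 * l - C := by
  simp only [PP, px, py, gg]
  norm_num
  try ring

theorem PP23 (l C : ℝ) (p : Fin 4) : PP l C (2, 3) p = 7 * l - C := by
  simp only [PP, px, py, gg]
  norm_num
  try ring

theorem PP02 (l C : ℝ) (p : Fin 4) : PP l C (0, 2) p = 1 - 2 * l + C := by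
  simp only [PP, px, py, gg]
  norm_num
  try ring

theorem PP03 (l C : ℝ) (p : Fin 4) : PP l C (0, 3) p = 1 - l + C := by
  simp only [PP, px, py, gg]
  norm_num
  try ring

theorem PP20_0 (l C : ℝ) : PP l C (2, 0) 0 = 8 * l - 2 * C := by
  simp only [PP, px, py, gg, ca]
  norm_num
  try ring

theorem PP20_1 (l C : ℝ) : PP l C (2, 0) 1 = 8 * l - 2 * C := by
  simp only [PP, px, py, gg, ca]
  norm_num
  try ring

theorem PP20_2 (l C : ℝ) : PP l C (2, 0) 2 = 7 * l - 2 * C := by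
  simp only [PP, px, py, gg, ca]
  norm_num
  try ring

theorem PP20_3 (l C : ℝ) : PP l C (2, 0) 3 = 7 * l - 2 * C := by
  simp only [PP, px, py, gg, ca]
  norm_num
  try ring

theorem PP21_0 (l C : ℝ) : PP l C (2, 1) 0 = 9 * l - 2 * C := by
  simp only [PP, px, py, gg, ca]
  norm_num
  try ring

theorem PP21_1 (l C : ℝ) : PP l C (2, 1) 1 = 9 * l - 2 * C := by
  simp only [PP, px, py, gg, ca]
  norm_num
  try ring

theorem PP21_2 (l C : ℝ) : PP l C (2, 1) 2 = 8 * l - 2 * C := by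
  simp only [PP, px, py, gg, ca]
  norm_num
  try ring

theorem PP21_3 (l C : ℝ) : PP l C (2, 1) 3 = 8 * l - 2 * C := by
  simp only [PP, px, py, gg, ca]
  norm_num
  try ring

theorem ra00_0 {l C B u : ℝ} (h : IsP l C B) (u1 : 0 ≤ u) (u2 : u < l - B - C) :
    (0 ≤ PP l C (0, 0) 0 + u ∧ PP l C (0, 0) 0 + u < 1) ∧
    qz l C (PP l C (0, 0) 0 + u) = 0 ∧
    dgo l C B (PP l C (0, 0) 0 + u) = ((0, 0), PP l C (0, 0) 0) := by
  rw [PP00]
  have h' := h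
  obtain ⟨one, l1, l2, c1, c2, b1, b2, -, -⟩ := h'
  exact ⟨⟨by linarith, by linarith⟩, qz0 (by linarith), dgo0 h (by linarith)⟩

theorem ra00_1 {l C B u : ℝ} (h : IsP l C B) (u1 : l - B - C ≤ u) (u2 : u < l - B) :
    (0 ≤ PP l C (0, 0) 1 + u ∧ PP l C (0, 0) 1 + u < 1) ∧
    qz l C (PP l C (0, 0) 1 + u) = 0 ∧
    dgo l C B (PP l C (0, 0) 1 + u) = ((0, 0), PP l C (0, 0) 1) := by
  rw [PP00]
  have h' := h
  obtain ⟨one, l1, l2, c1, c2, b1, b2, -, -⟩ := h'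
  exact ⟨⟨by linarith, by linarith⟩, qz0 (by linarith), dgo0 h (by linarith)⟩

theorem ra00_2 {l C B u : ℝ} (h : IsP l C B) (u1 : l - B ≤ u) (u2 : u < l - C) :
    (0 ≤ PP l C (0, 0) 2 + u ∧ PP l C (0, 0) 2 + u < 1) ∧
    qz l C (PP l C (0, 0) 2 + u) = 0 ∧
    dgo l C B (PP l C (0, 0) 2 + u) = ((0, 0), PP l C (0, 0) 2) := by
  rw [PP00]
  have h' := h
  obtain ⟨one, l1, l2, c1, c2, b1, b2, -, -⟩ := h'
  exact ⟨⟨by linarith, by linarith⟩, qz0 (by linarith), dgo0 h (by linarith)⟩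

theorem ra00_3 {l C B u : ℝ} (h : IsP l C B) (u1 : l - C ≤ u) (u2 : u < l) :
    (0 ≤ PP l C (0, 0) 3 + u ∧ PP l C (0, 0) 3 + u < 1) ∧
    qz l C (PP l C (0, 0) 3 + u) = 0 ∧
    dgo l C B (PP l C (0, 0) 3 + u) = ((0, 0), PP l C (0, 0) 3) := by
  rw [PP00]
  have h' := h
  obtain ⟨one, l1, l2, c1, c2, b1, b2, -, -⟩ := h'
  exact ⟨⟨by linarith, by linarith⟩, qz0 (by linarith), dgo0 h (by linarith)⟩

theorem ra01_0 {l C B u : ℝ} (h : IsP l C B) (u1 : 0 ≤ u) (u2 : u < l - B - C) :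
    (0 ≤ PP l C (0, 1) 0 + u ∧ PP l C (0, 1) 0 + u < 1) ∧
    qz l C (PP l C (0, 1) 0 + u) = 0 ∧
    dgo l C B (PP l C (0, 1) 0 + u) = ((0, 1), PP l C (0, 1) 0) := by
  rw [PP01]
  have h' := h
  obtain ⟨one, l1, l2, c1, c2, b1, b2, -, -⟩ := h'
  exact ⟨⟨by linarith, by linarith⟩, qz0 (by linarith), dgo1 h (by linarith) (by linarith)⟩

theorem ra01_1 {l C B u : ℝ} (h : IsP l C B) (u1 : l - B - C ≤ u) (u2 : u < l - B) :
    (0 ≤ PP l C (0, 1) 1 + u ∧ PP l C (0, 1) 1 + u < 1) ∧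
    qz l C (PP l C (0, 1) 1 + u) = 0 ∧
    dgo l C B (PP l C (0, 1) 1 + u) = ((0, 1), PP l C (0, 1) 1) := by
  rw [PP01]
  have h' := h
  obtain ⟨one, l1, l2, c1, c2, b1, b2, -, -⟩ := h'
  exact ⟨⟨by linarith, by linarith⟩, qz0 (by linarith), dgo1 h (by linarith) (by linarith)⟩

theorem ra01_2 {l C B u : ℝ} (h : IsP l C B) (u1 : l - B ≤ u) (u2 : u < l - C) :
    (0 ≤ PP l C (0, 1) 2 + u ∧ PP l C (0, 1) 2 + u < 1) ∧
    qz l C (PP l C (0, 1) 2 + u) = 0 ∧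
    dgo l C B (PP l C (0, 1) 2 + u) = ((0, 1), PP l C (0, 1) 2) := by
  rw [PP01]
  have h' := h
  obtain ⟨one, l1, l2, c1, c2, b1, b2, -, -⟩ := h'
  exact ⟨⟨by linarith, by linarith⟩, qz0 (by linarith), dgo1 h (by linarith) (by linarith)⟩

theorem ra01_3 {l C B u : ℝ} (h : IsP l C B) (u1 : l - C ≤ u) (u2 : u < l) :
    (0 ≤ PP l C (0, 1) 3 + u ∧ PP l C (0, 1) 3 + u < 1) ∧
    qz l C (PP l C (0, 1) 3 + u) = 0 ∧
    dgo l C B (PP l C (0, 1) 3 + u) = ((0, 1), PP l C (0, 1) 3) := by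
  rw [PP01]
  have h' := h
  obtain ⟨one, l1, l2, c1, c2, b1, b2, -, -⟩ := h'
  exact ⟨⟨by linarith, by linarith⟩, qz0 (by linarith), dgo1 h (by linarith) (by linarith)⟩

theorem ra02_0 {l C B u : ℝ} (h : IsP l C B) (u1 : 0 ≤ u) (u2 : u < l - B - C) :
    (0 ≤ PP l C (0, 2) 0 + u ∧ PP l C (0, 2) 0 + u < 1) ∧
    qz l C (PP l C (0, 2) 0 + u) = 2 ∧
    dgo l C B (PP l C (0, 2) 0 + u) = ((0, 2), PP l C (0, 2) 0) := by
  rw [PP02]
  have h' := h
  obtain ⟨one, l1, l2, c1, c2, b1, b2, -, -⟩ := h'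
  exact ⟨⟨by linarith, by linarith⟩, qz2 ⟨by linarith, by linarith⟩ (by linarith) (by linarith), (dgo12 h (by linarith) (by linarith)).trans (by congr 1; linarith)⟩

theorem ra02_1 {l C B u : ℝ} (h : IsP l C B) (u1 : l - B - C ≤ u) (u2 : u < l - B) :
    (0 ≤ PP l C (0, 2) 1 + u ∧ PP l C (0, 2) 1 + u < 1) ∧
    qz l C (PP l C (0, 2) 1 + u) = 2 ∧
    dgo l C B (PP l C (0, 2) 1 + u) = ((0, 2), PP l C (0, 2) 1) := by
  rw [PP02]
  have h' := h
  obtain ⟨one, l1, l2, c1, c2, b1, b2, -, -⟩ := h'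
  exact ⟨⟨by linarith, by linarith⟩, qz2 ⟨by linarith, by linarith⟩ (by linarith) (by linarith), (dgo12 h (by linarith) (by linarith)).trans (by congr 1; linarith)⟩

theorem ra02_2 {l C B u : ℝ} (h : IsP l C B) (u1 : l - B ≤ u) (u2 : u < l - C) :
    (0 ≤ PP l C (0, 2) 2 + u ∧ PP l C (0, 2) 2 + u < 1) ∧
    qz l C (PP l C (0, 2) 2 + u) = 2 ∧
    dgo l C B (PP l C (0, 2) 2 + u) = ((0, 2), PP l C (0, 2) 2) := by
  rw [PP02]
  have h' := h
  obtain ⟨one, l1, l2, c1, c2, b1, b2, -, -⟩ := h'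
  exact ⟨⟨by linarith, by linarith⟩, qz2 ⟨by linarith, by linarith⟩ (by linarith) (by linarith), (dgo12 h (by linarith) (by linarith)).trans (by congr 1; linarith)⟩

theorem ra02_3 {l C B u : ℝ} (h : IsP l C B) (u1 : l - C ≤ u) (u2 : u < l) :
    (0 ≤ PP l C (0, 2) 3 + u ∧ PP l C (0, 2) 3 + u < 1) ∧
    qz l C (PP l C (0, 2) 3 + u) = 3 ∧
    dgo l C B (PP l C (0, 2) 3 + u) = ((0, 2), PP l C (0, 2) 3) := by
  rw [PP02]
  have h' := h
  obtain ⟨one, l1, l2, c1, c2, b1, b2, -, -⟩ := h'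
  exact ⟨⟨by linarith, by linarith⟩, qz3 ⟨by linarith, by linarith⟩ (by linarith), (dgo12 h (by linarith) (by linarith)).trans (by congr 1; linarith)⟩

theorem ra03_0 {l C B u : ℝ} (h : IsP l C B) (u1 : 0 ≤ u) (u2 : u < l - B - C) :
    (0 ≤ PP l C (0, 3) 0 + u ∧ PP l C (0, 3) 0 + u < 1) ∧
    qz l C (PP l C (0, 3) 0 + u) = 3 ∧
    dgo l C B (PP l C (0, 3) 0 + u) = ((0, 3), PP l C (0, 3) 0) := by
  rw [PP03]
  have h' := h
  obtain ⟨one, l1, l2, c1, c2, b1, b2, -, -⟩ := h'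
  exact ⟨⟨by linarith, by linarith⟩, qz3 ⟨by linarith, by linarith⟩ (by linarith), (dgo13 h (by linarith)).trans (by congr 1; linarith)⟩

theorem ra03_1 {l C B u : ℝ} (h : IsP l C B) (u1 : l - B - C ≤ u) (u2 : u < l - B) :
    (0 ≤ PP l C (0, 3) 1 + u ∧ PP l C (0, 3) 1 + u < 1) ∧
    qz l C (PP l C (0, 3) 1 + u) = 3 ∧
    dgo l C B (PP l C (0, 3) 1 + u) = ((0, 3), PP l C (0, 3) 1) := by
  rw [PP03]
  have h' := h
  obtain ⟨one, l1, l2, c1, c2, b1, b2, -, -⟩ := h'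
  exact ⟨⟨by linarith, by linarith⟩, qz3 ⟨by linarith, by linarith⟩ (by linarith), (dgo13 h (by linarith)).trans (by congr 1; linarith)⟩

theorem ra03_2 {l C B u : ℝ} (h : IsP l C B) (u1 : l - B ≤ u) (u2 : u < l - C) :
    (0 ≤ PP l C (0, 3) 2 + u ∧ PP l C (0, 3) 2 + u < 1) ∧
    qz l C (PP l C (0, 3) 2 + u) = 3 ∧
    dgo l C B (PP l C (0, 3) 2 + u) = ((0, 3), PP l C (0, 3) 2) := by
  rw [PP03]
  have h' := h
  obtain ⟨one, l1, l2, c1, c2, b1, b2, -, -⟩ := h'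
  exact ⟨⟨by linarith, by linarith⟩, qz3 ⟨by linarith, by linarith⟩ (by linarith), (dgo13 h (by linarith)).trans (by congr 1; linarith)⟩

theorem ra10_0 {l C B u : ℝ} (h : IsP l C B) (u1 : 0 ≤ u) (u2 : u < l - B - C) :
    (0 ≤ PP l C (1, 0) 0 + u ∧ PP l C (1, 0) 0 + u < 1) ∧
    qz l C (PP l C (1, 0) 0 + u) = 0 ∧
    dgo l C B (PP l C (1, 0) 0 + u) = ((1, 0), PP l C (1, 0) 0) := by
  rw [PP10]
  have h' := h
  obtain ⟨one, l1, l2, c1, c2, b1, b2, -, -⟩ := h'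
  exact ⟨⟨by linarith, by linarith⟩, qz0 (by linarith), dgo4 h (by linarith) (by linarith)⟩

theorem ra10_1 {l C B u : ℝ} (h : IsP l C B) (u1 : l - B - C ≤ u) (u2 : u < l - B) :
    (0 ≤ PP l C (1, 0) 1 + u ∧ PP l C (1, 0) 1 + u < 1) ∧
    qz l C (PP l C (1, 0) 1 + u) = 0 ∧
    dgo l C B (PP l C (1, 0) 1 + u) = ((1, 0), PP l C (1, 0) 1) := by
  rw [PP10]
  have h' := h
  obtain ⟨one, l1, l2, c1, c2, b1, b2, -, -⟩ := h'
  exact ⟨⟨by linarith, by linarith⟩, qz0 (by linarith), dgo4 h (by linarith) (by linarith)⟩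

theorem ra10_2 {l C B u : ℝ} (h : IsP l C B) (u1 : l - B ≤ u) (u2 : u < l - C) :
    (0 ≤ PP l C (1, 0) 2 + u ∧ PP l C (1, 0) 2 + u < 1) ∧
    qz l C (PP l C (1, 0) 2 + u) = 0 ∧
    dgo l C B (PP l C (1, 0) 2 + u) = ((1, 0), PP l C (1, 0) 2) := by
  rw [PP10]
  have h' := h
  obtain ⟨one, l1, l2, c1, c2, b1, b2, -, -⟩ := h'
  exact ⟨⟨by linarith, by linarith⟩, qz0 (by linarith), dgo4 h (by linarith) (by linarith)⟩

theorem ra10_3 {l C B u : ℝ} (h : IsP l C B) (u1 : l - C ≤ u) (u2 : u < l) :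
    (0 ≤ PP l C (1, 0) 3 + u ∧ PP l C (1, 0) 3 + u < 1) ∧
    qz l C (PP l C (1, 0) 3 + u) = 0 ∧
    dgo l C B (PP l C (1, 0) 3 + u) = ((1, 0), PP l C (1, 0) 3) := by
  rw [PP10]
  have h' := h
  obtain ⟨one, l1, l2, c1, c2, b1, b2, -, -⟩ := h'
  exact ⟨⟨by linarith, by linarith⟩, qz0 (by linarith), dgo4 h (by linarith) (by linarith)⟩

theorem ra11_0 {l C B u : ℝ} (h : IsP l C B) (u1 : 0 ≤ u) (u2 : u < l - B - C) :
    (0 ≤ PP l C (1, 1) 0 + u ∧ PP l C (1, 1) 0 + u < 1) ∧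
    qz l C (PP l C (1, 1) 0 + u) = 0 ∧
    dgo l C B (PP l C (1, 1) 0 + u) = ((1, 1), PP l C (1, 1) 0) := by
  rw [PP11]
  have h' := h
  obtain ⟨one, l1, l2, c1, c2, b1, b2, -, -⟩ := h'
  exact ⟨⟨by linarith, by linarith⟩, qz0 (by linarith), dgo5 h (by linarith) (by linarith)⟩

theorem ra11_1 {l C B u : ℝ} (h : IsP l C B) (u1 : l - B - C ≤ u) (u2 : u < l - B) :
    (0 ≤ PP l C (1, 1) 1 + u ∧ PP l C (1, 1) 1 + u < 1) ∧
    qz l C (PP l C (1, 1) 1 + u) = 0 ∧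
    dgo l C B (PP l C (1, 1) 1 + u) = ((1, 1), PP l C (1, 1) 1) := by
  rw [PP11]
  have h' := h
  obtain ⟨one, l1, l2, c1, c2, b1, b2, -, -⟩ := h'
  exact ⟨⟨by linarith, by linarith⟩, qz0 (by linarith), dgo5 h (by linarith) (by linarith)⟩

theorem ra11_2 {l C B u : ℝ} (h : IsP l C B) (u1 : l - B ≤ u) (u2 : u < l - C) :
    (0 ≤ PP l C (1, 1) 2 + u ∧ PP l C (1, 1) 2 + u < 1) ∧
    qz l C (PP l C (1, 1) 2 + u) = 0 ∧
    dgo l C B (PP l C (1, 1) 2 + u) = ((1, 1), PP l C (1, 1) 2) := by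
  rw [PP11]
  have h' := h
  obtain ⟨one, l1, l2, c1, c2, b1, b2, -, -⟩ := h'
  exact ⟨⟨by linarith, by linarith⟩, qz0 (by linarith), dgo5 h (by linarith) (by linarith)⟩

theorem ra11_3 {l C B u : ℝ} (h : IsP l C B) (u1 : l - C ≤ u) (u2 : u < l) :
    (0 ≤ PP l C (1, 1) 3 + u ∧ PP l C (1, 1) 3 + u < 1) ∧
    qz l C (PP l C (1, 1) 3 + u) = 0 ∧
    dgo l C B (PP l C (1, 1) 3 + u) = ((1, 1), PP l C (1, 1) 3) := by
  rw [PP11]
  have h' := h
  obtain ⟨one, l1, l2, c1, c2, b1, b2, -, -⟩ := h'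
  exact ⟨⟨by linarith, by linarith⟩, qz0 (by linarith), dgo5 h (by linarith) (by linarith)⟩

theorem ra12_0 {l C B u : ℝ} (h : IsP l C B) (u1 : 0 ≤ u) (u2 : u < l - B - C) :
    (0 ≤ PP l C (1, 2) 0 + u ∧ PP l C (1, 2) 0 + u < 1) ∧
    qz l C (PP l C (1, 2) 0 + u) = 0 ∧
    dgo l C B (PP l C (1, 2) 0 + u) = ((1, 2), PP l C (1, 2) 0) := by
  rw [PP12]
  have h' := h
  obtain ⟨one, l1, l2, c1, c2, b1, b2, -, -⟩ := h'
  exact ⟨⟨by linarith, by linarith⟩, qz0 (by linarith), dgo2 h (by linarith) (by linarith)⟩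

theorem ra12_1 {l C B u : ℝ} (h : IsP l C B) (u1 : l - B - C ≤ u) (u2 : u < l - B) :
    (0 ≤ PP l C (1, 2) 1 + u ∧ PP l C (1, 2) 1 + u < 1) ∧
    qz l C (PP l C (1, 2) 1 + u) = 0 ∧
    dgo l C B (PP l C (1, 2) 1 + u) = ((1, 2), PP l C (1, 2) 1) := by
  rw [PP12]
  have h' := h
  obtain ⟨one, l1, l2, c1, c2, b1, b2, -, -⟩ := h'
  exact ⟨⟨by linarith, by linarith⟩, qz0 (by linarith), dgo2 h (by linarith) (by linarith)⟩

theorem ra12_2 {l C B u : ℝ} (h : IsP l C B) (u1 : l - B ≤ u) (u2 : u < l - C) :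
    (0 ≤ PP l C (1, 2) 2 + u ∧ PP l C (1, 2) 2 + u < 1) ∧
    qz l C (PP l C (1, 2) 2 + u) = 0 ∧
    dgo l C B (PP l C (1, 2) 2 + u) = ((1, 2), PP l C (1, 2) 2) := by
  rw [PP12]
  have h' := h
  obtain ⟨one, l1, l2, c1, c2, b1, b2, -, -⟩ := h'
  exact ⟨⟨by linarith, by linarith⟩, qz0 (by linarith), dgo2 h (by linarith) (by linarith)⟩

theorem ra12_3 {l C B u : ℝ} (h : IsP l C B) (u1 : l - C ≤ u) (u2 : u < l) :
    (0 ≤ PP l C (1, 2) 3 + u ∧ PP l C (1, 2) 3 + u < 1) ∧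
    qz l C (PP l C (1, 2) 3 + u) = 0 ∧
    dgo l C B (PP l C (1, 2) 3 + u) = ((1, 2), PP l C (1, 2) 3) := by
  rw [PP12]
  have h' := h
  obtain ⟨one, l1, l2, c1, c2, b1, b2, -, -⟩ := h'
  exact ⟨⟨by linarith, by linarith⟩, qz0 (by linarith), dgo2 h (by linarith) (by linarith)⟩

theorem ra13_0 {l C B u : ℝ} (h : IsP l C B) (u1 : 0 ≤ u) (u2 : u < l - B - C) :
    (0 ≤ PP l C (1, 3) 0 + u ∧ PP l C (1, 3) 0 + u < 1) ∧
    qz l C (PP l C (1, 3) 0 + u) = 0 ∧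
    dgo l C B (PP l C (1, 3) 0 + u) = ((1, 3), PP l C (1, 3) 0) := by
  rw [PP13]
  have h' := h
  obtain ⟨one, l1, l2, c1, c2, b1, b2, -, -⟩ := h'
  exact ⟨⟨by linarith, by linarith⟩, qz0 (by linarith), dgo3 h (by linarith) (by linarith)⟩

theorem ra13_1 {l C B u : ℝ} (h : IsP l C B) (u1 : l - B - C ≤ u) (u2 : u < l - B) :
    (0 ≤ PP l C (1, 3) 1 + u ∧ PP l C (1, 3) 1 + u < 1) ∧
    qz l C (PP l C (1, 3) 1 + u) = 0 ∧
    dgo l C B (PP l C (1, 3) 1 + u) = ((1, 3), PP l C (1, 3) 1) := by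
  rw [PP13]
  have h' := h
  obtain ⟨one, l1, l2, c1, c2, b1, b2, -, -⟩ := h'
  exact ⟨⟨by linarith, by linarith⟩, qz0 (by linarith), dgo3 h (by linarith) (by linarith)⟩

theorem ra13_2 {l C B u : ℝ} (h : IsP l C B) (u1 : l - B ≤ u) (u2 : u < l - C) :
    (0 ≤ PP l C (1, 3) 2 + u ∧ PP l C (1, 3) 2 + u < 1) ∧
    qz l C (PP l C (1, 3) 2 + u) = 0 ∧
    dgo l C B (PP l C (1, 3) 2 + u) = ((1, 3), PP l C (1, 3) 2) := by
  rw [PP13]
  have h' := h
  obtain ⟨one, l1, l2, c1, c2, b1, b2, -, -⟩ := h'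
  exact ⟨⟨by linarith, by linarith⟩, qz0 (by linarith), dgo3 h (by linarith) (by linarith)⟩

theorem ra20_0 {l C B u : ℝ} (h : IsP l C B) (u1 : 0 ≤ u) (u2 : u < l - B - C) :
    (0 ≤ PP l C (2, 0) 0 + u ∧ PP l C (2, 0) 0 + u < 1) ∧
    qz l C (PP l C (2, 0) 0 + u) = 2 ∧
    dgo l C B (PP l C (2, 0) 0 + u) = ((2, 0), PP l C (2, 0) 0) := by
  rw [PP20_0]
  have h' := h
  obtain ⟨one, l1, l2, c1, c2, b1, b2, -, -⟩ := h'
  exact ⟨⟨by linarith, by linarith⟩, qz2 ⟨by linarith, by linarith⟩ (by linarith) (by linarith), dgo9 h (by linarith) (by linarith)⟩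

theorem ra20_1 {l C B u : ℝ} (h : IsP l C B) (u1 : l - B - C ≤ u) (u2 : u < l - B) :
    (0 ≤ PP l C (2, 0) 1 + u ∧ PP l C (2, 0) 1 + u < 1) ∧
    qz l C (PP l C (2, 0) 1 + u) = 2 ∧
    dgo l C B (PP l C (2, 0) 1 + u) = ((2, 0), PP l C (2, 0) 1) := by
  rw [PP20_1]
  have h' := h
  obtain ⟨one, l1, l2, c1, c2, b1, b2, -, -⟩ := h'
  exact ⟨⟨by linarith, by linarith⟩, qz2 ⟨by linarith, by linarith⟩ (by linarith) (by linarith), dgo9 h (by linarith) (by linarith)⟩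

theorem ra20_2 {l C B u : ℝ} (h : IsP l C B) (u1 : l - B ≤ u) (u2 : u < l - C) :
    (0 ≤ PP l C (2, 0) 2 + u ∧ PP l C (2, 0) 2 + u < 1) ∧
    qz l C (PP l C (2, 0) 2 + u) = 2 ∧
    dgo l C B (PP l C (2, 0) 2 + u) = ((2, 0), PP l C (2, 0) 2) := by
  rw [PP20_2]
  have h' := h
  obtain ⟨one, l1, l2, c1, c2, b1, b2, -, -⟩ := h'
  exact ⟨⟨by linarith, by linarith⟩, qz2 ⟨by linarith, by linarith⟩ (by linarith) (by linarith), dgo8 h (by linarith) (by linarith)⟩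

theorem ra20_3 {l C B u : ℝ} (h : IsP l C B) (u1 : l - C ≤ u) (u2 : u < l) :
    (0 ≤ PP l C (2, 0) 3 + u ∧ PP l C (2, 0) 3 + u < 1) ∧
    qz l C (PP l C (2, 0) 3 + u) = 2 ∧
    dgo l C B (PP l C (2, 0) 3 + u) = ((2, 0), PP l C (2, 0) 3) := by
  rw [PP20_3]
  have h' := h
  obtain ⟨one, l1, l2, c1, c2, b1, b2, -, -⟩ := h'
  exact ⟨⟨by linarith, by linarith⟩, qz2 ⟨by linarith, by linarith⟩ (by linarith) (by linarith), dgo8 h (by linarith) (by linarith)⟩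

theorem ra21_0 {l C B u : ℝ} (h : IsP l C B) (u1 : 0 ≤ u) (u2 : u < l - B - C) :
    (0 ≤ PP l C (2, 1) 0 + u ∧ PP l C (2, 1) 0 + u < 1) ∧
    qz l C (PP l C (2, 1) 0 + u) = 2 ∧
    dgo l C B (PP l C (2, 1) 0 + u) = ((2, 1), PP l C (2, 1) 0) := by
  rw [PP21_0]
  have h' := h
  obtain ⟨one, l1, l2, c1, c2, b1, b2, -, -⟩ := h'
  exact ⟨⟨by linarith, by linarith⟩, qz2 ⟨by linarith, by linarith⟩ (by linarith) (by linarith), dgo11 h (by linarith) (by linarith)⟩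

theorem ra21_1 {l C B u : ℝ} (h : IsP l C B) (u1 : l - B - C ≤ u) (u2 : u < l - B) :
    (0 ≤ PP l C (2, 1) 1 + u ∧ PP l C (2, 1) 1 + u < 1) ∧
    qz l C (PP l C (2, 1) 1 + u) = 2 ∧
    dgo l C B (PP l C (2, 1) 1 + u) = ((2, 1), PP l C (2, 1) 1) := by
  rw [PP21_1]
  have h' := h
  obtain ⟨one, l1, l2, c1, c2, b1, b2, -, -⟩ := h'
  exact ⟨⟨by linarith, by linarith⟩, qz2 ⟨by linarith, by linarith⟩ (by linarith) (by linarith), dgo11 h (by linarith) (by linarith)⟩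

theorem ra21_2 {l C B u : ℝ} (h : IsP l C B) (u1 : l - B ≤ u) (u2 : u < l - C) :
    (0 ≤ PP l C (2, 1) 2 + u ∧ PP l C (2, 1) 2 + u < 1) ∧
    qz l C (PP l C (2, 1) 2 + u) = 2 ∧
    dgo l C B (PP l C (2, 1) 2 + u) = ((2, 1), PP l C (2, 1) 2) := by
  rw [PP21_2]
  have h' := h
  obtain ⟨one, l1, l2, c1, c2, b1, b2, -, -⟩ := h'
  exact ⟨⟨by linarith, by linarith⟩, qz2 ⟨by linarith, by linarith⟩ (by linarith) (by linarith), dgo10 h (by linarith) (by linarith)⟩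

theorem ra21_3 {l C B u : ℝ} (h : IsP l C B) (u1 : l - C ≤ u) (u2 : u < l) :
    (0 ≤ PP l C (2, 1) 3 + u ∧ PP l C (2, 1) 3 + u < 1) ∧
    qz l C (PP l C (2, 1) 3 + u) = 2 ∧
    dgo l C B (PP l C (2, 1) 3 + u) = ((2, 1), PP l C (2, 1) 3) := by
  rw [PP21_3]
  have h' := h
  obtain ⟨one, l1, l2, c1, c2, b1, b2, -, -⟩ := h'
  exact ⟨⟨by linarith, by linarith⟩, qz2 ⟨by linarith, by linarith⟩ (by linarith) (by linarith), dgo10 h (by linarith) (by linarith)⟩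

theorem ra22_0 {l C B u : ℝ} (h : IsP l C B) (u1 : 0 ≤ u) (u2 : u < l - B - C) :
    (0 ≤ PP l C (2, 2) 0 + u ∧ PP l C (2, 2) 0 + u < 1) ∧
    qz l C (PP l C (2, 2) 0 + u) = 0 ∧
    dgo l C B (PP l C (2, 2) 0 + u) = ((2, 2), PP l C (2, 2) 0) := by
  rw [PP22]
  have h' := h
  obtain ⟨one, l1, l2, c1, c2, b1, b2, -, -⟩ := h'
  exact ⟨⟨by linarith, by linarith⟩, qz0 (by linarith), dgo6 h (by linarith) (by linarith)⟩

theorem ra22_1 {l C B u : ℝ} (h : IsP l C B) (u1 : l - B - C ≤ u) (u2 : u < l - B) :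
    (0 ≤ PP l C (2, 2) 1 + u ∧ PP l C (2, 2) 1 + u < 1) ∧
    qz l C (PP l C (2, 2) 1 + u) = 1 ∧
    dgo l C B (PP l C (2, 2) 1 + u) = ((2, 2), PP l C (2, 2) 1) := by
  rw [PP22]
  have h' := h
  obtain ⟨one, l1, l2, c1, c2, b1, b2, -, -⟩ := h'
  exact ⟨⟨by linarith, by linarith⟩, qz1 (by linarith) (by linarith), dgo6 h (by linarith) (by linarith)⟩

theorem ra22_2 {l C B u : ℝ} (h : IsP l C B) (u1 : l - B ≤ u) (u2 : u < l - C) :
    (0 ≤ PP l C (2, 2) 2 + u ∧ PP l C (2, 2) 2 + u < 1) ∧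
    qz l C (PP l C (2, 2) 2 + u) = 1 ∧
    dgo l C B (PP l C (2, 2) 2 + u) = ((2, 2), PP l C (2, 2) 2) := by
  rw [PP22]
  have h' := h
  obtain ⟨one, l1, l2, c1, c2, b1, b2, -, -⟩ := h'
  exact ⟨⟨by linarith, by linarith⟩, qz1 (by linarith) (by linarith), dgo6 h (by linarith) (by linarith)⟩

theorem ra22_3 {l C B u : ℝ} (h : IsP l C B) (u1 : l - C ≤ u) (u2 : u < l) :
    (0 ≤ PP l C (2, 2) 3 + u ∧ PP l C (2, 2) 3 + u < 1) ∧
    qz l C (PP l C (2, 2) 3 + u) = 1 ∧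
    dgo l C B (PP l C (2, 2) 3 + u) = ((2, 2), PP l C (2, 2) 3) := by
  rw [PP22]
  have h' := h
  obtain ⟨one, l1, l2, c1, c2, b1, b2, -, -⟩ := h'
  exact ⟨⟨by linarith, by linarith⟩, qz1 (by linarith) (by linarith), dgo6 h (by linarith) (by linarith)⟩

theorem ra23_0 {l C B u : ℝ} (h : IsP l C B) (u1 : 0 ≤ u) (u2 : u < l - B - C) :
    (0 ≤ PP l C (2, 3) 0 + u ∧ PP l C (2, 3) 0 + u < 1) ∧
    qz l C (PP l C (2, 3) 0 + u) = 1 ∧
    dgo l C B (PP l C (2, 3) 0 + u) = ((2, 3), PP l C (2, 3) 0) := by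
  rw [PP23]
  have h' := h
  obtain ⟨one, l1, l2, c1, c2, b1, b2, -, -⟩ := h'
  exact ⟨⟨by linarith, by linarith⟩, qz1 (by linarith) (by linarith), dgo7 h (by linarith) (by linarith)⟩

theorem rep_all {l C B : ℝ} (h : IsP l C B) {y w : ℝ} {d : Dg} (hr : Rep l C y d w) :
    (0 ≤ y ∧ y < 1) ∧ qz l C y = qt (d, qz l C w) ∧ dg l C B y = d ∧ nx l C B y = w := by
  obtain ⟨h0, h1, hp, hy⟩ := hr
  have hl : l ≠ 0 := by have := h.l1; intro h; rw [h] at this; norm_num at this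
  suffices (0 ≤ y ∧ y < 1) ∧ qz l C y = qt (d, qz l C w) ∧
      dgo l C B y = (d, PP l C d (qz l C w)) by
    refine ⟨this.1, this.2.1, ?_, ?_⟩
    · unfold dg
      rw [this.2.2]
    · unfold nx
      rw [this.2.2, hy]
      field_simp
      ring
  have hq := qz_cases h h0 h1
  clear h0 h1
  generalize qz l C w = p at *
  generalize l * w = u at *
  subst hy
  obtain ⟨i, j⟩ := d
  rcases hq with ⟨rfl, u1, u2⟩ | ⟨rfl, u1, u2⟩ | ⟨rfl, u1, u2⟩ | ⟨rfl, u1, u2⟩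
  · fin_cases i <;> fin_cases j
    · exact ra00_0 h u1 u2
    · exact ra01_0 h u1 u2
    · exact ra02_0 h u1 u2
    · exact ra03_0 h u1 u2
    · exact ra10_0 h u1 u2
    · exact ra11_0 h u1 u2
    · exact ra12_0 h u1 u2
    · exact ra13_0 h u1 u2
    · exact ra20_0 h u1 u2
    · exact ra21_0 h u1 u2
    · exact ra22_0 h u1 u2
    · exact ra23_0 h u1 u2
  · fin_cases i <;> fin_cases j
    · exact ra00_1 h u1 u2
    · exact ra01_1 h u1 u2
    · exact ra02_1 h u1 u2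
    · exact ra03_1 h u1 u2
    · exact ra10_1 h u1 u2
    · exact ra11_1 h u1 u2
    · exact ra12_1 h u1 u2
    · exact ra13_1 h u1 u2
    · exact ra20_1 h u1 u2
    · exact ra21_1 h u1 u2
    · exact ra22_1 h u1 u2
    · exact absurd hp (by decide)
  · fin_cases i <;> fin_cases j
    · exact ra00_2 h u1 u2
    · exact ra01_2 h u1 u2
    · exact ra02_2 h u1 u2
    · exact ra03_2 h u1 u2
    · exact ra10_2 h u1 u2
    · exact ra11_2 h u1 u2
    · exact ra12_2 h u1 u2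
    · exact ra13_2 h u1 u2
    · exact ra20_2 h u1 u2
    · exact ra21_2 h u1 u2
    · exact ra22_2 h u1 u2
    · exact absurd hp (by decide)
  · fin_cases i <;> fin_cases j
    · exact ra00_3 h u1 u2
    · exact ra01_3 h u1 u2
    · exact ra02_3 h u1 u2
    · exact absurd hp (by decide)
    · exact ra10_3 h u1 u2
    · exact ra11_3 h u1 u2
    · exact ra12_3 h u1 u2
    · exact absurd hp (by decide)
    · exact ra20_3 h u1 u2
    · exact ra21_3 h u1 u2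
    · exact ra22_3 h u1 u2
    · exact absurd hp (by decide)

theorem mkRep {l C B : ℝ} (h : IsP l C B) {y o : ℝ} {d : Dg} (h0 : 0 ≤ y - o) (h1 : y - o < l)
    (hP : ∀ p : Fin 4, ((p = 0 ∧ 0 ≤ y - o ∧ y - o < l - B - C) ∨
      (p = 1 ∧ l - B - C ≤ y - o ∧ y - o < l - B) ∨ (p = 2 ∧ l - B ≤ y - o ∧ y - o < l - C) ∨
      (p = 3 ∧ l - C ≤ y - o ∧ y - o < l)) → present (d, p) = true ∧ PP l C d p = o) :
    Rep l C y d ((y - o) / l) := by
  have hl : 0 < l := by have := h.l1; linarith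
  have e : l * ((y - o) / l) = y - o := by field_simp
  have w0 : 0 ≤ (y - o) / l := div_nonneg h0 hl.le
  have w1 : (y - o) / l < 1 := (div_lt_one hl).2 h1
  have hq := qz_cases h w0 w1
  rw [e] at hq
  obtain ⟨hp, hv⟩ := hP _ hq
  exact ⟨w0, w1, hp, by rw [hv, e]; ring⟩

theorem rep_ex {l C B : ℝ} (h : IsP l C B) {y : ℝ} (y0 : 0 ≤ y) (y1 : y < 1) :
    ∃ d w, Rep l C y d w := by
  have h' := h
  obtain ⟨one, l1, l2, c1, c2, b1, b2, -, -⟩ := h'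
  rcases lt_or_ge y (l) with g0 | g0
  · refine ⟨(0, 0), _, mkRep h (o := 0) (by linarith) (by linarith) (fun p hp => ?_)⟩
    rcases hp with ⟨rfl, u1, u2⟩ | ⟨rfl, u1, u2⟩ | ⟨rfl, u1, u2⟩ | ⟨rfl, u1, u2⟩
    · exact ⟨by decide, PP00 l C _⟩
    · exact ⟨by decide, PP00 l C _⟩
    · exact ⟨by decide, PP00 l C _⟩
    · exact ⟨by decide, PP00 l C _⟩
  rcases lt_or_ge y (2 * l) with g1 | g1
  · refine ⟨(0, 1), _, mkRep h (o := l) (by linarith) (by linarith) (fun p hp => ?_)⟩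
    rcases hp with ⟨rfl, u1, u2⟩ | ⟨rfl, u1, u2⟩ | ⟨rfl, u1, u2⟩ | ⟨rfl, u1, u2⟩
    · exact ⟨by decide, PP01 l C _⟩
    · exact ⟨by decide, PP01 l C _⟩
    · exact ⟨by decide, PP01 l C _⟩
    · exact ⟨by decide, PP01 l C _⟩
  rcases lt_or_ge y (3 * l) with g2 | g2
  · refine ⟨(1, 2), _, mkRep h (o := 2 * l) (by linarith) (by linarith) (fun p hp => ?_)⟩
    rcases hp with ⟨rfl, u1, u2⟩ | ⟨rfl, u1, u2⟩ | ⟨rfl, u1, u2⟩ | ⟨rfl, u1, u2⟩
    · exact ⟨by decide, PP12 l C _⟩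
    · exact ⟨by decide, PP12 l C _⟩
    · exact ⟨by decide, PP12 l C _⟩
    · exact ⟨by decide, PP12 l C _⟩
  rcases lt_or_ge y (4 * l - C) with g3 | g3
  · refine ⟨(1, 3), _, mkRep h (o := 3 * l) (by linarith) (by linarith) (fun p hp => ?_)⟩
    rcases hp with ⟨rfl, u1, u2⟩ | ⟨rfl, u1, u2⟩ | ⟨rfl, u1, u2⟩ | ⟨rfl, u1, u2⟩
    · exact ⟨by decide, PP13 l C _⟩
    · exact ⟨by decide, PP13 l C _⟩
    · exact ⟨by decide, PP13 l C _⟩
    · exfalso; linarith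
  rcases lt_or_ge y (5 * l - C) with g4 | g4
  · refine ⟨(1, 0), _, mkRep h (o := 4 * l - C) (by linarith) (by linarith) (fun p hp => ?_)⟩
    rcases hp with ⟨rfl, u1, u2⟩ | ⟨rfl, u1, u2⟩ | ⟨rfl, u1, u2⟩ | ⟨rfl, u1, u2⟩
    · exact ⟨by decide, PP10 l C _⟩
    · exact ⟨by decide, PP10 l C _⟩
    · exact ⟨by decide, PP10 l C _⟩
    · exact ⟨by decide, PP10 l C _⟩
  rcases lt_or_ge y (6 * l - C) with g5 | g5
  · refine ⟨(1, 1), _, mkRep h (o := 5 * l - C) (by linarith) (by linarith) (fun p hp => ?_)⟩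
    rcases hp with ⟨rfl, u1, u2⟩ | ⟨rfl, u1, u2⟩ | ⟨rfl, u1, u2⟩ | ⟨rfl, u1, u2⟩
    · exact ⟨by decide, PP11 l C _⟩
    · exact ⟨by decide, PP11 l C _⟩
    · exact ⟨by decide, PP11 l C _⟩
    · exact ⟨by decide, PP11 l C _⟩
  rcases lt_or_ge y (7 * l - C) with g6 | g6
  · refine ⟨(2, 2), _, mkRep h (o := 6 * l - C) (by linarith) (by linarith) (fun p hp => ?_)⟩
    rcases hp with ⟨rfl, u1, u2⟩ | ⟨rfl, u1, u2⟩ | ⟨rfl, u1, u2⟩ | ⟨rfl, u1, u2⟩
    · exact ⟨by decide, PP22 l C _⟩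
    · exact ⟨by decide, PP22 l C _⟩
    · exact ⟨by decide, PP22 l C _⟩
    · exact ⟨by decide, PP22 l C _⟩
  rcases lt_or_ge y (8 * l - 2 * C - B) with g7 | g7
  · refine ⟨(2, 3), _, mkRep h (o := 7 * l - C) (by linarith) (by linarith) (fun p hp => ?_)⟩
    rcases hp with ⟨rfl, u1, u2⟩ | ⟨rfl, u1, u2⟩ | ⟨rfl, u1, u2⟩ | ⟨rfl, u1, u2⟩
    · exact ⟨by decide, PP23 l C _⟩
    · exfalso; linarith
    · exfalso; linarith
    · exfalso; linarith
  rcases lt_or_ge y (8 * l - 2 * C) with g8 | g8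
  · refine ⟨(2, 0), _, mkRep h (o := 7 * l - 2 * C) (by linarith) (by linarith) (fun p hp => ?_)⟩
    rcases hp with ⟨rfl, u1, u2⟩ | ⟨rfl, u1, u2⟩ | ⟨rfl, u1, u2⟩ | ⟨rfl, u1, u2⟩
    · exfalso; linarith
    · exfalso; linarith
    · exact ⟨by decide, PP20_2 l C⟩
    · exact ⟨by decide, PP20_3 l C⟩
  rcases lt_or_ge y (9 * l - 2 * C - B) with g9 | g9
  · refine ⟨(2, 0), _, mkRep h (o := 8 * l - 2 * C) (by linarith) (by linarith) (fun p hp => ?_)⟩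
    rcases hp with ⟨rfl, u1, u2⟩ | ⟨rfl, u1, u2⟩ | ⟨rfl, u1, u2⟩ | ⟨rfl, u1, u2⟩
    · exact ⟨by decide, PP20_0 l C⟩
    · exact ⟨by decide, PP20_1 l C⟩
    · exfalso; linarith
    · exfalso; linarith
  rcases lt_or_ge y (9 * l - 2 * C) with g10 | g10
  · refine ⟨(2, 1), _, mkRep h (o := 8 * l - 2 * C) (by linarith) (by linarith) (fun p hp => ?_)⟩
    rcases hp with ⟨rfl, u1, u2⟩ | ⟨rfl, u1, u2⟩ | ⟨rfl, u1, u2⟩ | ⟨rfl, u1, u2⟩
    · exfalso; linarith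
    · exfalso; linarith
    · exact ⟨by decide, PP21_2 l C⟩
    · exact ⟨by decide, PP21_3 l C⟩
  rcases lt_or_ge y (10 * l - 2 * C - B) with g11 | g11
  · refine ⟨(2, 1), _, mkRep h (o := 9 * l - 2 * C) (by linarith) (by linarith) (fun p hp => ?_)⟩
    rcases hp with ⟨rfl, u1, u2⟩ | ⟨rfl, u1, u2⟩ | ⟨rfl, u1, u2⟩ | ⟨rfl, u1, u2⟩
    · exact ⟨by decide, PP21_0 l C⟩
    · exact ⟨by decide, PP21_1 l C⟩
    · exfalso; linarith
    · exfalso; linarith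
  rcases lt_or_ge y (11 * l - 2 * C - B) with g12 | g12
  · refine ⟨(0, 2), _, mkRep h (o := 1 - 2 * l + C) (by linarith) (by linarith) (fun p hp => ?_)⟩
    rcases hp with ⟨rfl, u1, u2⟩ | ⟨rfl, u1, u2⟩ | ⟨rfl, u1, u2⟩ | ⟨rfl, u1, u2⟩
    · exact ⟨by decide, PP02 l C _⟩
    · exact ⟨by decide, PP02 l C _⟩
    · exact ⟨by decide, PP02 l C _⟩
    · exact ⟨by decide, PP02 l C _⟩
  refine ⟨(0, 3), _, mkRep h (o := 1 - l + C) (by linarith) (by linarith) (fun p hp => ?_)⟩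
  rcases hp with ⟨rfl, u1, u2⟩ | ⟨rfl, u1, u2⟩ | ⟨rfl, u1, u2⟩ | ⟨rfl, u1, u2⟩
  · exact ⟨by decide, PP03 l C _⟩
  · exact ⟨by decide, PP03 l C _⟩
  · exact ⟨by decide, PP03 l C _⟩
  · exfalso; linarith

theorem rep_dn {l C B : ℝ} (h : IsP l C B) {y : ℝ} (y0 : 0 ≤ y) (y1 : y < 1) :
    Rep l C y (dg l C B y) (nx l C B y) := by
  obtain ⟨d, w, hr⟩ := rep_ex h y0 y1
  obtain ⟨-, -, hd, hw⟩ := rep_all h hr
  rw [hd, hw]
  exact hr

end Pool.Agent.LibRotU
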