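import Pool.Agent.LibRotU.Def

/-!
# Labelings of a comeager invariant set extend
-/

namespace Pool.Agent.LibRotU

theorem FreeBorelAction.act_inj {n : ℕ} {X : Type} [TopologicalSpace X] (a : FreeBorelAction n X)
    {g h : Fin n → ℤ} {x : X} (e : a.act g x = a.act h x) : g = h := by
  have h1 : a.act (-h + g) x = x := by rw [a.add, e, ← a.add, neg_add_cancel, a.zero]
  have h2 := a.free _ _ h1
  rw [neg_add_eq_zero] at h2
  exact h2.symm

/-- The orbit relation. -/
def orb {n : ℕ} {X : Type} [TopologicalSpace X] (a : FreeBorelAction n X) : Setoid X where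
  r x y := ∃ g, a.act g x = y
  iseqv :=
    { refl := fun x => ⟨0, a.zero x⟩
      symm := by
        rintro x y ⟨g, rfl⟩
        exact ⟨-g, by rw [← a.add, neg_add_cancel, a.zero]⟩
      trans := by
        rintro x y z ⟨g, rfl⟩ ⟨k, rfl⟩
        exact ⟨k + g, a.add _ _ _⟩ }

/-- A labeling defined on an invariant comeager set extends to a Baire measurable labeling. -/
theorem extend {n : ℕ} {X : Type} [TopologicalSpace X] (a : FreeBorelAction n X) (Pi : LCL n)
    {G : Set X} (hG : G ∈ residual X) (hinv : ∀ g x, x ∈ G → a.act g x ∈ G) (hne : G.Nonempty)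
    {f : X → Pi.L} (hf : BaireMeas f) (hlab : ∀ x ∈ G, (fun w : Pi.W => f (a.act w x)) ∈ Pi.A) :
    BaireSolvable a Pi := by
  classical
  obtain ⟨x0, hx0⟩ := hne
  let rep : X → X := fun x => (Quotient.mk (orb a) x).out
  have hrep : ∀ x, ∃ g, a.act g (rep x) = x := fun x => @Quotient.mk_out X (orb a) x
  choose g hg using hrep
  have hrg : ∀ k x, rep (a.act k x) = rep x := by
    intro k x
    have : (Quotient.mk (orb a) (a.act k x)) = Quotient.mk (orb a) x :=
      Quotient.sound ((orb a).symm ⟨k, rfl⟩)
    show (Quotient.mk (orb a) (a.act k x)).out = _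
    rw [this]
  have hgg : ∀ k x, g (a.act k x) = k + g x := by
    intro k x
    apply a.act_inj (x := rep x)
    have h1 := hg (a.act k x)
    rw [hrg] at h1
    rw [h1, a.add, hg]
  have hinv' : ∀ k x, a.act k x ∈ G → x ∈ G := by
    intro k x hk
    have := hinv (-k) _ hk
    rwa [← a.add, neg_add_cancel, a.zero] at this
  refine ⟨fun x => if x ∈ G then f x else f (a.act (g x) x0), fun b => ?_, fun x => ?_⟩
  · refine (hf b).congr ?_
    filter_upwards [hG] with x hx
    apply propext
    show f x = b ↔ (if x ∈ G then f x else f (a.act (g x) x0)) = b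
    rw [if_pos hx]
  · by_cases hx : x ∈ G
    · have := hlab x hx
      convert this using 2
      exact if_pos (hinv _ _ hx)
    · have := hlab (a.act (g x) x0) (hinv _ _ hx0)
      convert this using 2 with w
      show (if a.act w x ∈ G then f (a.act w x) else f (a.act (g (a.act w x)) x0)) = _
      rw [if_neg (fun h' => hx (hinv' _ _ h')), hgg, a.add]

end Pool.Agent.LibRotU
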