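import Pool.Agent.LibRotU.Renorm

/-!
# Height functions have bounded deviation
-/

namespace Pool.Agent.LibRotU

variable {c : Cfg}

/-! ## Every site lies in an indexed block -/

/-- The block of a site. -/
def blk (h : Valid c) (x y : ℤ) : Base c :=
  ⟨(x - px (c.s x y).1, y - py (c.s x y).1 (c.s x y).2), by
    have := h.base (x := x) (y := y) (d := (c.s x y).1) (p := (c.s x y).2) rfl rfl rfl
    show (c.s _ _).1 = _
    rw [this]⟩

theorem blk_ty (h : Valid c) (x y : ℤ) : (blk h x y).ty = (c.s x y).2 := by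
  have := h.base (x := x) (y := y) (d := (c.s x y).1) (p := (c.s x y).2) rfl rfl rfl
  show (c.s (x - px (c.s x y).1) (y - py (c.s x y).1 (c.s x y).2)).2 = _
  rw [this]

theorem blk_eq (h : Valid c) (b : Base c) (d : Dg) (hd : present (d, b.ty) = true) {x y : ℤ}
    (hx : x = b.1.1 + px d) (hy : y = b.1.2 + py d b.ty) : blk h x y = b := by
  have hs := h.site b.st d hd hx hy
  apply Subtype.ext
  show (x - px (c.s x y).1, y - py (c.s x y).1 (c.s x y).2) = b.1
  rw [hs]
  refine Prod.ext ?_ ?_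
  · show x - px d = b.1.1
    rw [hx]; ring
  · show y - py d b.ty = b.1.2
    rw [hy]; ring

theorem fx1 : ∀ (d : Dg) (p : Fin 4), present (d, p) = true → (nd1 (d, p)).1 = none →
    present ((nd1 (d, p)).2, p) = true ∧ px (nd1 (d, p)).2 = px d + 1 ∧
    py (nd1 (d, p)).2 p = py d p := by decide

theorem fx2 : ∀ (d : Dg) (p q : Fin 4), present (d, p) = true → (nd1 (d, p)).1 = some false →
    ca p + cb q = cg p → present ((nd1 (d, p)).2, q) = true ∧ 3 + px (nd1 (d, p)).2 = px d + 1 ∧
    py (nd1 (d, p)).2 q - ca p = py d p := by decide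

theorem fx3 : ∀ (d : Dg) (p q : Fin 4), present (d, p) = true → (nd1 (d, p)).1 = some true →
    ca q + cb p = cg p → present ((nd1 (d, p)).2, q) = true ∧ px (nd1 (d, p)).2 - 1 = px d + 1 ∧
    4 - cb p + py (nd1 (d, p)).2 q = py d p := by decide

theorem fy1 : ∀ (d : Dg) (p : Fin 4), present (d, p) = true → (nd2 (d, p)).1 = none →
    present ((nd2 (d, p)).2, p) = true ∧ px (nd2 (d, p)).2 = px d ∧
    py (nd2 (d, p)).2 p = py d p + 1 := by decide

theorem fy2 : ∀ (d : Dg) (p q : Fin 4), present (d, p) = true → (nd2 (d, p)).1 = some false →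
    ca p + cb q = cg p → present ((nd2 (d, p)).2, q) = true ∧ 3 + px (nd2 (d, p)).2 = px d ∧
    py (nd2 (d, p)).2 q - ca p = py d p + 1 := by decide

theorem fy3 : ∀ (d : Dg) (p q : Fin 4), present (d, p) = true → (nd2 (d, p)).1 = some true →
    ca q + cb p = cg p → present ((nd2 (d, p)).2, q) = true ∧ px (nd2 (d, p)).2 - 1 = px d ∧
    4 - cb p + py (nd2 (d, p)).2 q = py d p + 1 := by decide

theorem blk_x (h : Valid c) (x y : ℤ) :
    (blk h x y).1.1 = x - px (c.s x y).1 ∧
    (blk h x y).1.2 = y - py (c.s x y).1 (blk h x y).ty ∧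
    present ((c.s x y).1, (blk h x y).ty) = true := by
  rw [blk_ty]
  exact ⟨rfl, rfl, h.pr x y⟩

theorem blk_right (h : Valid c) (x y : ℤ) : blk h (x + 1) y = blk h x y ∨
    blk h (x + 1) y = stepR h (blk h x y) ∨ blk h (x + 1) y = stepU h (blk h x y) := by
  obtain ⟨e1, e2, e3⟩ := blk_x h x y
  generalize (c.s x y).1 = d at *
  generalize blk h x y = b at *
  have a1 := h.adj1 b.st
  have a2 := h.adj2 b.st
  rcases hX : (nd1 (d, b.ty)).1 with _ | X
  · left
    obtain ⟨k1, k2, k3⟩ := fx1 d b.ty e3 hX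
    exact blk_eq h b _ k1 (by rw [k2, e1]; ring) (by rw [k3, e2]; ring)
  · cases X with
    | false =>
      right; left
      obtain ⟨k1, k2, k3⟩ := fx2 d b.ty (stepR h b).ty e3 hX a1
      refine blk_eq h (stepR h b) _ k1 ?_ ?_
      · show x + 1 = b.1.1 + 3 + _
        linarith
      · show y = b.1.2 - ca b.ty + _
        linarith
    | true =>
      right; right
      obtain ⟨k1, k2, k3⟩ := fx3 d b.ty (stepU h b).ty e3 hX a2
      refine blk_eq h (stepU h b) _ k1 ?_ ?_
      · show x + 1 = b.1.1 - 1 + _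
        linarith
      · show y = b.1.2 + 4 - cb b.ty + _
        linarith

theorem blk_up (h : Valid c) (x y : ℤ) : blk h x (y + 1) = blk h x y ∨
    blk h x (y + 1) = stepR h (blk h x y) ∨ blk h x (y + 1) = stepU h (blk h x y) := by
  obtain ⟨e1, e2, e3⟩ := blk_x h x y
  generalize (c.s x y).1 = d at *
  generalize blk h x y = b at *
  have a1 := h.adj1 b.st
  have a2 := h.adj2 b.st
  rcases hX : (nd2 (d, b.ty)).1 with _ | X
  · left
    obtain ⟨k1, k2, k3⟩ := fy1 d b.ty e3 hX
    exact blk_eq h b _ k1 (by rw [k2, e1]; ring) (by rw [k3, e2]; ring)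
  · cases X with
    | false =>
      right; left
      obtain ⟨k1, k2, k3⟩ := fy2 d b.ty (stepR h b).ty e3 hX a1
      refine blk_eq h (stepR h b) _ k1 ?_ ?_
      · show x = b.1.1 + 3 + _
        linarith
      · show y + 1 = b.1.2 - ca b.ty + _
        linarith
    | true =>
      right; right
      obtain ⟨k1, k2, k3⟩ := fy3 d b.ty (stepU h b).ty e3 hX a2
      refine blk_eq h (stepU h b) _ k1 ?_ ?_
      · show x = b.1.1 - 1 + _
        linarith
      · show y + 1 = b.1.2 + 4 - cb b.ty + _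
        linarith

/-- The base is indexed. -/
def In (h : Valid c) (b0 b : Base c) : Prop := ∃ m n : ℤ, b = bb h b0 m n

theorem In_R (h : Valid c) (b0 b : Base c) : In h b0 (stepR h b) ↔ In h b0 b := by
  constructor
  · rintro ⟨m, n, hb⟩
    refine ⟨m - 1, n, (permR h).injective ?_⟩
    show stepR h b = stepR h (bb h b0 (m - 1) n)
    rw [hb, ← bb_succ1, sub_add_cancel]
  · rintro ⟨m, n, rfl⟩
    exact ⟨m + 1, n, (bb_succ1 h b0 m n).symm⟩

theorem In_U (h : Valid c) (b0 b : Base c) : In h b0 (stepU h b) ↔ In h b0 b := by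
  constructor
  · rintro ⟨m, n, hb⟩
    refine ⟨m, n - 1, (permU h).injective ?_⟩
    show stepU h b = stepU h (bb h b0 m (n - 1))
    rw [hb, ← bb_succ2, sub_add_cancel]
  · rintro ⟨m, n, rfl⟩
    exact ⟨m, n + 1, (bb_succ2 h b0 m n).symm⟩

theorem In_right (h : Valid c) (b0 : Base c) (x y : ℤ) :
    In h b0 (blk h (x + 1) y) ↔ In h b0 (blk h x y) := by
  rcases blk_right h x y with e | e | e <;> rw [e]
  · exact In_R h b0 _
  · exact In_U h b0 _

theorem In_up (h : Valid c) (b0 : Base c) (x y : ℤ) :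
    In h b0 (blk h x (y + 1)) ↔ In h b0 (blk h x y) := by
  rcases blk_up h x y with e | e | e <;> rw [e]
  · exact In_R h b0 _
  · exact In_U h b0 _

theorem In_all (h : Valid c) (x y : ℤ) : In h (blk h 0 0) (blk h x y) := by
  have h0 : In h (blk h 0 0) (blk h 0 0) := ⟨0, 0, (bb_zero h _).symm⟩
  have h1 : ∀ x : ℤ, In h (blk h 0 0) (blk h x 0) := by
    intro x
    induction x using Int.induction_on with
    | zero => exact h0
    | succ k ih => exact (In_right h _ _ _).2 ih
    | pred k ih =>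
      have := In_right h (blk h 0 0) (-(k : ℤ) - 1) 0
      rw [sub_add_cancel] at this
      exact this.1 ih
  induction y using Int.induction_on with
  | zero => exact h1 x
  | succ k ih => exact (In_up h _ _ _).2 ih
  | pred k ih =>
    have := In_up h (blk h 0 0) x (-(k : ℤ) - 1)
    rw [sub_add_cancel] at this
    exact this.1 ih

/-! ## Height functions -/

/-- Signed sums. -/
def isum (f : ℤ → ℤ) (m : ℤ) : ℤ :=
  ∑ i ∈ Finset.range m.toNat, f i - ∑ i ∈ Finset.range (-m).toNat, f (-(i : ℤ) - 1)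

theorem isum_zero (f : ℤ → ℤ) : isum f 0 = 0 := by simp [isum]

theorem isum_succ (f : ℤ → ℤ) (m : ℤ) : isum f (m + 1) = isum f m + f m := by
  unfold isum
  rcases le_or_gt 0 m with hm | hm
  · have e1 : (m + 1).toNat = m.toNat + 1 := by omega
    have e2 : (-(m + 1)).toNat = 0 := by omega
    have e3 : (-m).toNat = 0 := by omega
    rw [e1, e2, e3, Finset.sum_range_succ, Int.toNat_of_nonneg hm]
    simp
  · have e1 : (m + 1).toNat = 0 := by omega
    have e2 : m.toNat = 0 := by omega
    have e3 : (-m).toNat = (-(m + 1)).toNat + 1 := by omega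
    rw [e1, e2, e3, Finset.sum_range_succ, Int.toNat_of_nonneg (by omega)]
    have e4 : -(-(m + 1)) - 1 = m := by ring
    rw [e4]
    simp

/-- The height function vanishing at the origin. -/
def ht (c : Cfg) (x y : ℤ) : ℤ :=
  isum (fun i => (ca (qt (c.s i 0)) : ℤ)) x + isum (fun j => (cb (qt (c.s x j)) : ℤ)) y

theorem ht_zero (c : Cfg) : ht c 0 0 = 0 := by simp [ht, isum_zero]

theorem ht_isHt (h : Valid c) : IsHt c (ht c) := by
  have h2 : ∀ x y, ht c x (y + 1) = ht c x y + cb (qt (c.s x y)) := by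
    intro x y
    unfold ht
    rw [isum_succ]
    ring
  have hcl : ∀ x y, (ca (qt (c.s x y)) : ℤ) + cb (qt (c.s (x + 1) y)) =
      cb (qt (c.s x y)) + ca (qt (c.s x (y + 1))) := by
    intro x y
    exact_mod_cast (win_fin' (h.win x y)).2.1
  refine ⟨fun x y => ?_, h2⟩
  induction y using Int.induction_on with
  | zero =>
    unfold ht
    rw [isum_succ, isum_zero, isum_zero]
    ring
  | succ k ih =>
    have e1 := h2 (x + 1) k
    have e2 := h2 x k
    have e3 := hcl x k
    linarith
  | pred k ih =>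
    have e1 := h2 (x + 1) (-(k : ℤ) - 1)
    have e2 := h2 x (-(k : ℤ) - 1)
    have e3 := hcl x (-(k : ℤ) - 1)
    rw [sub_add_cancel] at e1 e2 e3
    linarith

/-- Two functions with the same increments and the same value at the origin are equal. -/
theorem ext2 {F G : ℤ → ℤ → ℤ} (h1 : ∀ m n, F (m + 1) n - F m n = G (m + 1) n - G m n)
    (h2 : ∀ m n, F m (n + 1) - F m n = G m (n + 1) - G m n) (h0 : F 0 0 = G 0 0) (m n : ℤ) :
    F m n = G m n := by
  have a : ∀ m : ℤ, F m 0 = G m 0 := by
    intro m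
    induction m using Int.induction_on with
    | zero => exact h0
    | succ k ih => have := h1 k 0; linarith
    | pred k ih =>
      have := h1 (-(k : ℤ) - 1) 0
      rw [sub_add_cancel] at this
      linarith
  induction n using Int.induction_on with
  | zero => exact a m
  | succ k ih => have := h2 m k; linarith
  | pred k ih =>
    have := h2 m (-(k : ℤ) - 1)
    rw [sub_add_cancel] at this
    linarith

/-- Height functions are Lipschitz. -/
theorem IsHt.lip {H : ℤ → ℤ → ℤ} (hH : IsHt c H) (x y x' y' : ℤ) :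
    |H x' y' - H x y| ≤ |x' - x| + |y' - y| := by
  have hca : ∀ p : Fin 4, (ca p : ℤ) ≤ 1 := by decide
  have hcb : ∀ p : Fin 4, (cb p : ℤ) ≤ 1 := by decide
  have a : ∀ (x y : ℤ) (k : ℕ), |H (x + k) y - H x y| ≤ k := by
    intro x y k
    induction k with
    | zero => simp
    | succ k ih =>
      have e := hH.h1 (x + k) y
      have e' : x + ((k + 1 : ℕ) : ℤ) = x + k + 1 := by push_cast; ring
      rw [e', e]
      have := hca (qt (c.s (x + k) y))
      have h0 : (0 : ℤ) ≤ ca (qt (c.s (x + k) y)) := by positivity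
      rw [abs_le] at ih ⊢
      push_cast
      constructor <;> linarith [ih.1, ih.2]
  have b : ∀ (x y : ℤ) (k : ℕ), |H x (y + k) - H x y| ≤ k := by
    intro x y k
    induction k with
    | zero => simp
    | succ k ih =>
      have e := hH.h2 x (y + k)
      have e' : y + ((k + 1 : ℕ) : ℤ) = y + k + 1 := by push_cast; ring
      rw [e', e]
      have := hcb (qt (c.s x (y + k)))
      have h0 : (0 : ℤ) ≤ cb (qt (c.s x (y + k))) := by positivity
      rw [abs_le] at ih ⊢
      push_cast
      constructor <;> linarith [ih.1, ih.2]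
  have a' : ∀ x x' y : ℤ, |H x' y - H x y| ≤ |x' - x| := by
    intro x x' y
    rcases le_total x x' with hx | hx
    · have := a x y (x' - x).toNat
      rw [Int.toNat_of_nonneg (by omega)] at this
      rw [abs_of_nonneg (by omega : 0 ≤ x' - x)]
      have e : x + (x' - x) = x' := by ring
      rwa [e] at this
    · have := a x' y (x - x').toNat
      rw [Int.toNat_of_nonneg (by omega)] at this
      rw [abs_sub_comm, abs_sub_comm x' x, abs_of_nonneg (by omega : 0 ≤ x - x')]
      have e : x' + (x - x') = x := by ring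
      rwa [e] at this
  have b' : ∀ x y y' : ℤ, |H x y' - H x y| ≤ |y' - y| := by
    intro x y y'
    rcases le_total y y' with hx | hx
    · have := b x y (y' - y).toNat
      rw [Int.toNat_of_nonneg (by omega)] at this
      rw [abs_of_nonneg (by omega : 0 ≤ y' - y)]
      have e : y + (y' - y) = y' := by ring
      rwa [e] at this
    · have := b x y' (y - y').toNat
      rw [Int.toNat_of_nonneg (by omega)] at this
      rw [abs_sub_comm, abs_sub_comm y' y, abs_of_nonneg (by omega : 0 ≤ y - y')]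
      have e : y' + (y - y') = y := by ring
      rwa [e] at this
  calc |H x' y' - H x y| = |(H x' y' - H x' y) + (H x' y - H x y)| := by ring_nf
    _ ≤ |H x' y' - H x' y| + |H x' y - H x y| := abs_add_le _ _
    _ ≤ |y' - y| + |x' - x| := add_le_add (b' _ _ _) (a' _ _ _)
    _ = _ := add_comm _ _

/-! ## The renormalized height function -/

theorem bb_pos (h : Valid c) (b0 : Base c) {H1 : ℤ → ℤ → ℤ} (hH1 : IsHt (ren h b0) H1)
    (h0 : H1 0 0 = 0) (m n : ℤ) :
    (bb h b0 m n).1.1 = b0.1.1 + 3 * m - n ∧ (bb h b0 m n).1.2 = b0.1.2 + 4 * n - H1 m n := by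
  constructor
  · refine ext2 (F := fun m n => (bb h b0 m n).1.1) (G := fun m n => b0.1.1 + 3 * m - n) ?_ ?_ ?_ m n
    · intro m n
      show (bb h b0 (m + 1) n).1.1 - _ = _
      rw [bb_succ1]
      show (bb h b0 m n).1.1 + 3 - (bb h b0 m n).1.1 = _
      ring
    · intro m n
      show (bb h b0 m (n + 1)).1.1 - _ = _
      rw [bb_succ2]
      show (bb h b0 m n).1.1 - 1 - (bb h b0 m n).1.1 = _
      ring
    · show (bb h b0 0 0).1.1 = _
      rw [bb_zero]; ring
  · refine ext2 (F := fun m n => (bb h b0 m n).1.2) (G := fun m n => b0.1.2 + 4 * n - H1 m n)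
      ?_ ?_ ?_ m n
    · intro m n
      show (bb h b0 (m + 1) n).1.2 - _ = _
      rw [bb_succ1, hH1.h1, ren_qt]
      show (bb h b0 m n).1.2 - (ca (bb h b0 m n).ty : ℤ) - (bb h b0 m n).1.2 = _
      ring
    · intro m n
      show (bb h b0 m (n + 1)).1.2 - _ = _
      rw [bb_succ2, hH1.h2, ren_qt]
      show (bb h b0 m n).1.2 + 4 - (cb (bb h b0 m n).ty : ℤ) - (bb h b0 m n).1.2 = _
      ring
    · show (bb h b0 0 0).1.2 = _
      rw [bb_zero, h0]; ring

theorem bb_ht (h : Valid c) (b0 : Base c) {H : ℤ → ℤ → ℤ} (hH : IsHt c H) (m n : ℤ) :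
    H (bb h b0 m n).1.1 (bb h b0 m n).1.2 = H b0.1.1 b0.1.2 + m := by
  refine ext2 (F := fun m n => H (bb h b0 m n).1.1 (bb h b0 m n).1.2)
    (G := fun m n => H b0.1.1 b0.1.2 + m) ?_ ?_ ?_ m n
  · intro m n
    show H (bb h b0 (m + 1) n).1.1 (bb h b0 (m + 1) n).1.2 - _ = _
    rw [bb_succ1]
    have := ht_right h hH (bb h b0 m n).st
    show H ((bb h b0 m n).1.1 + 3) ((bb h b0 m n).1.2 - ca (bb h b0 m n).ty) - _ = _
    rw [this]; ring
  · intro m n
    show H (bb h b0 m (n + 1)).1.1 (bb h b0 m (n + 1)).1.2 - _ = _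
    rw [bb_succ2]
    have := ht_upper h hH (bb h b0 m n).st
    show H ((bb h b0 m n).1.1 - 1) ((bb h b0 m n).1.2 + 4 - cb (bb h b0 m n).ty) - _ = _
    rw [this]; ring
  · show H (bb h b0 0 0).1.1 (bb h b0 0 0).1.2 = _
    rw [bb_zero]; ring

theorem px_bd : ∀ d : Dg, |px d| ≤ 2 := by decide
theorem py_bd : ∀ (d : Dg) (p : Fin 4), |py d p| ≤ 3 := by decide

/-- Bounded deviation. -/
theorem dev (l : ℝ) (hl : l ^ 3 - 7 * l ^ 2 + 12 * l - 1 = 0) (h0 : 0 < l) (h1 : l < 1 / 4)
    (N : ℕ) : ∀ (c : Cfg) (_ : Valid c) (H : ℤ → ℤ → ℤ), IsHt c H → H 0 0 = 0 →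
      ∀ x y : ℤ, x.natAbs + y.natAbs ≤ N →
        |(H x y : ℝ) - x * (l * (4 - l)) - y * l| ≤ 40 := by
  have ha0 : 0 ≤ l * (4 - l) := by nlinarith
  have ha1 : l * (4 - l) ≤ 1 := by nlinarith
  have triv : ∀ (c : Cfg) (H : ℤ → ℤ → ℤ), IsHt c H → H 0 0 = 0 → ∀ x y : ℤ,
      |(H x y : ℝ) - x * (l * (4 - l)) - y * l| ≤ 2 * (|(x : ℝ)| + |(y : ℝ)|) := by
    intro c H hH hH0 x y
    have e := hH.lip 0 0 x y
    rw [hH0, sub_zero, sub_zero, sub_zero] at e
    have e' : |(H x y : ℝ)| ≤ |(x : ℝ)| + |(y : ℝ)| := by exact_mod_cast e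
    have f1 : |(x : ℝ) * (l * (4 - l))| ≤ |(x : ℝ)| := by
      rw [abs_mul, abs_of_nonneg ha0]
      exact mul_le_of_le_one_right (abs_nonneg _) ha1
    have f2 : |(y : ℝ) * l| ≤ |(y : ℝ)| := by
      rw [abs_mul, abs_of_nonneg h0.le]
      exact mul_le_of_le_one_right (abs_nonneg _) (by linarith)
    rw [abs_le] at *
    constructor <;> linarith [e'.1, e'.2, f1.1, f1.2, f2.1, f2.2]
  induction N using Nat.strong_induction_on with
  | _ N ih =>
    intro c h H hH hH0 x y hxy
    by_cases hN : N ≤ 20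
    · refine (triv c H hH hH0 x y).trans ?_
      have e : |(x : ℝ)| + |(y : ℝ)| = ((x.natAbs + y.natAbs : ℕ) : ℝ) := by
        push_cast
        simp [Nat.cast_natAbs]
      rw [e]
      have : ((x.natAbs + y.natAbs : ℕ) : ℝ) ≤ 20 := by exact_mod_cast hxy.trans hN
      linarith
    push Not at hN
    -- the base of the site and of the origin
    obtain ⟨e1, e2, -⟩ := blk_x h x y
    obtain ⟨o1, o2, -⟩ := blk_x h 0 0
    obtain ⟨m, n, hmn⟩ := In_all h x y
    set b0 := blk h 0 0 with hb0
    have hH1 := ht_isHt (ren_valid h b0)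
    have hH10 := ht_zero (ren h b0)
    set H1 := ht (ren h b0) with hH1def
    obtain ⟨p1, p2⟩ := bb_pos h b0 hH1 hH10 m n
    have p3 := bb_ht h b0 hH m n
    rw [← hmn] at p1 p2 p3
    set d := (c.s x y).1
    set p := (blk h x y).ty
    set d0 := (c.s 0 0).1
    set q := b0.ty
    set X := (blk h x y).1.1
    set Y := (blk h x y).1.2
    set X0 := b0.1.1
    set Y0 := b0.1.2
    have bx := px_bd d
    have by' := py_bd d p
    have bx0 := px_bd d0
    have by0 := py_bd d0 q
    have lip1 := hH1.lip 0 0 m n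
    rw [hH10, sub_zero, sub_zero, sub_zero] at lip1
    -- size of the index
    have hsize : m.natAbs + n.natAbs ≤ N / 2 + 5 := by
      have u1 := abs_le.1 bx
      have u2 := abs_le.1 by'
      have u3 := abs_le.1 bx0
      have u4 := abs_le.1 by0
      have u5 : (H1 m n).natAbs ≤ m.natAbs + n.natAbs := by
        have := lip1
        rw [Int.abs_eq_natAbs, Int.abs_eq_natAbs, Int.abs_eq_natAbs] at this
        exact_mod_cast this
      omega
    have ihm := ih (N / 2 + 5) (by omega) (ren h b0) (ren_valid h b0) H1 hH1 hH10 m n hsize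
    -- estimates
    have l1 := hH.lip X Y x y
    have l0 := triv c H hH hH0 X0 Y0
    have l1' : |(H x y : ℝ) - H X Y| ≤ 5 := by
      have : |H x y - H X Y| ≤ 5 := by
        refine l1.trans ?_
        have g1 : x - X = px d := by omega
        have g2 : y - Y = py d p := by omega
        rw [g1, g2]; omega
      exact_mod_cast this
    have l0' : |(H X0 Y0 : ℝ) - X0 * (l * (4 - l)) - Y0 * l| ≤ 10 := by
      refine l0.trans ?_
      have : |X0| + |Y0| ≤ 5 := by
        have g1 : X0 = - px d0 := by omega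
        have g2 : Y0 = - py d0 q := by omega
        rw [g1, g2, abs_neg, abs_neg]; omega
      have : |(X0 : ℝ)| + |(Y0 : ℝ)| ≤ 5 := by exact_mod_cast this
      linarith
    have hx : (x : ℝ) = X + px d := by
      have : x = X + px d := by omega
      exact_mod_cast this
    have hy : (y : ℝ) = Y + py d p := by
      have : y = Y + py d p := by omega
      exact_mod_cast this
    have hp1 : (X : ℝ) = X0 + 3 * m - n := by exact_mod_cast p1
    have hp2 : (Y : ℝ) = Y0 + 4 * n - H1 m n := by exact_mod_cast p2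
    have hp3 : (H X Y : ℝ) = H X0 Y0 + m := by exact_mod_cast p3
    have bxr : |(px d : ℝ)| ≤ 2 := by exact_mod_cast bx
    have byr : |(py d p : ℝ)| ≤ 3 := by exact_mod_cast by'
    have g1 : |(px d : ℝ) * (l * (4 - l))| ≤ 2 := by
      rw [abs_mul, abs_of_nonneg ha0]
      calc |(px d : ℝ)| * (l * (4 - l)) ≤ 2 * 1 := mul_le_mul bxr ha1 ha0 (by norm_num)
        _ = 2 := by norm_num
    have g2 : |(py d p : ℝ) * l| ≤ 3 := by
      rw [abs_mul, abs_of_nonneg h0.le]
      calc |(py d p : ℝ)| * l ≤ 3 * 1 := mul_le_mul byr (by linarith) h0.le (by norm_num)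
        _ = 3 := by norm_num
    have key : (H x y : ℝ) - x * (l * (4 - l)) - y * l =
        ((H x y : ℝ) - H X Y) - px d * (l * (4 - l)) - py d p * l +
        ((H X0 Y0 : ℝ) - X0 * (l * (4 - l)) - Y0 * l) +
        l * ((H1 m n : ℝ) - m * (l * (4 - l)) - n * l) := by
      rw [hx, hy, hp3, hp1, hp2]
      linear_combination (-(m : ℝ)) * hl
    rw [key]
    have g3 : |l * ((H1 m n : ℝ) - m * (l * (4 - l)) - n * l)| ≤ 10 := by
      rw [abs_mul, abs_of_nonneg h0.le]
      calc l * _ ≤ (1 / 4) * 40 := mul_le_mul h1.le ihm (abs_nonneg _) (by norm_num)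
        _ = 10 := by norm_num
    rw [abs_le] at *
    constructor <;> linarith [l1'.1, l1'.2, g1.1, g1.2, g2.1, g2.2, l0'.1, l0'.2, g3.1, g3.2]

end Pool.Agent.LibRotU
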