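import Pool.Agent.LibRotU.Eigen
import Pool.Agent.LibRotU.Dev

/-!
# The LCL problem and its unsolvability on the free part of the shift
-/

namespace Pool.Agent.LibRotU

/-- Labels. -/
abbrev La := St × Lb × Lb

/-- The local rule: `a` is the label of a site, `b` that of the site on its right and `c` that of
the site above it. -/
def Rule (a b c : La) : Prop :=
  present a.1 = true ∧ Tr false a.1 b.1 ∧ Tr true a.1 c.1 ∧
  ((nd1 a.1).1 = none → LI false a.1 a.2.1) ∧ ((nd2 a.1).1 = none → LI true a.1 a.2.2) ∧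
  VR a.2.1 c.2.1 a.2.2 b.2.2

/-- The LCL problem with right and upper directions `v`, `w`. -/
def PiL (n : ℕ) (v w : Fin n → ℤ) : LCL n where
  W := {0, v, w}
  L := La
  fin := inferInstance
  A := {f | Rule (f ⟨0, by simp⟩) (f ⟨v, by simp⟩) (f ⟨w, by simp⟩)}

/-- The configuration read along the orbit of `x`. -/
def cfg {n : ℕ} {X : Type} [TopologicalSpace X] (a : FreeBorelAction n X) (v w : Fin n → ℤ)
    (f : X → La) (x : X) : Cfg where
  s i j := (f (a.act (i • v + j • w) x)).1
  l1 i j := (f (a.act (i • v + j • w) x)).2.1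
  l2 i j := (f (a.act (i • v + j • w) x)).2.2

theorem cfg_valid {n : ℕ} {X : Type} [TopologicalSpace X] {a : FreeBorelAction n X}
    {v w : Fin n → ℤ} {f : X → La} (hf : IsLabeling a (PiL n v w) f) (x : X) :
    Valid (cfg a v w f x) := by
  have key : ∀ i j : ℤ, Rule (f (a.act (i • v + j • w) x)) (f (a.act ((i + 1) • v + j • w) x))
      (f (a.act (i • v + (j + 1) • w) x)) := by
    intro i j
    have h1 := hf (a.act (i • v + j • w) x)
    have h2 : Rule (f (a.act 0 (a.act (i • v + j • w) x))) (f (a.act v (a.act (i • v + j • w) x)))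
        (f (a.act w (a.act (i • v + j • w) x))) := h1
    rw [← a.add, ← a.add, ← a.add, zero_add] at h2
    have e1 : v + (i • v + j • w) = (i + 1) • v + j • w := by rw [add_smul, one_smul]; abel
    have e2 : w + (i • v + j • w) = i • v + (j + 1) • w := by rw [add_smul, one_smul]; abel
    rw [e1, e2] at h2
    exact h2
  exact ⟨fun i j => (key i j).1, fun i j => (key i j).2.1, fun i j => (key i j).2.2.1,
    fun i j => (key i j).2.2.2.1, fun i j => (key i j).2.2.2.2.1, fun i j => (key i j).2.2.2.2.2⟩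

theorem isHt_unique {c : Cfg} {H H' : ℤ → ℤ → ℤ} (h : IsHt c H) (h' : IsHt c H')
    (h0 : H 0 0 = H' 0 0) (x y : ℤ) : H x y = H' x y := by
  have a1 : H x 0 = H' x 0 := by
    induction x using Int.induction_on with
    | zero => exact h0
    | succ k ih => rw [h.h1, h'.h1, ih]
    | pred k ih =>
      have e1 := h.h1 (-(k : ℤ) - 1) 0
      have e2 := h'.h1 (-(k : ℤ) - 1) 0
      rw [sub_add_cancel] at e1 e2
      linarith
  induction y using Int.induction_on with
  | zero => exact a1
  | succ k ih => rw [h.h2, h'.h2, ih]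
  | pred k ih =>
    have e1 := h.h2 x (-(k : ℤ) - 1)
    have e2 := h'.h2 x (-(k : ℤ) - 1)
    rw [sub_add_cancel] at e1 e2
    linarith

theorem cfg_shift {n : ℕ} {X : Type} [TopologicalSpace X] {a : FreeBorelAction n X}
    {v w : Fin n → ℤ} {f : X → La} (hf : IsLabeling a (PiL n v w) f) (x : X) (i p q : ℤ) :
    ht (cfg a v w f (a.act (i • v) x)) p q =
      ht (cfg a v w f x) (p + i) q - ht (cfg a v w f x) i 0 := by
  have h1 := ht_isHt (cfg_valid hf x)
  have h2 := ht_isHt (cfg_valid hf (a.act (i • v) x))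
  refine isHt_unique (H' := fun p q => ht (cfg a v w f x) (p + i) q - ht (cfg a v w f x) i 0)
    h2 ⟨fun p q => ?_, fun p q => ?_⟩ ?_ p q
  · have e : (cfg a v w f (a.act (i • v) x)).s p q = (cfg a v w f x).s (p + i) q := by
      show (f (a.act (p • v + q • w) (a.act (i • v) x))).1 = _
      rw [← a.add]
      show _ = (f (a.act ((p + i) • v + q • w) x)).1
      rw [add_smul]
      congr 3
      abel
    rw [e]
    have := h1.h1 (p + i) q
    have e3 : p + 1 + i = p + i + 1 := by ring
    show ht _ (p + 1 + i) q - _ = _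
    rw [e3, this]
    ring
  · have e : (cfg a v w f (a.act (i • v) x)).s p q = (cfg a v w f x).s (p + i) q := by
      show (f (a.act (p • v + q • w) (a.act (i • v) x))).1 = _
      rw [← a.add]
      show _ = (f (a.act ((p + i) • v + q • w) x)).1
      rw [add_smul]
      congr 3
      abel
    rw [e]
    have := h1.h2 (p + i) q
    show ht _ (p + i) (q + 1) - _ = _
    rw [this]
    ring
  · rw [ht_zero, zero_add, sub_self]

/-- The deviation of the height. -/
noncomputable def Dv {n : ℕ} (v w : Fin n → ℤ) (f : FP n → La) (l : ℝ) (y : FP n)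
    (p : ℤ × ℤ) : ℝ :=
  (ht (cfg (shAct n) v w f y) p.1 p.2 : ℝ) - p.1 * (l * (4 - l)) - p.2 * l

theorem meas_fin {n : ℕ} {f : FP n → La} (hf : BaireMeas f) (k : Fin n → ℤ) (g : La → ℝ) :
    @Measurable _ _ (mB (FP n)) _ (fun y => g (f (sh k y))) := by
  refine @Measurable.comp _ _ _ (mB (FP n)) ⊤ _ g (fun y => f (sh k y)) measurable_from_top ?_
  refine @measurable_to_countable' _ _ ⊤ _ (mB (FP n)) _ fun b => ?_
  exact (hf b).preimage (sh_continuous k) (shH k).isOpenMap

theorem meas_isum {n : ℕ} {F : ℤ → FP n → ℤ}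
    (hF : ∀ i, @Measurable _ _ (mB (FP n)) _ (fun y => (F i y : ℝ))) (m : ℤ) :
    @Measurable _ _ (mB (FP n)) _ (fun y => (isum (fun i => F i y) m : ℝ)) := by
  unfold isum
  push_cast
  refine Measurable.sub ?_ ?_
  · exact Finset.measurable_fun_sum _ fun i _ => hF _
  · exact Finset.measurable_fun_sum _ fun i _ => hF _

theorem meas_Dv {n : ℕ} (v w : Fin n → ℤ) {f : FP n → La} (hf : BaireMeas f) (l : ℝ)
    (p : ℤ × ℤ) : @Measurable _ _ (mB (FP n)) _ (fun y => Dv v w f l y p) := by
  unfold Dv ht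
  push_cast
  refine Measurable.sub_const (Measurable.sub_const (Measurable.add ?_ ?_) _) _
  · exact meas_isum (F := fun i y => (ca (qt ((cfg (shAct n) v w f y).s i 0)) : ℤ))
      (fun i => meas_fin hf (i • v + (0 : ℤ) • w) (fun b => ((ca (qt b.1) : ℤ) : ℝ))) _
  · exact meas_isum (F := fun j y => (cb (qt ((cfg (shAct n) v w f y).s p.1 j)) : ℤ))
      (fun j => meas_fin hf (p.1 • v + j • w) (fun b => ((cb (qt b.1) : ℤ) : ℝ))) _

/-- The problem is not solvable on the free part of the shift. -/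
theorem unsolvable {n : ℕ} {v w : Fin n → ℤ} (hv : v ≠ 0) {l : ℝ}
    (hl : l ^ 3 - 7 * l ^ 2 + 12 * l - 1 = 0) (h0 : 0 < l) (h1 : l < 1 / 4) :
    ¬ BaireSolvable (shAct n) (PiL n v w) := by
  rintro ⟨f, hf, hlab⟩
  have hf' : BaireMeas (L := La) f := hf
  have hbd : ∀ y p, |Dv v w f l y p| ≤ 40 := fun y p =>
    dev l hl h0 h1 _ _ (cfg_valid hlab y) _ (ht_isHt (cfg_valid hlab y)) (ht_zero _) p.1 p.2 le_rfl
  have hbdd : ∀ y, BddAbove (Set.range (Dv v w f l y)) := by
    rintro y
    refine ⟨40, ?_⟩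
    rintro _ ⟨p, rfl⟩
    exact (abs_le.1 (hbd y p)).2
  let φ : FP n → ℝ := fun y => ⨆ p, Dv v w f l y p
  have hφ : @Measurable _ _ (mB (FP n)) _ φ :=
    @Measurable.iSup _ _ _ _ _ (mB (FP n)) _ _ _ _ _ _ fun p => meas_Dv v w hf' l p
  have hrel : ∀ y, ∀ i : ℤ, φ (sh (i • v) y) =
      φ y + i * (l * (4 - l)) + ((-ht (cfg (shAct n) v w f y) i 0 : ℤ) : ℝ) := by
    intro y i
    have e1 : ∀ p : ℤ × ℤ, Dv v w f l (sh (i • v) y) p =
        Dv v w f l y ((Equiv.prodCongr (Equiv.addRight i) (Equiv.refl ℤ)) p) +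
          (i * (l * (4 - l)) - ht (cfg (shAct n) v w f y) i 0) := by
      intro p
      have := cfg_shift hlab y i p.1 p.2
      unfold Dv
      have e2 : ht (cfg (shAct n) v w f (sh (i • v) y)) p.1 p.2 =
          ht (cfg (shAct n) v w f y) (p.1 + i) p.2 - ht (cfg (shAct n) v w f y) i 0 := this
      rw [e2]
      simp only [Equiv.prodCongr_apply, Prod.map_fst, Prod.map_snd, Equiv.coe_addRight,
        Equiv.refl_apply]
      push_cast
      ring
    show (⨆ p, Dv v w f l (sh (i • v) y) p) = _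
    simp_rw [e1]
    rw [← ciSup_add]
    · rw [(Equiv.prodCongr (Equiv.addRight i) (Equiv.refl ℤ)).iSup_comp (g := Dv v w f l y)]
      push_cast
      show φ y + _ = _
      ring
    · refine ⟨40, ?_⟩
      rintro _ ⟨p, rfl⟩
      exact (abs_le.1 (hbd y _)).2
  obtain ⟨m, hm⟩ := no_eigen hv hφ (Filter.Eventually.of_forall fun y i => ⟨_, hrel y i⟩)
  have l1 : 0 < l * (4 - l) := by nlinarith
  have l2 : l * (4 - l) < 1 := by nlinarith
  rw [hm] at l1 l2
  have l3 : 0 < m := by exact_mod_cast l1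
  have l4 : m < 1 := by exact_mod_cast l2
  omega

end Pool.Agent.LibRotU
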