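import Pool.Agent.LibRotU.Meas
import Pool.Agent.LibRotU.Ext
import Pool.Agent.LibRotU.Unsolv

/-!
# The action by rotations of the circle
-/

namespace Pool.Agent.LibRotU

/-- The action of `ℤ ^ n` on the circle by independent irrational rotations. -/
noncomputable def rotAct (n : ℕ) (α : Fin n → ℝ)
    (hα : LinearIndependent ℚ (Fin.cons 1 α : Fin (n + 1) → ℝ)) :
    FreeBorelAction n UnitAddCircle where
  act g x := x + ((∑ i, (g i : ℝ) * α i : ℝ) : UnitAddCircle)
  zero x := by simp
  add g h x := by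
    rw [add_assoc, ← AddCircle.coe_add, ← Finset.sum_add_distrib]
    congr 3
    funext i
    simp only [Pi.add_apply]
    push_cast
    ring
  meas g := (continuous_add_const _).borel_measurable
  free g x hx := by
    have h1 : ((∑ i, (g i : ℝ) * α i : ℝ) : UnitAddCircle) = 0 := by
      simpa using hx
    obtain ⟨m, hm⟩ := (AddCircle.coe_eq_zero_iff 1).1 h1
    have h2 := Fintype.linearIndependent_iff.1 hα (Fin.cons (-(m : ℚ)) fun i => (g i : ℚ)) (by
      rw [Fin.sum_univ_succ]
      simp only [Fin.cons_zero, Fin.cons_succ]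
      have : ∀ i, (g i : ℚ) • α i = (g i : ℝ) * α i := fun i => by
        rw [Rat.smul_def]; push_cast; rfl
      simp only [this]
      rw [← hm, Rat.smul_def]
      simp)
    funext i
    have := h2 i.succ
    simpa using this

/-- The representative in `[0, 1)`. -/
noncomputable def rp (x : UnitAddCircle) : ℝ := (AddCircle.equivIco 1 0 x : Set.Ico (0 : ℝ) (0 + 1))

theorem rp_mem (x : UnitAddCircle) : 0 ≤ rp x ∧ rp x < 1 := by
  have := (AddCircle.equivIco 1 0 x).2
  unfold rp
  simpa using this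

theorem rp_coe {y : ℝ} (y0 : 0 ≤ y) (y1 : y < 1) : rp (y : UnitAddCircle) = y := by
  unfold rp
  rw [AddCircle.equivIco_coe_eq (show y ∈ Set.Ico (0 : ℝ) (0 + 1) from ⟨y0, by simpa using y1⟩)]

theorem coe_rp (x : UnitAddCircle) : (rp x : UnitAddCircle) = x := by
  unfold rp
  exact (AddCircle.equivIco 1 0).symm_apply_apply x

theorem coe_add_int (y : ℝ) (m : ℤ) : ((y + m : ℝ) : UnitAddCircle) = y := by
  rw [AddCircle.coe_add]
  have : ((m : ℝ) : UnitAddCircle) = 0 := by
    rw [AddCircle.coe_eq_zero_iff]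
    exact ⟨m, by simp⟩
  rw [this, add_zero]

theorem meas_rp : @Measurable _ _ (borel UnitAddCircle) _ rp := by
  have h : borel UnitAddCircle = (inferInstance : MeasurableSpace UnitAddCircle) :=
    (BorelSpace.measurable_eq).symm
  rw [h]
  exact measurable_subtype_coe.comp (AddCircle.measurableEquivIco 1 0).measurable

section

variable {l C B : ℝ} (h : IsP l C B)

include h

theorem rp_rot (t : Bool) (x : UnitAddCircle) :
    rp (x + ((if t = true then l else 4 * l - C : ℝ) : UnitAddCircle)) = rot l C t (rp x) := by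
  obtain ⟨x0, x1⟩ := rp_mem x
  obtain ⟨r0, r1⟩ := rot_mem h t x0 x1
  obtain ⟨m, hm⟩ := rot_eq (l := l) (C := C) t (rp x)
  have e : x + ((if t = true then l else 4 * l - C : ℝ) : UnitAddCircle) =
      ((rot l C t (rp x) : ℝ) : UnitAddCircle) := by
    rw [hm, coe_add_int, AddCircle.coe_add, coe_rp]
  rw [e, rp_coe r0 r1]

end

/-- The label of a point. -/
noncomputable def fl (l C B : ℝ) (x : UnitAddCircle) : La :=
  (st l C B (rp x), lbl l C B false (rp x), lbl l C B true (rp x))

/-- The good points. -/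
def Gd (l C B : ℝ) : Set UnitAddCircle := {x | ∀ t, ∃ k, lab l C B k t (rp x) ≠ none}

theorem fl_rule {l C B : ℝ} (h : IsP l C B) {x : UnitAddCircle} (hx : x ∈ Gd l C B) :
    Rule (fl l C B x) (fl l C B (x + ((4 * l - C : ℝ) : UnitAddCircle)))
      (fl l C B (x + ((l : ℝ) : UnitAddCircle))) := by
  obtain ⟨x0, x1⟩ := rp_mem x
  have e1 := rp_rot h false x
  have e2 := rp_rot h true x
  simp only [Bool.false_eq_true, if_false, if_true] at e1 e2
  obtain ⟨k, hk⟩ := hx false
  unfold fl
  rw [e1, e2]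
  exact ⟨st_present h x0 x1, st_tr h false x0 x1, st_tr h true x0 x1,
    lbl_LI (t := false) h x0 x1, lbl_LI (t := true) h x0 x1, st_vr h x0 x1 hk⟩

theorem fl_meas (l C B : ℝ) (b : La) :
    @MeasurableSet _ (borel UnitAddCircle) (fl l C B ⁻¹' {b}) := by
  have e : fl l C B ⁻¹' {b} = rp ⁻¹' ({y | st l C B y = b.1} ∩ ({y | lbl l C B false y = b.2.1} ∩
      {y | lbl l C B true y = b.2.2})) := by
    ext x
    simp only [fl, Set.mem_preimage, Set.mem_singleton_iff, Set.mem_inter_iff, Set.mem_ofPred_eq]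
    constructor
    · rintro rfl
      exact ⟨rfl, rfl, rfl⟩
    · rintro ⟨h1, h2, h3⟩
      rw [h1, h2, h3]
  rw [e]
  exact meas_rp ((meas_st l C B (measurableSet_singleton b.1)).inter
    ((meas_lbl l C B false _).inter (meas_lbl l C B true _)))

theorem Gd_residual {l C B : ℝ} (h : IsP l C B) : Gd l C B ∈ residual UnitAddCircle := by
  have hd : Dense (interior (Gd l C B)) := by
    rw [dense_iff_inter_open]
    rintro U hU ⟨x, hx⟩
    obtain ⟨x0, x1⟩ := rp_mem x
    have hV : IsOpen ((fun r : ℝ => (r : UnitAddCircle)) ⁻¹' U) :=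
      hU.preimage (AddCircle.continuous_mk' 1)
    have hmem : rp x ∈ (fun r : ℝ => (r : UnitAddCircle)) ⁻¹' U := by
      show ((rp x : ℝ) : UnitAddCircle) ∈ U
      rw [coe_rp]; exact hx
    obtain ⟨ε, hε, hball⟩ := Metric.isOpen_iff.1 hV _ hmem
    obtain ⟨a, b, hab, ha, hb, hz⟩ := dens h x0 x1 hε
    have hop : IsOpen ((fun r : ℝ => (r : UnitAddCircle)) '' Set.Ioo a b) :=
      QuotientAddGroup.isOpenMap_coe _ isOpen_Ioo
    have hsub : (fun r : ℝ => (r : UnitAddCircle)) '' Set.Ioo a b ⊆ Gd l C B := by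
      rintro _ ⟨z, ⟨hz1, hz2⟩, rfl⟩
      obtain ⟨z0, z1, z2⟩ := hz z hz1 hz2
      intro t
      show ∃ k, lab l C B k t (rp (z : UnitAddCircle)) ≠ none
      rw [rp_coe z0 z1]
      exact z2 t
    refine ⟨(((a + b) / 2 : ℝ) : UnitAddCircle), ?_, ?_⟩
    · apply hball
      rw [Metric.mem_ball, Real.dist_eq, abs_lt]
      constructor <;> linarith
    · rw [mem_interior]
      exact ⟨_, hsub, hop, ⟨(a + b) / 2, ⟨by linarith, by linarith⟩, rfl⟩⟩
  exact Filter.mem_of_superset (residual_of_dense_open isOpen_interior hd) interior_subset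

theorem open_smul {k : ℤ} (hk : k ≠ 0) : IsOpenMap (fun x : UnitAddCircle => k • x) := by
  have hs : Function.Surjective (fun r : ℝ => (r : UnitAddCircle)) := QuotientAddGroup.mk_surjective
  have hc : Continuous (fun r : ℝ => (r : UnitAddCircle)) := AddCircle.continuous_mk' 1
  refine IsOpenMap.of_comp hc hs ?_
  have e : (fun x : UnitAddCircle => k • x) ∘ (fun r : ℝ => (r : UnitAddCircle)) =
      (fun r : ℝ => (r : UnitAddCircle)) ∘ (fun r : ℝ => (k : ℝ) * r) := by
    funext r
    show k • ((r : ℝ) : UnitAddCircle) = (((k : ℝ) * r : ℝ) : UnitAddCircle)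
    rw [← AddCircle.coe_zsmul]
    simp
  rw [e]
  refine IsOpenMap.comp QuotientAddGroup.isOpenMap_coe ?_
  exact (Homeomorph.mulLeft₀ (k : ℝ) (by exact_mod_cast hk)).isOpenMap

/-- The problem is solvable on the circle. -/
theorem solvable {n : ℕ} {α : Fin n → ℝ}
    (hα : LinearIndependent ℚ (Fin.cons 1 α : Fin (n + 1) → ℝ)) {v w : Fin n → ℤ} {k : ℤ}
    {l C B : ℝ} (h : IsP l C B) (hk : k ≠ 0)
    (hv : ∃ m : ℤ, k * ∑ i, (v i : ℝ) * α i = 4 * l - C + m)
    (hw : ∃ m : ℤ, k * ∑ i, (w i : ℝ) * α i = l + m) :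
    BaireSolvable (rotAct n α hα) (PiL n v w) := by
  have hc : ∀ g : Fin n → ℤ, Continuous (fun x : UnitAddCircle =>
      k • (x + ((∑ i, (g i : ℝ) * α i : ℝ) : UnitAddCircle))) := fun g =>
    (continuous_zsmul k).comp (continuous_add_const _)
  have ho : ∀ g : Fin n → ℤ, IsOpenMap (fun x : UnitAddCircle =>
      k • (x + ((∑ i, (g i : ℝ) * α i : ℝ) : UnitAddCircle))) := fun g =>
    (open_smul hk).comp (Homeomorph.addRight _).isOpenMap
  let G : Set UnitAddCircle := {x | ∀ g : Fin n → ℤ, k • ((rotAct n α hα).act g x) ∈ Gd l C B}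
  have hG : G ∈ residual UnitAddCircle := by
    have : ∀ᶠ x in residual UnitAddCircle, ∀ g : Fin n → ℤ,
        k • ((rotAct n α hα).act g x) ∈ Gd l C B := by
      rw [eventually_countable_forall]
      exact fun g => (tendsto_residual_of_isOpenMap (hc g) (ho g)).eventually (Gd_residual h)
    exact this
  have hact : ∀ (g : Fin n → ℤ) (s : ℝ), (∃ m : ℤ, k * ∑ i, (g i : ℝ) * α i = s + m) →
      ∀ x, k • ((rotAct n α hα).act g x) = k • x + (s : UnitAddCircle) := by
    rintro g s ⟨m, hm⟩ x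
    show k • (x + ((∑ i, (g i : ℝ) * α i : ℝ) : UnitAddCircle)) = _
    rw [smul_add, ← AddCircle.coe_zsmul, zsmul_eq_mul, hm, coe_add_int]
  refine extend _ _ hG ?_ ?_ (f := fun x => fl l C B (k • x)) ?_ ?_
  · intro g x hx g'
    rw [← (rotAct n α hα).add]
    exact hx _
  · have := dense_of_mem_residual hG
    exact this.nonempty
  · intro b
    have e : (fun x : UnitAddCircle => fl l C B (k • x)) ⁻¹' {b} =
        (fun x : UnitAddCircle => k • x) ⁻¹' (fl l C B ⁻¹' {b}) := rfl
    have h1 : BaireMeasurableSet (fl l C B ⁻¹' {b}) := by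
      borelize UnitAddCircle
      exact (fl_meas l C B b).baireMeasurableSet
    exact h1.preimage (continuous_zsmul k) (open_smul hk)
  · intro x hx
    show Rule (fl l C B (k • (rotAct n α hα).act 0 x)) (fl l C B (k • (rotAct n α hα).act v x))
      (fl l C B (k • (rotAct n α hα).act w x))
    rw [hact v _ hv, hact w _ hw, (rotAct n α hα).zero]
    refine fl_rule h ?_
    have := hx 0
    rwa [(rotAct n α hα).zero] at this

end Pool.Agent.LibRotU
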