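import Mathlib

/-!
# Independence
-/

namespace Pool.Agent.LibRotU

theorem no_root (A B C : ℤ) (hA : ∀ x y : ZMod 2, x ^ 3 + A * x ^ 2 * y + B * x * y ^ 2 + C * y ^ 3 = 0 →
    x = 0 ∧ y = 0) (r : ℚ) (hr : r ^ 3 + A * r ^ 2 + B * r + C = 0) : False := by
  have hd : (r.den : ℚ) ≠ 0 := by exact_mod_cast r.den_nz
  have e : (r.num : ℚ) = r * r.den := (Rat.mul_den_eq_num r).symm
  have h1 : (r.num : ℚ) ^ 3 + A * r.num ^ 2 * r.den + B * r.num * r.den ^ 2 + C * r.den ^ 3 = 0 := by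
    rw [e]
    linear_combination (r.den : ℚ) ^ 3 * hr
  have h2 : r.num ^ 3 + A * r.num ^ 2 * (r.den : ℤ) + B * r.num * (r.den : ℤ) ^ 2 +
      C * (r.den : ℤ) ^ 3 = 0 := by exact_mod_cast h1
  have h3 := congrArg (Int.cast : ℤ → ZMod 2) h2
  push_cast at h3
  obtain ⟨h4, h5⟩ := hA _ _ h3
  have h6 : (2 : ℤ) ∣ r.num := (ZMod.intCast_zmod_eq_zero_iff_dvd _ 2).1 h4
  have h7 : 2 ∣ r.den := (ZMod.natCast_eq_zero_iff _ 2).1 h5
  have h8 : 2 ∣ r.num.natAbs := by
    have := Int.natAbs_dvd_natAbs.2 h6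
    simpa using this
  have h9 := Nat.dvd_gcd h8 h7
  rw [r.reduced] at h9
  omega

theorem indep3 {l : ℝ} (hl : l ^ 3 - 7 * l ^ 2 + 12 * l - 1 = 0) :
    LinearIndependent ℚ (![1, l * (4 - l), l] : Fin 3 → ℝ) := by
  have irr : ∀ r : ℚ, l ≠ r := by
    intro r hr
    rw [hr] at hl
    have h1 : r ^ 3 + (-7 : ℤ) * r ^ 2 + (12 : ℤ) * r + (-1 : ℤ) = 0 := by
      have : ((r ^ 3 + (-7 : ℤ) * r ^ 2 + (12 : ℤ) * r + (-1 : ℤ) : ℚ) : ℝ) = 0 := by
        push_cast; linarith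
      exact_mod_cast this
    exact no_root (-7) 12 (-1) (by decide) r h1
  have quad : ∀ s t : ℚ, l ^ 2 ≠ s * l + t := by
    intro s t hst
    have h1 : ((s ^ 2 + t - 7 * s + 12 : ℚ) : ℝ) * l + ((s * t - 7 * t - 1 : ℚ) : ℝ) = 0 := by
      push_cast
      linear_combination hl - (l + s - 7) * hst
    by_cases hz : s ^ 2 + t - 7 * s + 12 = 0
    · rw [hz] at h1
      have h2 : s * t - 7 * t - 1 = 0 := by
        have : ((s * t - 7 * t - 1 : ℚ) : ℝ) = 0 := by simpa using h1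
        exact_mod_cast this
      refine no_root (-14) 61 (-83) (by decide) s ?_
      push_cast
      linear_combination (s - 7) * hz - h2
    · apply irr (-(s * t - 7 * t - 1) / (s ^ 2 + t - 7 * s + 12))
      have hz' : ((s ^ 2 + t - 7 * s + 12 : ℚ) : ℝ) ≠ 0 := by exact_mod_cast hz
      rw [Rat.cast_div, eq_div_iff hz']
      push_cast at h1 ⊢
      linarith
  rw [Fintype.linearIndependent_iff]
  intro g hg
  rw [Fin.sum_univ_three] at hg
  simp only [Matrix.cons_val_zero, Matrix.cons_val_one, Matrix.cons_val, Rat.smul_def] at hg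
  have hb : g 1 = 0 := by
    by_contra hb
    have hb' : (g 1 : ℝ) ≠ 0 := by exact_mod_cast hb
    apply quad ((4 * g 1 + g 2) / g 1) (g 0 / g 1)
    push_cast
    field_simp
    linarith
  rw [hb] at hg
  have hc : g 2 = 0 := by
    by_contra hc
    have hc' : (g 2 : ℝ) ≠ 0 := by exact_mod_cast hc
    apply irr (-g 0 / g 2)
    push_cast
    field_simp
    push_cast at hg
    linarith
  rw [hc] at hg
  have ha : g 0 = 0 := by
    have : (g 0 : ℝ) = 0 := by push_cast at hg; linarith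
    exact_mod_cast this
  intro i
  fin_cases i
  · exact ha
  · exact hb
  · exact hc

theorem exists_notMem_span {m : ℕ} (u : Fin m → ℝ) : ∃ x : ℝ, x ∉ Submodule.span ℚ (Set.range u) := by
  by_contra hc
  push Not at hc
  have ht : Submodule.span ℚ (Set.range u) = ⊤ := by
    rw [eq_top_iff]
    exact fun x _ => hc x
  have hf : Module.Finite ℚ ℝ := ⟨⟨(Set.finite_range u).toFinset, by
    rw [Set.Finite.coe_toFinset]; exact ht⟩⟩
  have h1 := Module.rank_lt_aleph0 ℚ ℝ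
  rw [Real.rank_rat_real] at h1
  exact absurd h1 (not_lt.2 Cardinal.aleph0_le_continuum)

theorem exists_alpha {l : ℝ} (hl : l ^ 3 - 7 * l ^ 2 + 12 * l - 1 = 0) (m : ℕ) :
    ∃ α : Fin (m + 2) → ℝ, LinearIndependent ℚ (Fin.cons 1 α : Fin (m + 2 + 1) → ℝ) ∧
      α 0 = l * (4 - l) ∧ α 1 = l := by
  induction m with
  | zero =>
    refine ⟨![l * (4 - l), l], ?_, rfl, rfl⟩
    exact indep3 hl
  | succ m ih =>
    obtain ⟨α, h1, h2, h3⟩ := ih
    obtain ⟨x, hx⟩ := exists_notMem_span (Fin.cons 1 α : Fin (m + 2 + 1) → ℝ)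
    refine ⟨Fin.snoc α x, ?_, ?_, ?_⟩
    · rw [Fin.cons_snoc_eq_snoc_cons, linearIndependent_finSnoc]
      exact ⟨h1, hx⟩
    · have : (0 : Fin (m + 1 + 2)) = Fin.castSucc (0 : Fin (m + 2)) := rfl
      rw [this, Fin.snoc_castSucc, h2]
    · have : (1 : Fin (m + 1 + 2)) = Fin.castSucc (1 : Fin (m + 2)) := rfl
      rw [this, Fin.snoc_castSucc, h3]

end Pool.Agent.LibRotU
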