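import Pool.Agent.LibRotU.Circle
import Pool.Agent.LibRotU.Indep

/-!
# Some actions by independent irrational rotations are not Baire-universal

`LCL`, `FreeBorelAction`, `BaireSolvable`, `InBaire`, `BaireUniversal` are in
`Pool/Agent/LibRotU/Def.lean`; `rotAct`, the action by independent irrational rotations, is in
`Pool/Agent/LibRotU/Circle.lean`.
-/

namespace Pool.Agent.LibRotU.CubicRotationsOld

open Pool.Agent.LibRotU

/-- There is exactly one `l` in `(0, 1 / 4)` with `l ^ 3 - 7 * l ^ 2 + 12 * l - 1 = 0`. If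
`1, α₁, …, αₙ` are linearly independent over `ℚ` and some integer multiples of integer
combinations of the `αᵢ` are congruent to `l * (4 - l)` and `l` modulo `1`, then the action of
`ℤ ^ n` on the circle by the rotations `αᵢ` is not Baire-universal. For every `n ≥ 2` there are
such `α`, even with `α₁ = l * (4 - l)` and `α₂ = l`. -/
theorem result :
    (∃! l : ℝ, 0 < l ∧ l < 1 / 4 ∧ l ^ 3 - 7 * l ^ 2 + 12 * l - 1 = 0) ∧
    ∀ l : ℝ, 0 < l → l < 1 / 4 → l ^ 3 - 7 * l ^ 2 + 12 * l - 1 = 0 →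
      (∀ (n : ℕ) (α : Fin n → ℝ) (hα : LinearIndependent ℚ (Fin.cons 1 α : Fin (n + 1) → ℝ))
        (v w : Fin n → ℤ) (k : ℤ),
        (∃ m : ℤ, k * ∑ i, (v i : ℝ) * α i = l * (4 - l) + m) →
        (∃ m : ℤ, k * ∑ i, (w i : ℝ) * α i = l + m) →
        ¬ BaireUniversal (rotAct n α hα)) ∧
      (∀ m : ℕ, ∃ (α : Fin (m + 2) → ℝ)
        (hα : LinearIndependent ℚ (Fin.cons 1 α : Fin (m + 2 + 1) → ℝ)),
        α 0 = l * (4 - l) ∧ α 1 = l ∧ ¬ BaireUniversal (rotAct (m + 2) α hα)) := by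
  have main : ∀ l : ℝ, 0 < l → l < 1 / 4 → l ^ 3 - 7 * l ^ 2 + 12 * l - 1 = 0 →
      ∀ (n : ℕ) (α : Fin n → ℝ) (hα : LinearIndependent ℚ (Fin.cons 1 α : Fin (n + 1) → ℝ))
        (v w : Fin n → ℤ) (k : ℤ),
        (∃ m : ℤ, k * ∑ i, (v i : ℝ) * α i = l * (4 - l) + m) →
        (∃ m : ℤ, k * ∑ i, (w i : ℝ) * α i = l + m) →
        ¬ BaireUniversal (rotAct n α hα) := by
    intro l h0 h1 hl n α hα v w k hv hw hU
    obtain ⟨m, hm⟩ := hv
    have a0 : 0 < l * (4 - l) := by nlinarith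
    have a1 : l * (4 - l) < 1 := by nlinarith
    have noint : ∀ m : ℤ, l * (4 - l) + m ≠ 0 := by
      intro m hm
      have b0 : (0 : ℝ) < -m := by linarith
      have b1 : (-m : ℝ) < 1 := by linarith
      have c0 : 0 < -m := by exact_mod_cast b0
      have c1 : -m < 1 := by exact_mod_cast b1
      omega
    have hk : k ≠ 0 := by
      rintro rfl
      apply noint m
      rw [← hm]
      simp
    have hv0 : v ≠ 0 := by
      rintro rfl
      apply noint m
      rw [← hm]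
      simp
    have hs := solvable hα (isP_of hl h0 h1) hk (v := v) (w := w)
      ⟨m, by rw [hm]; ring⟩ hw
    exact unsolvable hv0 hl h0 h1 ((hU _).1 hs (FP n) (shAct n))
  refine ⟨?_, fun l h0 h1 hl => ⟨main l h0 h1 hl, fun m => ?_⟩⟩
  · have hc : ContinuousOn (fun x : ℝ => x ^ 3 - 7 * x ^ 2 + 12 * x - 1) (Set.Icc 0 (1 / 4)) := by
      fun_prop
    have hivt := intermediate_value_Ioo (by norm_num : (0 : ℝ) ≤ 1 / 4) hc
    have h0 : (0 : ℝ) ∈ Set.Ioo ((fun x : ℝ => x ^ 3 - 7 * x ^ 2 + 12 * x - 1) 0)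
        ((fun x : ℝ => x ^ 3 - 7 * x ^ 2 + 12 * x - 1) (1 / 4)) := by
      constructor <;> norm_num
    obtain ⟨l, ⟨l0, l1⟩, hl⟩ := hivt h0
    refine ⟨l, ⟨l0, l1, hl⟩, ?_⟩
    rintro x ⟨x0, x1, hx⟩
    have hl' : l ^ 3 - 7 * l ^ 2 + 12 * l - 1 = 0 := hl
    have e : (x - l) * (x ^ 2 + x * l + l ^ 2 - 7 * (x + l) + 12) = 0 := by
      linear_combination hx - hl'
    rcases mul_eq_zero.1 e with h | h
    · linarith
    · exfalso
      nlinarith [mul_pos x0 l0, sq_nonneg x, sq_nonneg l]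
  · obtain ⟨α, hα, e0, e1⟩ := exists_alpha hl m
    refine ⟨α, hα, e0, e1, main l h0 h1 hl (m + 2) α hα (Pi.single 0 1) (Pi.single 1 1) 1 ?_ ?_⟩
    · refine ⟨0, ?_⟩
      rw [← e0, Finset.sum_eq_single 0]
      · simp
      · intro b _ hb
        simp [Pi.single_eq_of_ne hb]
      · simp
    · refine ⟨0, ?_⟩
      rw [Finset.sum_eq_single 1]
      · simp [e1]
      · intro b _ hb
        simp [Pi.single_eq_of_ne hb]
      · simp

end Pool.Agent.LibRotU.CubicRotationsOld
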