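import Mathlib

/-!
# LCL problems and free Borel actions of `ℤ ^ n`
-/

namespace Pool.Agent.LibRotU

/-- An LCL problem on `ℤ ^ n`: a finite window, a finite set of labels and the allowed
labelings of the window. -/
structure LCL (n : ℕ) where
  W : Finset (Fin n → ℤ)
  L : Type
  fin : Finite L
  A : Set (W → L)

/-- A free Borel action of `ℤ ^ n` on a topological space. -/
structure FreeBorelAction (n : ℕ) (X : Type) [TopologicalSpace X] where
  act : (Fin n → ℤ) → X → X
  zero : ∀ x, act 0 x = x
  add : ∀ g h x, act (g + h) x = act g (act h x)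
  meas : ∀ g, @Measurable X X (borel X) (borel X) (act g)
  free : ∀ g x, act g x = x → g = 0

/-- A labeling whose restriction to every translate of the window is allowed. -/
def IsLabeling {n : ℕ} {X : Type} [TopologicalSpace X] (a : FreeBorelAction n X) (Pi : LCL n)
    (f : X → Pi.L) : Prop :=
  ∀ x, (fun w : Pi.W => f (a.act w x)) ∈ Pi.A

/-- A Baire measurable map to a finite set. -/
def BaireMeas {X L : Type} [TopologicalSpace X] (f : X → L) : Prop :=
  ∀ b : L, BaireMeasurableSet (f ⁻¹' {b})

/-- The problem has a Baire measurable solution on the action. -/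
def BaireSolvable {n : ℕ} {X : Type} [TopologicalSpace X] (a : FreeBorelAction n X)
    (Pi : LCL n) : Prop :=
  ∃ f : X → Pi.L, BaireMeas f ∧ IsLabeling a Pi f

/-- The class `BAIRE(ℤ ^ n)`. -/
def InBaire (n : ℕ) (Pi : LCL n) : Prop :=
  ∀ (X : Type) [TopologicalSpace X] [PolishSpace X] (a : FreeBorelAction n X), BaireSolvable a Pi

/-- Baire-universal actions. -/
def BaireUniversal {n : ℕ} {X : Type} [TopologicalSpace X] [PolishSpace X]
    (a : FreeBorelAction n X) : Prop :=
  ∀ Pi : LCL n, BaireSolvable a Pi ↔ InBaire n Pi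

end Pool.Agent.LibRotU
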