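import Pool.Agent.LibRotU.Shift

/-!
# The shift has no Baire measurable eigenfunctions
-/

namespace Pool.Agent.LibRotU

/-- The `σ`-algebra of Baire measurable sets. -/
@[reducible] def mB (X : Type) [TopologicalSpace X] : MeasurableSpace X :=
  eventuallyMeasurableSpace (borel X) (residual X)

theorem FP_nonempty (n : ℕ) : Nonempty (FP n) := by
  refine ⟨⟨fun h => decide (h = 0), FP_mem.2 fun g hg => ⟨0, ?_⟩⟩⟩
  simp [hg]

/-- Multiples close to integers are integers. -/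
theorem int_of_close {β : ℝ} {M : ℕ} (h : ∀ i : ℤ, (M : ℤ) ≤ i → ∃ m : ℤ, |i * β - m| < 1 / 8) :
    ∃ m : ℤ, β = m := by
  have key : ∀ k : ℕ, ∀ i : ℤ, (M : ℤ) ≤ i → ∀ m : ℤ, |i * β - m| < 1 / 8 →
      |i * β - m| < 1 / 8 / 2 ^ k := by
    intro k
    induction k with
    | zero => intro i _ m hm; simpa using hm
    | succ k ih =>
      intro i hi m hm
      obtain ⟨m', hm'⟩ := h (2 * i) (by omega)
      have e : m' = 2 * m := by
        rw [abs_lt] at hm hm'
        push_cast at hm'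
        have h1 : (m' : ℝ) - 2 * m < 1 := by linarith [hm.1, hm.2, hm'.1, hm'.2]
        have h2 : (-1 : ℝ) < m' - 2 * m := by linarith [hm.1, hm.2, hm'.1, hm'.2]
        have h3 : m' - 2 * m < 1 := by exact_mod_cast h1
        have h4 : -1 < m' - 2 * m := by exact_mod_cast h2
        omega
      have := ih (2 * i) (by omega) (2 * m) (by rw [e] at hm'; exact_mod_cast hm')
      have e2 : ((2 * i : ℤ) : ℝ) * β - ((2 * m : ℤ) : ℝ) = 2 * (i * β - m) := by push_cast; ring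
      rw [e2, abs_mul, abs_of_pos (by norm_num : (0 : ℝ) < 2)] at this
      rw [pow_succ]
      have e3 : (1 : ℝ) / 8 / (2 ^ k * 2) = (1 / 8 / 2 ^ k) / 2 := by field_simp
      rw [e3]
      linarith
  have key2 : ∀ i : ℤ, (M : ℤ) ≤ i → ∃ m : ℤ, i * β = m := by
    intro i hi
    obtain ⟨m, hm⟩ := h i hi
    refine ⟨m, ?_⟩
    by_contra hne
    have hpos : 0 < |i * β - m| := abs_pos.2 (sub_ne_zero.2 hne)
    obtain ⟨k, hk⟩ := exists_pow_lt_of_lt_one hpos (by norm_num : (1 / 2 : ℝ) < 1)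
    have := key k i hi m hm
    have e3 : (1 : ℝ) / 8 / 2 ^ k = (1 / 2) ^ k / 8 := by rw [one_div_pow]; ring
    rw [e3] at this
    have : (0 : ℝ) < (1 / 2) ^ k := by positivity
    linarith
  obtain ⟨m1, h1⟩ := key2 M le_rfl
  obtain ⟨m2, h2⟩ := key2 (M + 1) (by omega)
  refine ⟨m2 - m1, ?_⟩
  push_cast at h1 h2 ⊢
  linarith

/-- There is no Baire measurable eigenfunction with a nontrivial eigenvalue. -/
theorem no_eigen {n : ℕ} {v : Fin n → ℤ} (hv : v ≠ 0) {β : ℝ} {φ : FP n → ℝ}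
    (hφ : @Measurable _ _ (mB (FP n)) _ φ)
    (he : ∀ᶠ y in residual (FP n), ∀ i : ℤ, ∃ m : ℤ, φ (sh (i • v) y) = φ y + i * β + m) :
    ∃ m : ℤ, β = m := by
  have hne := FP_nonempty n
  let E : ℤ → Set (FP n) := fun j => φ ⁻¹' Set.Ico ((j : ℝ) / 8) ((j + 1 : ℝ) / 8)
  have hE : ∀ j, BaireMeasurableSet (E j) := fun j => hφ measurableSet_Ico
  have hcov : (⋃ j, E j) = Set.univ := by
    refine Set.eq_univ_of_forall fun y => Set.mem_iUnion.2 ⟨⌊8 * φ y⌋, ?_, ?_⟩
    · have := Int.floor_le (8 * φ y)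
      linarith
    · have := Int.lt_floor_add_one (8 * φ y)
      linarith
  obtain ⟨j, hj⟩ : ∃ j, ¬ IsMeagre (E j) := by
    by_contra hc
    push Not at hc
    have : IsMeagre (⋃ j, E j) := isMeagre_iUnion hc
    rw [hcov] at this
    exact not_isMeagre_of_isOpen isOpen_univ Set.univ_nonempty this
  obtain ⟨U, hU, hEU⟩ := (hE j).residualEq_isOpen
  have hUne : U.Nonempty := by
    by_contra hc
    rw [Set.not_nonempty_iff_eq_empty] at hc
    rw [hc] at hEU
    apply hj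
    have h1 : ∀ᶠ y in residual (FP n), y ∈ (E j)ᶜ := by
      filter_upwards [hEU] with y hy
      have hy' : (y ∈ E j) = (y ∈ (∅ : Set (FP n))) := hy
      intro hyE
      rw [hy'] at hyE
      exact hyE
    exact h1
  obtain ⟨M, hM⟩ := sh_mix hU hUne hv
  refine int_of_close (M := M) fun i hi => ?_
  obtain ⟨y0, hy0, hy0'⟩ := hM i hi
  have hR1 : ∀ᶠ y in residual (FP n), y ∈ E j ↔ y ∈ U := by
    filter_upwards [hEU] with y hy
    exact iff_of_eq hy
  have hR2 : ∀ᶠ y in residual (FP n), sh (i • v) y ∈ E j ↔ sh (i • v) y ∈ U :=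
    (tendsto_residual_of_isOpenMap (sh_continuous (i • v)) (shH (i • v)).isOpenMap).eventually hR1
  have hd := dense_of_mem_residual (hR1.and (hR2.and he))
  obtain ⟨y, hyU, hy⟩ := hd.inter_open_nonempty (U ∩ sh (i • v) ⁻¹' U)
    (hU.inter (hU.preimage (sh_continuous _))) ⟨y0, hy0, hy0'⟩
  obtain ⟨h1, h2, h3⟩ := hy
  obtain ⟨m, hm⟩ := h3 i
  have a1 := h1.2 hyU.1
  have a2 := h2.2 hyU.2
  refine ⟨-m, ?_⟩
  have b1 : (j : ℝ) / 8 ≤ φ y ∧ φ y < (j + 1 : ℝ) / 8 := a1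
  have b2 : (j : ℝ) / 8 ≤ φ (sh (i • v) y) ∧ φ (sh (i • v) y) < (j + 1 : ℝ) / 8 := a2
  rw [hm] at b2
  rw [abs_lt]
  push_cast
  constructor <;> linarith [b1.1, b1.2, b2.1, b2.2]

end Pool.Agent.LibRotU
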