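import Mathlib

/-!
# Finite combinatorics of the block substitution
-/

namespace Pool.Agent.LibRotU

/-- Digits: column and row of a site in its block. -/
abbrev Dg := Fin 3 × Fin 4

/-- States: a digit together with the type of the block. -/
abbrev St := Dg × Fin 4

/-- Height drop of the bottom side of a block of type `p`. -/
def ca (p : Fin 4) : ℕ := if 2 ≤ p.val then 1 else 0
/-- Height drop of the left side. -/
def cb (p : Fin 4) : ℕ := if 3 ≤ p.val then 1 else 0
/-- Height drop of the diagonal. -/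
def cg (p : Fin 4) : ℕ := if 1 ≤ p.val then 1 else 0

/-- Top row of the column `i` in a block of type `p`. -/
def tp (i : Fin 3) (p : Fin 4) : ℕ := if i.val ≤ 1 then 3 - cb p else 3 - cg p

/-- The digit is present in a block of the given type. -/
def present (s : St) : Bool := decide (s.1.2.val ≤ tp s.1.1 s.2)

/-- One step right: the direction of the crossing (`none` if the block is not left) and the new
digit. -/
def nd1 (s : St) : Option Bool × Dg :=
  if s.1.2.val < 2 then
    if s.1.1.val = 0 then (none, (1, s.1.2))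
    else if s.1.1.val = 1 then
      if s.1.2.val + ca s.2 < 2 then (none, (2, Fin.ofNat 4 (s.1.2.val + ca s.2)))
      else (some false, (0, 2))
    else (some false, (0, s.1.2))
  else
    if s.1.1.val = 2 then (some false, (0, Fin.ofNat 4 (s.1.2.val + ca s.2)))
    else if s.1.1.val = 1 ∧ s.1.2.val = 3 ∧ cg s.2 = 1 then (some true, (2, 0))
    else (none, (Fin.ofNat 3 (s.1.1.val + 1), s.1.2))

/-- One step up. -/
def nd2 (s : St) : Option Bool × Dg :=
  if s.1.2.val = 0 then (none, (s.1.1, 1))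
  else if s.1.2.val = 1 then
    if s.1.1.val ≤ 1 then (none, (Fin.ofNat 3 (s.1.1.val + 1), 2)) else (some false, (0, 2))
  else if s.1.2.val < tp s.1.1 s.2 then (none, (s.1.1, Fin.ofNat 4 (s.1.2.val + 1)))
  else (some true, (s.1.1, 0))

/-- One step in direction `t` (`false`: right, `true`: up). -/
def nd (t : Bool) (s : St) : Option Bool × Dg := if t = true then nd2 s else nd1 s

/-- The type of a site (as a block of the level below). -/
def qt (s : St) : Fin 4 :=
  if s.1.1.val = 0 ∧ 2 ≤ s.1.2.val then (if s.1.2.val = tp 0 s.2 then 3 else 2)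
  else if s.1.1.val = 2 ∧ s.1.2.val < 2 then 2
  else if s.1.1.val = 2 ∧ s.1.2.val = tp 2 s.2 then 1
  else 0

/-- Transition of states in direction `t`. -/
def Tr (t : Bool) (s s' : St) : Prop :=
  (nd t s).2 = s'.1 ∧ ((nd t s).1 = none → s'.2 = s.2)

instance (t : Bool) (s s' : St) : Decidable (Tr t s s') := by unfold Tr; infer_instance

/-- Labels of pairs: direction, digit of the first site, state of the block. -/
abbrev Lb := Bool × Dg × St

/-- The label `m` is a correct label of an internal pair in direction `t` starting at `s`. -/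
def LI (t : Bool) (s : St) (m : Lb) : Prop :=
  m.1 = t ∧ m.2.1 = s.1 ∧ qt m.2.2 = s.2 ∧ present m.2.2 = true

/-- A window of states. -/
def Win (s0 s1 s2 s3 : St) : Prop :=
  present s0 = true ∧ present s1 = true ∧ present s2 = true ∧ present s3 = true ∧
  Tr false s0 s1 ∧ Tr true s0 s2 ∧ Tr true s1 s3 ∧ Tr false s2 s3

instance (s0 s1 s2 s3 : St) : Decidable (Win s0 s1 s2 s3) := by unfold Win; infer_instance

/-- Crossing pattern of a window. -/
def pat (s0 s1 s2 : St) : (Option Bool × Option Bool) × (Option Bool × Option Bool) :=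
  (((nd1 s0).1, (nd1 s2).1), ((nd2 s0).1, (nd2 s1).1))

/-- To check a property of all windows it suffices to run over the first state and the three other
types. -/
theorem win_all (P : St → St → St → St → Bool)
    (h : ∀ (s0 : St) (p1 p2 p3 : Fin 4),
      (decide (Win s0 ((nd1 s0).2, p1) ((nd2 s0).2, p2) ((nd2 ((nd1 s0).2, p1)).2, p3)) = true →
        P s0 ((nd1 s0).2, p1) ((nd2 s0).2, p2) ((nd2 ((nd1 s0).2, p1)).2, p3) = true))
    {s0 s1 s2 s3 : St} (hw : Win s0 s1 s2 s3) : P s0 s1 s2 s3 = true := by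
  obtain ⟨d1, p1⟩ := s1
  obtain ⟨d2, p2⟩ := s2
  obtain ⟨d3, p3⟩ := s3
  have e1 : d1 = (nd1 s0).2 := hw.2.2.2.2.1.1.symm
  have e2 : d2 = (nd2 s0).2 := hw.2.2.2.2.2.1.1.symm
  subst e1 e2
  have e3 : d3 = (nd2 ((nd1 s0).2, p1)).2 := hw.2.2.2.2.2.2.1.1.symm
  subst e3
  exact h s0 p1 p2 p3 (decide_eq_true hw)

/-- Kinds of windows: `0` all four sites in one block, `1` vertical border, `2` horizontal border,
`3`, `4` the north-east site is in another block, `5`, `6` the south-west site is alone, `7` four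
blocks meet. -/
def kind (s : St) : Fin 8 :=
  if s.1.2.val = 0 then
    (if s.1.1.val = 0 then 0 else if s.1.1.val = 1 then (if ca s.2 = 0 then 0 else 3) else 1)
  else if s.1.2.val = 1 then
    (if s.1.1.val = 0 then 0 else if s.1.1.val = 1 then (if ca s.2 = 0 then 3 else 1) else 5)
  else if s.1.1.val = 2 then (if s.1.2.val < tp 2 s.2 then 1 else 7)
  else if s.1.2.val < tp 0 s.2 then
    (if s.1.1.val = 0 then 0 else if s.1.2.val < tp 2 s.2 then 0 else 4)
  else (if s.1.1.val = 1 ∧ cg s.2 = 1 ∧ s.1.2.val = 3 then 6 else 2)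

/-- The kind of the window from its north-west site (when the upper pair is internal). -/
def kind2 (s : St) : Fin 8 :=
  if s.1.2.val = 0 then (if s.1.1.val = 1 ∧ ca s.2 = 1 then 6 else 2)
  else if s.1.1.val = 0 ∧ s.1.2.val = 2 then 5
  else 0

/-- The kind of the window from its south-east site (when the right pair is internal). -/
def kind1 (s : St) : Fin 8 :=
  if s.1.1.val = 0 then (if s.1.2.val = 1 then 5 else 1)
  else if s.1.1.val = 2 ∧ s.1.2.val = 0 ∧ ca s.2 = 1 then 6
  else 0

/-- The crossing pattern of a kind. -/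
def patK (k : Fin 8) : (Option Bool × Option Bool) × (Option Bool × Option Bool) :=
  if k = 0 then ((none, none), (none, none))
  else if k = 1 then ((some false, some false), (none, none))
  else if k = 2 then ((none, none), (some true, some true))
  else if k = 3 then ((none, some false), (none, some false))
  else if k = 4 then ((none, some true), (none, some true))
  else if k = 5 then ((some false, none), (some false, none))
  else if k = 6 then ((some true, none), (some true, none))
  else ((some false, some false), (some true, some true))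

set_option maxRecDepth 100000 in
theorem win_fin (s0 : St) (p1 p2 p3 : Fin 4) :
    decide (Win s0 ((nd1 s0).2, p1) ((nd2 s0).2, p2) ((nd2 ((nd1 s0).2, p1)).2, p3)) = true →
      (decide (pat s0 ((nd1 s0).2, p1) ((nd2 s0).2, p2) = patK (kind s0)) &&
      decide (ca (qt s0) + cb (qt ((nd1 s0).2, p1)) = cb (qt s0) + ca (qt ((nd2 s0).2, p2))) &&
      decide (kind s0 = 1 → s0.1 ≠ (nd1 s0).2) && decide (kind s0 = 2 → s0.1 ≠ (nd2 s0).2) &&
      decide ((nd1 ((nd2 s0).2, p2)).1 = none → kind s0 = kind2 ((nd2 s0).2, p2)) &&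
      decide ((nd2 ((nd1 s0).2, p1)).1 = none → kind s0 = kind1 ((nd1 s0).2, p1))) = true := by
  revert s0 p1 p2 p3
  decide +kernel

theorem win_fin' {s0 s1 s2 s3 : St} (hw : Win s0 s1 s2 s3) :
    pat s0 s1 s2 = patK (kind s0) ∧ ca (qt s0) + cb (qt s1) = cb (qt s0) + ca (qt s2) ∧
    (kind s0 = 1 → s0.1 ≠ s1.1) ∧ (kind s0 = 2 → s0.1 ≠ s2.1) ∧
    ((nd1 s2).1 = none → kind s0 = kind2 s2) ∧ ((nd2 s1).1 = none → kind s0 = kind1 s1) := by
  have := win_all (fun s0 s1 s2 _ => decide (pat s0 s1 s2 = patK (kind s0)) &&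
    decide (ca (qt s0) + cb (qt s1) = cb (qt s0) + ca (qt s2)) &&
    decide (kind s0 = 1 → s0.1 ≠ s1.1) && decide (kind s0 = 2 → s0.1 ≠ s2.1) &&
    decide ((nd1 s2).1 = none → kind s0 = kind2 s2) &&
    decide ((nd2 s1).1 = none → kind s0 = kind1 s1)) win_fin hw
  simp only [Bool.and_eq_true, decide_eq_true_eq] at this
  obtain ⟨⟨⟨⟨⟨h1, h2⟩, h3⟩, h4⟩, h5⟩, h6⟩ := this
  exact ⟨h1, h2, h3, h4, h5, h6⟩

/-- The correct relation across a border in direction `X` between blocks with states `σ`, `σ'` and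
label `m` of the border. -/
def Cr (X : Bool) (σ σ' : St) (m : Lb) : Prop := Tr X σ σ' ∧ ((nd X σ).1 = none → LI X σ m)

/-- Consistency of the four labels around a vertex of kind `k`. -/
def KI (k : Fin 8) (m1 m1' m2 m2' : Lb) : Prop :=
  (k = 0 → m1.2.2 = m1'.2.2 ∧ m1.2.2 = m2.2.2 ∧ m1.2.2 = m2'.2.2) ∧
  (k = 1 → m1 = m1' ∧ Cr false m2.2.2 m2'.2.2 m1) ∧
  (k = 2 → m2 = m2' ∧ Cr true m1.2.2 m1'.2.2 m2) ∧
  (k = 3 ∨ k = 4 → m1.2.2 = m2.2.2 ∧ m1' = m2') ∧
  (k = 5 ∨ k = 6 → m1'.2.2 = m2'.2.2 ∧ m1 = m2) ∧ k ≠ 7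

/-- Internal pairs of a window carry correct labels. -/
def WI (s0 s1 s2 : St) (m1 m1' m2 m2' : Lb) : Prop :=
  ((nd1 s0).1 = none → LI false s0 m1) ∧ ((nd1 s2).1 = none → LI false s2 m1') ∧
  ((nd2 s0).1 = none → LI true s0 m2) ∧ ((nd2 s1).1 = none → LI true s1 m2')

/-- The vertex rule: the four labels around a vertex. -/
def VR (m1 m1' m2 m2' : Lb) : Prop :=
  ∃ s0 s1 s2 s3 : St, Win s0 s1 s2 s3 ∧ WI s0 s1 s2 m1 m1' m2 m2' ∧ KI (kind s0) m1 m1' m2 m2'

theorem LI_state {t t' : Bool} {s s' : St} {m : Lb} (h : LI t s m) (h' : LI t' s' m) : s = s' :=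
  Prod.ext (h.2.1.symm.trans h'.2.1) (h.2.2.1.symm.trans h'.2.2.1)

theorem kinds_cases : ∀ k k' : Fin 8, k' = k ∨ k = 7 ∨ k' = 7 ∨
    ((patK k).1.1 = none ∧ (patK k').1.1 = none) ∨ ((patK k).2.1 = none ∧ (patK k').2.1 = none) ∨
    ((patK k).1.2 = none ∧ (patK k').1.2 = none) ∨ ((patK k).2.2 = none ∧ (patK k').2.2 = none) ∨
    (k = 2 ∧ k' = 1) ∨ (k = 1 ∧ k' = 2) ∨ ((k = 3 ∨ k = 4) ∧ (k' = 5 ∨ k' = 6)) ∨
    ((k = 5 ∨ k = 6) ∧ (k' = 3 ∨ k' = 4)) := by decide

/-- Unique parsing. -/
theorem uniq {s0 s1 s2 s3 : St} {m1 m1' m2 m2' : Lb} (hw : Win s0 s1 s2 s3)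
    (hi : WI s0 s1 s2 m1 m1' m2 m2') (hv : VR m1 m1' m2 m2') (hk : kind s0 ≠ 7) :
    KI (kind s0) m1 m1' m2 m2' := by
  obtain ⟨t0, t1, t2, t3, hw', hi', hk'⟩ := hv
  obtain ⟨a1, -, a3, a4, a5, a6⟩ := win_fin' hw
  obtain ⟨b1, -, b3, b4, b5, b6⟩ := win_fin' hw'
  have hkk : kind t0 = kind s0 := by
    have hk7 : kind t0 ≠ 7 := hk'.2.2.2.2.2
    -- common internal pair
    have c1 : (nd1 s0).1 = none → (nd1 t0).1 = none → kind t0 = kind s0 := by
      intro h h'
      rw [LI_state (hi'.1 h') (hi.1 h)]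
    have c2 : (nd2 s0).1 = none → (nd2 t0).1 = none → kind t0 = kind s0 := by
      intro h h'
      rw [LI_state (hi'.2.2.1 h') (hi.2.2.1 h)]
    have c3 : (nd1 s2).1 = none → (nd1 t2).1 = none → kind t0 = kind s0 := by
      intro h h'
      rw [a5 h, b5 h', LI_state (hi'.2.1 h') (hi.2.1 h)]
    have c4 : (nd2 s1).1 = none → (nd2 t1).1 = none → kind t0 = kind s0 := by
      intro h h'
      rw [a6 h, b6 h', LI_state (hi'.2.2.2 h') (hi.2.2.2 h)]
    obtain ⟨q0, q1, q2, q3, q5, -⟩ := hk'
    unfold pat at a1 b1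
    -- forbidden combinations
    have e1 : kind s0 = 2 → kind t0 = 1 → False := by
      intro h h'
      have h1 := (q1 h').1
      have g1 : (nd1 s0).1 = none := by rw [h] at a1; exact congrArg (fun x => x.1.1) a1
      have g2 : (nd1 s2).1 = none := by rw [h] at a1; exact congrArg (fun x => x.1.2) a1
      have l1 := hi.1 g1
      have l2 := hi.2.1 g2
      rw [h1] at l1
      exact a4 h (l1.2.1.symm.trans l2.2.1)
    have e2 : kind s0 = 1 → kind t0 = 2 → False := by
      intro h h'
      have h1 := (q2 h').1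
      have g1 : (nd2 s0).1 = none := by rw [h] at a1; exact congrArg (fun x => x.2.1) a1
      have g2 : (nd2 s1).1 = none := by rw [h] at a1; exact congrArg (fun x => x.2.2) a1
      have l1 := hi.2.2.1 g1
      have l2 := hi.2.2.2 g2
      rw [h1] at l1
      exact a3 h (l1.2.1.symm.trans l2.2.1)
    have e3 : (kind s0 = 3 ∨ kind s0 = 4) → (kind t0 = 5 ∨ kind t0 = 6) → False := by
      intro h h'
      have h1 := (q5 h').2
      have g1 : (nd1 s0).1 = none := by
        rcases h with h | h <;> (rw [h] at a1; exact congrArg (fun x => x.1.1) a1)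
      have g2 : (nd2 s0).1 = none := by
        rcases h with h | h <;> (rw [h] at a1; exact congrArg (fun x => x.2.1) a1)
      have l1 := hi.1 g1
      have l2 := hi.2.2.1 g2
      rw [h1] at l1
      exact absurd (l1.1.symm.trans l2.1) (by decide)
    have e4 : (kind s0 = 5 ∨ kind s0 = 6) → (kind t0 = 3 ∨ kind t0 = 4) → False := by
      intro h h'
      have h1 := (q3 h').2
      have g1 : (nd1 s2).1 = none := by
        rcases h with h | h <;> (rw [h] at a1; exact congrArg (fun x => x.1.2) a1)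
      have g2 : (nd2 s1).1 = none := by
        rcases h with h | h <;> (rw [h] at a1; exact congrArg (fun x => x.2.2) a1)
      have l1 := hi.2.1 g1
      have l2 := hi.2.2.2 g2
      rw [h1] at l1
      exact absurd (l1.1.symm.trans l2.1) (by decide)
    have A1 := congrArg (fun x => x.1.1) a1
    have A2 := congrArg (fun x => x.1.2) a1
    have A3 := congrArg (fun x => x.2.1) a1
    have A4 := congrArg (fun x => x.2.2) a1
    have B1 := congrArg (fun x => x.1.1) b1
    have B2 := congrArg (fun x => x.1.2) b1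
    have B3 := congrArg (fun x => x.2.1) b1
    have B4 := congrArg (fun x => x.2.2) b1
    simp only at A1 A2 A3 A4 B1 B2 B3 B4
    rcases kinds_cases (kind s0) (kind t0) with h | h | h | h | h | h | h | h | h | h | h
    · exact h
    · exact absurd h hk
    · exact absurd h hk7
    · exact c1 (A1.trans h.1) (B1.trans h.2)
    · exact c2 (A3.trans h.1) (B3.trans h.2)
    · exact c3 (A2.trans h.1) (B2.trans h.2)
    · exact c4 (A4.trans h.1) (B4.trans h.2)
    · exact (e1 h.1 h.2).elim
    · exact (e2 h.1 h.2).elim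
    · exact (e3 h.1 h.2).elim
    · exact (e4 h.1 h.2).elim
  rw [← hkk]
  exact hk'

end Pool.Agent.LibRotU
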