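import Pool.Agent.LibRotU.Rot

/-!
# The labels of a phase
-/

namespace Pool.Agent.LibRotU

/-- The state of a phase. -/
noncomputable def st (l C B y : ℝ) : St := (dg l C B y, qz l C (nx l C B y))

/-- The label of the pair of direction `t` at a phase, with a bound on the number of steps. -/
noncomputable def lab (l C B : ℝ) : ℕ → Bool → ℝ → Option Lb
  | 0, _, _ => none
  | k + 1, t, y =>
    match (nd t (st l C B y)).1 with
    | none => some (t, dg l C B y, st l C B (nx l C B y))
    | some X => lab l C B k X (nx l C B y)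

theorem lab_int {l C B : ℝ} (k : ℕ) {t : Bool} {y : ℝ} (h : (nd t (st l C B y)).1 = none) :
    lab l C B (k + 1) t y = some (t, dg l C B y, st l C B (nx l C B y)) := by
  unfold lab
  rw [h]

theorem lab_cross {l C B : ℝ} (k : ℕ) {t X : Bool} {y : ℝ} (h : (nd t (st l C B y)).1 = some X) :
    lab l C B (k + 1) t y = lab l C B k X (nx l C B y) := by
  conv_lhs => unfold lab
  rw [h]

theorem lab_mono {l C B : ℝ} {k : ℕ} : ∀ {t : Bool} {y : ℝ} {m : Lb}, lab l C B k t y = some m →
    lab l C B (k + 1) t y = some m := by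
  induction k with
  | zero => intro t y m h; exact absurd h (by simp [lab])
  | succ k ih =>
    intro t y m h
    rcases hn : (nd t (st l C B y)).1 with _ | X
    · rw [lab_int _ hn] at h ⊢
      exact h
    · rw [lab_cross _ hn] at h ⊢
      exact ih h

theorem lab_mono' {l C B : ℝ} {k k' : ℕ} (hk : k ≤ k') {t : Bool} {y : ℝ} {m : Lb}
    (h : lab l C B k t y = some m) : lab l C B k' t y = some m := by
  induction hk with
  | refl => exact h
  | step _ ih => exact lab_mono ih

open Classical in
/-- The label of the pair of direction `t` at a phase. -/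
noncomputable def lbl (l C B : ℝ) (t : Bool) (y : ℝ) : Lb :=
  if h : ∃ m, ∃ k, lab l C B k t y = some m then h.choose else (false, (0, 0), ((0, 0), 0))

theorem lbl_of {l C B : ℝ} {k : ℕ} {t : Bool} {y : ℝ} {m : Lb} (h : lab l C B k t y = some m) :
    lbl l C B t y = m := by
  have h' : ∃ m, ∃ k, lab l C B k t y = some m := ⟨m, k, h⟩
  unfold lbl
  rw [dif_pos h']
  obtain ⟨k', hk'⟩ := h'.choose_spec
  have h1 := lab_mono' (le_max_left k k') h
  have h2 := lab_mono' (le_max_right k k') hk'
  rw [h1] at h2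
  exact (Option.some_injective _ h2).symm

theorem lbl_int {l C B : ℝ} {t : Bool} {y : ℝ} (h : (nd t (st l C B y)).1 = none) :
    lbl l C B t y = (t, dg l C B y, st l C B (nx l C B y)) := lbl_of (lab_int 0 h)

theorem lbl_cross {l C B : ℝ} {t X : Bool} {y : ℝ} (h : (nd t (st l C B y)).1 = some X) :
    lbl l C B t y = lbl l C B X (nx l C B y) := by
  by_cases he : ∃ m, ∃ k, lab l C B k X (nx l C B y) = some m
  · obtain ⟨m, k, hm⟩ := he
    rw [lbl_of hm]
    refine lbl_of (k := k + 1) ?_
    rw [lab_cross _ h, hm]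
  · have he' : ¬ ∃ m, ∃ k, lab l C B k t y = some m := by
      rintro ⟨m, k, hm⟩
      apply he
      rcases k with _ | k
      · exact absurd hm (by simp [lab])
      · rw [lab_cross _ h] at hm
        exact ⟨m, k, hm⟩
    unfold lbl
    rw [dif_neg he, dif_neg he']

section

variable {l C B : ℝ} (h : IsP l C B)

include h

theorem nx_mem {y : ℝ} (y0 : 0 ≤ y) (y1 : y < 1) : 0 ≤ nx l C B y ∧ nx l C B y < 1 :=
  ⟨(rep_dn h y0 y1).1, (rep_dn h y0 y1).2.1⟩

theorem st_present {y : ℝ} (y0 : 0 ≤ y) (y1 : y < 1) : present (st l C B y) = true :=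
  (rep_dn h y0 y1).2.2.1

theorem rot_int (t : Bool) {y : ℝ} (y0 : 0 ≤ y) (y1 : y < 1) (hn : (nd t (st l C B y)).1 = none) :
    dg l C B (rot l C t y) = (nd t (st l C B y)).2 ∧ nx l C B (rot l C t y) = nx l C B y := by
  have := rep_int h t (d' := (nd t (st l C B y)).2) (rep_dn h y0 y1) (by
    have : nd t (st l C B y) = (none, (nd t (st l C B y)).2) := by rw [← hn]
    exact this)
  obtain ⟨-, -, h1, h2⟩ := rep_all h this
  exact ⟨h1, h2⟩

theorem rot_cross (t : Bool) {X : Bool} {y : ℝ} (y0 : 0 ≤ y) (y1 : y < 1)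
    (hn : (nd t (st l C B y)).1 = some X) :
    dg l C B (rot l C t y) = (nd t (st l C B y)).2 ∧
    nx l C B (rot l C t y) = rot l C X (nx l C B y) := by
  have := rep_cross h t X (d' := (nd t (st l C B y)).2) (rep_dn h y0 y1) (by
    have : nd t (st l C B y) = (some X, (nd t (st l C B y)).2) := by rw [← hn]
    exact this)
  obtain ⟨-, -, h1, h2⟩ := rep_all h this
  exact ⟨h1, h2⟩

theorem st_tr (t : Bool) {y : ℝ} (y0 : 0 ≤ y) (y1 : y < 1) :
    Tr t (st l C B y) (st l C B (rot l C t y)) := by
  rcases hn : (nd t (st l C B y)).1 with _ | X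
  · obtain ⟨h1, h2⟩ := rot_int h t y0 y1 hn
    refine ⟨h1.symm, fun _ => ?_⟩
    show qz l C (nx l C B (rot l C t y)) = qz l C (nx l C B y)
    rw [h2]
  · obtain ⟨h1, -⟩ := rot_cross h t y0 y1 hn
    refine ⟨h1.symm, fun h' => ?_⟩
    rw [hn] at h'
    exact absurd h' (by simp)

theorem qt_st {y : ℝ} (y0 : 0 ≤ y) (y1 : y < 1) : qt (st l C B y) = qz l C y :=
  (rep_all h (rep_dn h y0 y1)).2.1.symm

theorem lbl_LI {t : Bool} {y : ℝ} (y0 : 0 ≤ y) (y1 : y < 1) (hn : (nd t (st l C B y)).1 = none) :
    LI t (st l C B y) (lbl l C B t y) := by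
  rw [lbl_int hn]
  obtain ⟨n0, n1⟩ := nx_mem h y0 y1
  exact ⟨rfl, rfl, qt_st h n0 n1, st_present h n0 n1⟩

omit h in
theorem rot_eq (t : Bool) (y : ℝ) : ∃ n : ℤ, rot l C t y = y + (if t = true then l else 4 * l - C) + n := by
  cases t
  · exact ⟨-(ca (qz l C y) : ℤ), by rw [rot_false]; simp [sub_eq_add_neg]⟩
  · exact ⟨-(cb (qz l C y) : ℤ), by rw [rot_true]; simp [sub_eq_add_neg]⟩

omit h in
theorem eq_of_int {a b : ℝ} (a0 : 0 ≤ a) (a1 : a < 1) (b0 : 0 ≤ b) (b1 : b < 1) {n : ℤ}
    (hn : a = b + n) : a = b := by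
  have h1 : (n : ℝ) < 1 := by linarith
  have h2 : (-1 : ℝ) < n := by linarith
  have h3 : n < 1 := by exact_mod_cast h1
  have h4 : -1 < n := by exact_mod_cast h2
  have : n = 0 := by omega
  rw [hn, this]
  simp

theorem rot_comm {y : ℝ} (y0 : 0 ≤ y) (y1 : y < 1) :
    rot l C false (rot l C true y) = rot l C true (rot l C false y) := by
  obtain ⟨a0, a1⟩ := rot_mem h true y0 y1
  obtain ⟨b0, b1⟩ := rot_mem h false y0 y1
  obtain ⟨c0, c1⟩ := rot_mem h false a0 a1
  obtain ⟨d0, d1⟩ := rot_mem h true b0 b1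
  obtain ⟨n1, e1⟩ := rot_eq (l := l) (C := C) true y
  obtain ⟨n2, e2⟩ := rot_eq (l := l) (C := C) false y
  obtain ⟨n3, e3⟩ := rot_eq (l := l) (C := C) false (rot l C true y)
  obtain ⟨n4, e4⟩ := rot_eq (l := l) (C := C) true (rot l C false y)
  refine eq_of_int c0 c1 d0 d1 (n := n1 + n3 - n2 - n4) ?_
  rw [e3, e4, e1, e2]
  simp only [if_true, Bool.false_eq_true, if_false]
  push_cast
  ring

theorem st_win {y : ℝ} (y0 : 0 ≤ y) (y1 : y < 1) :
    Win (st l C B y) (st l C B (rot l C false y)) (st l C B (rot l C true y))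
      (st l C B (rot l C true (rot l C false y))) := by
  obtain ⟨a0, a1⟩ := rot_mem h true y0 y1
  obtain ⟨b0, b1⟩ := rot_mem h false y0 y1
  obtain ⟨d0, d1⟩ := rot_mem h true b0 b1
  refine ⟨st_present h y0 y1, st_present h b0 b1, st_present h a0 a1, st_present h d0 d1,
    st_tr h false y0 y1, st_tr h true y0 y1, st_tr h true b0 b1, ?_⟩
  rw [← rot_comm h y0 y1]
  exact st_tr h false a0 a1

/-- The labels of a phase satisfy the vertex rule. -/
theorem st_vr {k : ℕ} : ∀ {y : ℝ}, 0 ≤ y → y < 1 → lab l C B k false y ≠ none →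
    VR (lbl l C B false y) (lbl l C B false (rot l C true y)) (lbl l C B true y)
      (lbl l C B true (rot l C false y)) := by
  induction k with
  | zero => intro y _ _ hk; exact absurd rfl hk
  | succ k ih =>
    intro y y0 y1 hk
    have hw := st_win h y0 y1
    obtain ⟨a0, a1⟩ := rot_mem h true y0 y1
    obtain ⟨b0, b1⟩ := rot_mem h false y0 y1
    obtain ⟨n0, n1⟩ := nx_mem h y0 y1
    have hp := (win_fin' hw).1
    have P1 : (nd false (st l C B y)).1 = (patK (kind (st l C B y))).1.1 :=
      congrArg (fun x => x.1.1) hp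
    have P2 : (nd false (st l C B (rot l C true y))).1 = (patK (kind (st l C B y))).1.2 :=
      congrArg (fun x => x.1.2) hp
    have P3 : (nd true (st l C B y)).1 = (patK (kind (st l C B y))).2.1 :=
      congrArg (fun x => x.2.1) hp
    have P4 : (nd true (st l C B (rot l C false y))).1 = (patK (kind (st l C B y))).2.2 :=
      congrArg (fun x => x.2.2) hp
    by_cases h7 : kind (st l C B y) = 7
    · rw [h7] at P1 P2 P3 P4
      rw [lbl_cross (X := false) P1, lbl_cross (X := false) P2, lbl_cross (X := true) P3,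
        lbl_cross (X := true) P4, (rot_cross h true y0 y1 (X := true) P3).2,
        (rot_cross h false y0 y1 (X := false) P1).2]
      apply ih n0 n1
      rw [lab_cross (X := false) k P1] at hk
      exact hk
    · have hi : WI (st l C B y) (st l C B (rot l C false y)) (st l C B (rot l C true y))
          (lbl l C B false y) (lbl l C B false (rot l C true y)) (lbl l C B true y)
          (lbl l C B true (rot l C false y)) :=
        ⟨lbl_LI (t := false) h y0 y1, lbl_LI (t := false) h a0 a1, lbl_LI (t := true) h y0 y1,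
          lbl_LI (t := true) h b0 b1⟩
      refine ⟨_, _, _, _, hw, hi, ?_⟩
      refine ⟨?_, ?_, ?_, ?_, ?_, h7⟩
      · intro hk0
        rw [hk0] at P1 P2 P3 P4
        rw [lbl_int P1, lbl_int P2, lbl_int P3, lbl_int P4, (rot_int h true y0 y1 P3).2,
          (rot_int h false y0 y1 P1).2]
        exact ⟨rfl, rfl, rfl⟩
      · intro hk0
        rw [hk0] at P1 P2 P3 P4
        rw [lbl_cross (X := false) P1, lbl_cross (X := false) P2, lbl_int P3, lbl_int P4,
          (rot_int h true y0 y1 P3).2, (rot_cross h false y0 y1 (X := false) P1).2]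
        exact ⟨rfl, st_tr h false n0 n1, lbl_LI h n0 n1⟩
      · intro hk0
        rw [hk0] at P1 P2 P3 P4
        rw [lbl_int P1, lbl_int P2, lbl_cross (X := true) P3, lbl_cross (X := true) P4,
          (rot_int h false y0 y1 P1).2, (rot_cross h true y0 y1 (X := true) P3).2]
        exact ⟨rfl, st_tr h true n0 n1, lbl_LI h n0 n1⟩
      · rintro (hk0 | hk0)
        · rw [hk0] at P1 P2 P3 P4
          rw [lbl_int P1, lbl_cross (X := false) P2, lbl_int P3, lbl_cross (X := false) P4,
            (rot_int h false y0 y1 P1).2, (rot_int h true y0 y1 P3).2]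
          exact ⟨rfl, rfl⟩
        · rw [hk0] at P1 P2 P3 P4
          rw [lbl_int P1, lbl_cross (X := true) P2, lbl_int P3, lbl_cross (X := true) P4,
            (rot_int h false y0 y1 P1).2, (rot_int h true y0 y1 P3).2]
          exact ⟨rfl, rfl⟩
      · rintro (hk0 | hk0)
        · rw [hk0] at P1 P2 P3 P4
          rw [lbl_cross (X := false) P1, lbl_int P2, lbl_cross (X := false) P3, lbl_int P4,
            (rot_cross h false y0 y1 (X := false) P1).2,
            (rot_cross h true y0 y1 (X := false) P3).2]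
          exact ⟨rfl, rfl⟩
        · rw [hk0] at P1 P2 P3 P4
          rw [lbl_cross (X := true) P1, lbl_int P2, lbl_cross (X := true) P3, lbl_int P4,
            (rot_cross h false y0 y1 (X := true) P1).2,
            (rot_cross h true y0 y1 (X := true) P3).2]
          exact ⟨rfl, rfl⟩

end

end Pool.Agent.LibRotU
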