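import Pool.Agent.LibRotU.Term

/-!
# Measurability of the labels
-/

namespace Pool.Agent.LibRotU

theorem meas_dgo (l C B : ℝ) : Measurable (dgo l C B) := by
  unfold dgo
  repeat (first | exact measurable_const | refine Measurable.ite measurableSet_Iio measurable_const ?_)

theorem meas_qz (l C : ℝ) : Measurable (qz l C) := by
  unfold qz
  repeat (first | exact measurable_const | refine Measurable.ite measurableSet_Iio measurable_const ?_)

theorem meas_nx (l C B : ℝ) : Measurable (nx l C B) := by
  unfold nx
  exact (measurable_id.sub (meas_dgo l C B).snd).div_const _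

theorem meas_st (l C B : ℝ) : Measurable (st l C B) := by
  unfold st dg
  exact (meas_dgo l C B).fst.prodMk ((meas_qz l C).comp (meas_nx l C B))

theorem meas_lab (l C B : ℝ) (k : ℕ) : ∀ (t : Bool) (v : Option Lb),
    MeasurableSet {y | lab l C B k t y = v} := by
  induction k with
  | zero =>
    intro t v
    by_cases hv : v = none
    · subst hv
      have : {y | lab l C B 0 t y = none} = Set.univ := by ext y; simp [lab]
      rw [this]
      exact MeasurableSet.univ
    · have : {y | lab l C B 0 t y = v} = ∅ := by
        ext y
        simp only [lab, Set.mem_ofPred_eq, Set.mem_empty_iff_false, iff_false]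
        exact fun h => hv h.symm
      rw [this]
      exact MeasurableSet.empty
  | succ k ih =>
    intro t v
    have e : {y | lab l C B (k + 1) t y = v} = ⋃ s : St, ({y | st l C B y = s} ∩
        {y | (match (nd t s).1 with
          | none => some (t, s.1, st l C B (nx l C B y))
          | some X => lab l C B k X (nx l C B y)) = v}) := by
      ext y
      simp only [Set.mem_iUnion, Set.mem_inter_iff, Set.mem_ofPred_eq]
      constructor
      · intro hy
        exact ⟨_, rfl, hy⟩
      · rintro ⟨s, rfl, hy⟩
        exact hy
    rw [e]
    refine MeasurableSet.iUnion fun s => MeasurableSet.inter ?_ ?_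
    · exact meas_st l C B (measurableSet_singleton s)
    · rcases hn : (nd t s).1 with _ | X
      · have e2 : {y | some (t, s.1, st l C B (nx l C B y)) = v} =
            (fun y => st l C B (nx l C B y)) ⁻¹' {s' | some (t, s.1, s') = v} := rfl
        simp only
        rw [e2]
        exact ((meas_st l C B).comp (meas_nx l C B)) (Set.toFinite _).measurableSet
      · exact meas_nx l C B (ih X v)

theorem meas_lbl (l C B : ℝ) (t : Bool) (m : Lb) : MeasurableSet {y | lbl l C B t y = m} := by
  have e : {y | lbl l C B t y = m} = (⋃ k : ℕ, {y | lab l C B k t y = some m}) ∪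
      ((⋂ k : ℕ, {y | lab l C B k t y = none}) ∩ {y | (false, (0, 0), ((0, 0), 0)) = m}) := by
    ext y
    simp only [Set.mem_union, Set.mem_iUnion, Set.mem_inter_iff, Set.mem_iInter, Set.mem_ofPred_eq]
    by_cases he : ∃ m, ∃ k, lab l C B k t y = some m
    · obtain ⟨m', k, hm⟩ := he
      rw [lbl_of hm]
      constructor
      · rintro rfl
        exact Or.inl ⟨k, hm⟩
      · rintro (⟨k', hk'⟩ | ⟨h1, -⟩)
        · have h1 := lab_mono' (le_max_left k k') hm
          have h2 := lab_mono' (le_max_right k k') hk'
          rw [h1] at h2
          exact Option.some_injective _ h2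
        · rw [h1 k] at hm
          exact absurd hm (by simp)
    · have h1 : lbl l C B t y = (false, (0, 0), ((0, 0), 0)) := by
        unfold lbl
        rw [dif_neg he]
      rw [h1]
      have h2 : ∀ k, lab l C B k t y = none := by
        intro k
        by_contra hk
        obtain ⟨m', hm'⟩ := Option.ne_none_iff_exists'.1 hk
        exact he ⟨m', k, hm'⟩
      constructor
      · intro h3
        exact Or.inr ⟨h2, h3⟩
      · rintro (⟨k', hk'⟩ | ⟨-, h3⟩)
        · rw [h2 k'] at hk'
          exact absurd hk' (by simp)
        · exact h3
  rw [e]
  refine MeasurableSet.union (MeasurableSet.iUnion fun k => meas_lab l C B k t _)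
    (MeasurableSet.inter (MeasurableSet.iInter fun k => meas_lab l C B k t _) ?_)
  exact MeasurableSet.const _

end Pool.Agent.LibRotU
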