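import Pool.Agent.LibRotU.Chain

/-!
# Renormalization of valid configurations
-/

namespace Pool.Agent.LibRotU

variable {c : Cfg}

/-- The bases of the blocks. -/
def Base (c : Cfg) : Type := {v : ℤ × ℤ // (c.s v.1 v.2).1 = (0, 0)}

namespace Base

/-- Type of the block. -/
def ty (b : Base c) : Fin 4 := (c.s b.1.1 b.1.2).2

theorem st (b : Base c) : c.s b.1.1 b.1.2 = ((0, 0), b.ty) := Prod.ext b.2 rfl

end Base

/-- The next base to the right. -/
def stepR (h : Valid c) (b : Base c) : Base c :=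
  ⟨(b.1.1 + 3, b.1.2 - ca b.ty), h.right b.st⟩

/-- The next base above. -/
def stepU (h : Valid c) (b : Base c) : Base c :=
  ⟨(b.1.1 - 1, b.1.2 + 4 - cb b.ty), h.upper b.st⟩

theorem left_aux (h : Valid c) (b : Base c) :
    c.s (b.1.1 - 3) (b.1.2 + ca (c.s (b.1.1 - 1) b.1.2).2) = ((0, 0), (c.s (b.1.1 - 1) b.1.2).2) := by
  have ht := h.t1 (b.1.1 - 1) b.1.2
  rw [sub_add_cancel, b.st] at ht
  have h1 := p1_00 _ _ (h.pr _ _) ht
  have h2 : c.s (b.1.1 - 1) b.1.2 = ((2, 0), (c.s (b.1.1 - 1) b.1.2).2) := Prod.ext h1 rfl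
  exact h.base h2 (by simp [px]; ring) (by simp [py])

theorem down_aux (h : Valid c) (b : Base c) :
    c.s (b.1.1 + 1) (b.1.2 - 4 + cb (c.s b.1.1 (b.1.2 - 1)).2) =
      ((0, 0), (c.s b.1.1 (b.1.2 - 1)).2) := by
  have ht := h.t2 b.1.1 (b.1.2 - 1)
  rw [sub_add_cancel, b.st] at ht
  obtain ⟨h1, h1'⟩ := p2_00 _ _ (h.pr _ _) ht
  generalize hs : c.s b.1.1 (b.1.2 - 1) = s0 at *
  obtain ⟨⟨i, j⟩, p⟩ := s0
  simp only at h1 h1'
  subst h1
  have hcb : ∀ p : Fin 4, cb p ≤ 1 := by decide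
  have hj2 : ¬ (j.val < 2) := by have := hcb p; omega
  have hcb' := hcb p
  exact h.base hs (by simp only [px, if_neg hj2]; simp)
    (by simp only [py, hj2, false_and, if_false]; omega)

/-- The shift to the right as a permutation of the bases. -/
def permR (h : Valid c) : Equiv.Perm (Base c) where
  toFun := stepR h
  invFun b := ⟨(b.1.1 - 3, b.1.2 + ca (c.s (b.1.1 - 1) b.1.2).2), by
    show (c.s _ _).1 = _
    rw [left_aux h b]⟩
  left_inv b := by
    apply Subtype.ext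
    have hs := h.sites b.st
    have e : c.s ((stepR h b).1.1 - 1) (stepR h b).1.2 = ((2, 0), b.ty) := by
      rw [← hs.s20]
      show c.s (b.1.1 + 3 - 1) _ = _
      congr 1; ring
    show ((stepR h b).1.1 - 3, (stepR h b).1.2 + (ca (c.s ((stepR h b).1.1 - 1) (stepR h b).1.2).2 : ℤ)) = b.1
    rw [e]
    simp [stepR]
  right_inv b := by
    apply Subtype.ext
    show (b.1.1 - 3 + 3, b.1.2 + (ca (c.s (b.1.1 - 1) b.1.2).2 : ℤ) -
      (ca (c.s (b.1.1 - 3) (b.1.2 + ca (c.s (b.1.1 - 1) b.1.2).2)).2 : ℤ)) = b.1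
    rw [left_aux h b]
    simp

/-- The shift up as a permutation of the bases. -/
def permU (h : Valid c) : Equiv.Perm (Base c) where
  toFun := stepU h
  invFun b := ⟨(b.1.1 + 1, b.1.2 - 4 + cb (c.s b.1.1 (b.1.2 - 1)).2), by
    show (c.s _ _).1 = _
    rw [down_aux h b]⟩
  left_inv b := by
    apply Subtype.ext
    obtain ⟨j, hs, -⟩ := (h.sites b.st).top0
    have e : c.s (stepU h b).1.1 ((stepU h b).1.2 - 1) = ((0, j), b.ty) := by
      rw [← hs]
      show c.s (b.1.1 - 1) (b.1.2 + 4 - cb b.ty - 1) = _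
      congr 1; ring
    show ((stepU h b).1.1 + 1, (stepU h b).1.2 - 4 +
      (cb (c.s (stepU h b).1.1 ((stepU h b).1.2 - 1)).2 : ℤ)) = b.1
    rw [e]
    refine Prod.ext ?_ ?_
    · show b.1.1 - 1 + 1 = b.1.1
      ring
    · show b.1.2 + 4 - (cb b.ty : ℤ) - 4 + (cb b.ty : ℤ) = b.1.2
      ring
  right_inv b := by
    apply Subtype.ext
    show (b.1.1 + 1 - 1, b.1.2 - 4 + (cb (c.s b.1.1 (b.1.2 - 1)).2 : ℤ) + 4 -
      (cb (c.s (b.1.1 + 1) (b.1.2 - 4 + cb (c.s b.1.1 (b.1.2 - 1)).2)).2 : ℤ)) = b.1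
    rw [down_aux h b]
    refine Prod.ext ?_ ?_
    · show b.1.1 + 1 - 1 = b.1.1
      ring
    · show b.1.2 - 4 + (cb (c.s b.1.1 (b.1.2 - 1)).2 : ℤ) + 4 -
        (cb (c.s b.1.1 (b.1.2 - 1)).2 : ℤ) = b.1.2
      ring

theorem perm_comm (h : Valid c) : Commute (permR h) (permU h) := by
  show permR h * permU h = permU h * permR h
  ext b : 1
  show stepR h (stepU h b) = stepU h (stepR h b)
  apply Subtype.ext
  have a1 := h.adj1 b.st
  have a2 := h.adj2 b.st
  have e1 : (stepR h b).ty = (c.s (b.1.1 + 3) (b.1.2 - ca b.ty)).2 := rfl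
  have e2 : (stepU h b).ty = (c.s (b.1.1 - 1) (b.1.2 + 4 - cb b.ty)).2 := rfl
  rw [← e1] at a1
  rw [← e2] at a2
  show (b.1.1 - 1 + 3, b.1.2 + 4 - (cb b.ty : ℤ) - (ca (stepU h b).ty : ℤ)) =
    (b.1.1 + 3 - 1, b.1.2 - (ca b.ty : ℤ) + 4 - (cb (stepR h b).ty : ℤ))
  refine Prod.ext (by ring) ?_
  show b.1.2 + 4 - (cb b.ty : ℤ) - (ca (stepU h b).ty : ℤ) =
    b.1.2 - (ca b.ty : ℤ) + 4 - (cb (stepR h b).ty : ℤ)
  omega

/-- The base with index `(m, n)`. -/
def bb (h : Valid c) (b0 : Base c) (m n : ℤ) : Base c := (permR h ^ m * permU h ^ n) b0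

theorem bb_zero (h : Valid c) (b0 : Base c) : bb h b0 0 0 = b0 := by simp [bb]

theorem bb_succ1 (h : Valid c) (b0 : Base c) (m n : ℤ) :
    bb h b0 (m + 1) n = stepR h (bb h b0 m n) := by
  unfold bb
  rw [add_comm, zpow_one_add, mul_assoc]
  rfl

theorem bb_succ2 (h : Valid c) (b0 : Base c) (m n : ℤ) :
    bb h b0 m (n + 1) = stepU h (bb h b0 m n) := by
  unfold bb
  have hc := (perm_comm h).zpow_left m
  rw [add_comm n, zpow_one_add, ← mul_assoc, hc.eq, mul_assoc]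
  rfl

/-- The renormalized configuration. -/
def ren (h : Valid c) (b0 : Base c) : Cfg where
  s m n := (c.l1 (bb h b0 m n).1.1 (bb h b0 m n).1.2).2.2
  l1 m n := c.l1 ((bb h b0 m n).1.1 + 2) ((bb h b0 m n).1.2 - ca (bb h b0 m n).ty)
  l2 m n := c.l2 ((bb h b0 m n).1.1 - 1) ((bb h b0 m n).1.2 + 3 - cb (bb h b0 m n).ty)

theorem ren_LI (h : Valid c) (b : Base c) :
    LI false ((0, 0), b.ty) (c.l1 b.1.1 b.1.2) := by
  have := h.i1 b.1.1 b.1.2
  rw [b.st] at this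
  exact this (by rw [n1_00])

/-- The type of the block is the type of its state in the renormalized configuration. -/
theorem ren_qt (h : Valid c) (b0 : Base c) (m n : ℤ) :
    qt ((ren h b0).s m n) = (bb h b0 m n).ty := (ren_LI h _).2.2.1

theorem ren_valid (h : Valid c) (b0 : Base c) : Valid (ren h b0) where
  pr m n := (ren_LI h (bb h b0 m n)).2.2.2
  t1 m n := by
    have := (h.cross1 (bb h b0 m n).st).1
    show Tr false (c.l1 (bb h b0 m n).1.1 (bb h b0 m n).1.2).2.2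
      (c.l1 (bb h b0 (m + 1) n).1.1 (bb h b0 (m + 1) n).1.2).2.2
    rw [bb_succ1]
    exact this
  t2 m n := by
    have := (h.cross2 (bb h b0 m n).st).1
    show Tr true (c.l1 (bb h b0 m n).1.1 (bb h b0 m n).1.2).2.2
      (c.l1 (bb h b0 m (n + 1)).1.1 (bb h b0 m (n + 1)).1.2).2.2
    rw [bb_succ2]
    exact this
  i1 m n hn := (h.cross1 (bb h b0 m n).st).2 hn
  i2 m n hn := (h.cross2 (bb h b0 m n).st).2 hn
  vx m n := by
    have := h.vert (bb h b0 m n).st (pr := (stepR h (bb h b0 m n)).ty)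
      (pu := (stepU h (bb h b0 m n)).ty) rfl rfl
    show VR _ (c.l1 ((bb h b0 m (n + 1)).1.1 + 2) ((bb h b0 m (n + 1)).1.2 - ca (bb h b0 m (n + 1)).ty))
      _ (c.l2 ((bb h b0 (m + 1) n).1.1 - 1) ((bb h b0 (m + 1) n).1.2 + 3 - cb (bb h b0 (m + 1) n).ty))
    rw [bb_succ1, bb_succ2]
    exact this

/-! ## Heights -/

/-- `H` is a height function of the configuration. -/
structure IsHt (c : Cfg) (H : ℤ → ℤ → ℤ) : Prop where
  h1 : ∀ x y, H (x + 1) y = H x y + ca (qt (c.s x y))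
  h2 : ∀ x y, H x (y + 1) = H x y + cb (qt (c.s x y))

theorem IsHt.e1 {H : ℤ → ℤ → ℤ} (hH : IsHt c H) {x y x' : ℤ} {s : St} (hs : c.s x y = s)
    (hx : x' = x + 1) : H x' y = H x y + ca (qt s) := by
  subst hx; rw [hH.h1, hs]

theorem IsHt.e2 {H : ℤ → ℤ → ℤ} (hH : IsHt c H) {x y y' : ℤ} {s : St} (hs : c.s x y = s)
    (hy : y' = y + 1) : H x y' = H x y + cb (qt s) := by
  subst hy; rw [hH.h2, hs]

/-- The height increases by one between horizontally adjacent bases. -/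
theorem ht_right (h : Valid c) {H : ℤ → ℤ → ℤ} (hH : IsHt c H) {x y : ℤ} {p : Fin 4}
    (hb : c.s x y = ((0, 0), p)) : H (x + 3) (y - ca p) = H x y + 1 := by
  have hs := h.sites hb
  have q00 : ∀ p : Fin 4, ca (qt ((0, 0), p)) = 0 := by decide
  have q10 : ∀ p : Fin 4, ca (qt ((1, 0), p)) = 0 := by decide
  have q20 : ∀ p : Fin 4, ca (qt ((2, 0), p)) = 1 := by decide
  have q21 : ∀ p : Fin 4, ca (qt ((2, 1), p)) = 1 := by decide
  have r00 : ∀ p : Fin 4, cb (qt ((0, 0), p)) = 0 := by decide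
  have e1 := hH.e1 hb (x' := x + 1) rfl
  have e2 := hH.e1 hs.s10 (x' := x + 2) (by ring)
  rw [q00] at e1
  rw [q10] at e2
  rcases ca_cases p with ha | ha
  · have s20 := hs.s20
    rw [ha] at s20 ⊢
    have e3 := hH.e1 s20 (x' := x + 3) (by ring)
    rw [q20] at e3
    simp only [Nat.cast_zero, sub_zero] at e3 ⊢
    rw [e3, e2, e1]; simp
  · have s21 := hs.s21
    have hr := h.right hb
    rw [ha] at s21 hr ⊢
    have s21' : c.s (x + 2) y = ((2, 1), p) := by
      rw [← s21]; congr 1; push_cast; ring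
    have e3 := hH.e1 s21' (x' := x + 3) (by ring)
    have e4 := hH.e2 (x := x + 3) (y := y - (1 : ℕ)) (y' := y)
      (s := ((0, 0), (c.s (x + 3) (y - (1 : ℕ))).2)) (Prod.ext hr rfl) (by push_cast; ring)
    rw [q21] at e3
    rw [r00] at e4
    push_cast at e1 e2 e3 e4 ⊢
    linarith

/-- The height does not change between vertically adjacent bases. -/
theorem ht_upper (h : Valid c) {H : ℤ → ℤ → ℤ} (hH : IsHt c H) {x y : ℤ} {p : Fin 4}
    (hb : c.s x y = ((0, 0), p)) : H (x - 1) (y + 4 - cb p) = H x y := by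
  have hs := h.sites hb
  have r00 : ∀ p : Fin 4, cb (qt ((0, 0), p)) = 0 := by decide
  have r01 : ∀ p : Fin 4, cb (qt ((0, 1), p)) = 0 := by decide
  have q02 : ∀ p : Fin 4, ca (qt ((0, 2), p)) = 1 := by decide
  have r02 : ∀ p : Fin 4, cb (qt ((0, 2), p)) = cb p := by decide
  have r03 : ∀ p : Fin 4, cb p = 0 → cb (qt ((0, 3), p)) = 1 := by decide
  have e1 := hH.e2 hb (y' := y + 1) rfl
  have e2 := hH.e2 hs.s01 (y' := y + 2) (by ring)
  have e3 := hH.e1 hs.s02 (x' := x) (by ring)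
  have e4 := hH.e2 hs.s02 (y' := y + 3) (by ring)
  rw [r00] at e1
  rw [r01] at e2
  rw [q02] at e3
  rw [r02] at e4
  have hcb : ∀ p : Fin 4, cb p = 0 ∨ cb p = 1 := by decide
  rcases hcb p with hb0 | hb1
  · have e5 := hH.e2 (hs.s03 hb0) (y' := y + 4) (by ring)
    rw [r03 p hb0] at e5
    rw [hb0] at e4 ⊢
    push_cast at *
    rw [sub_zero]
    linarith
  · rw [hb1] at e4 ⊢
    push_cast at *
    have : y + 4 - 1 = y + 3 := by ring
    rw [this]
    linarith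

end Pool.Agent.LibRotU
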