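import Pool.Agent.LibRotU.Circ

/-!
# Rotations and digits
-/

namespace Pool.Agent.LibRotU

/-- The two rotations of `[0, 1)`. -/
noncomputable def rot (l C : ℝ) (t : Bool) (y : ℝ) : ℝ :=
  if t = true then y + l - (cb (qz l C y) : ℝ) else y + (4 * l - C) - (ca (qz l C y) : ℝ)

theorem rot_false (l C y : ℝ) : rot l C false y = y + (4 * l - C) - (ca (qz l C y) : ℝ) := by
  unfold rot; rw [if_neg (by decide)]

theorem rot_true (l C y : ℝ) : rot l C true y = y + l - (cb (qz l C y) : ℝ) := by
  unfold rot; rw [if_pos rfl]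

theorem g1n : ∀ (d : Dg) (p : Fin 4), present (d, p) = true → (nd1 (d, p)).1 = none →
    gg (nd1 (d, p)).2 + (ca (qt (d, p)) : ℤ) = gg d := by decide
theorem g1f : ∀ (d : Dg) (p : Fin 4), present (d, p) = true → (nd1 (d, p)).1 = some false →
    gg (nd1 (d, p)).2 + (ca (qt (d, p)) : ℤ) = gg d + 1 := by decide
theorem g1t : ∀ (d : Dg) (p : Fin 4), present (d, p) = true → (nd1 (d, p)).1 = some true →
    gg (nd1 (d, p)).2 + (ca (qt (d, p)) : ℤ) = gg d := by decide
theorem g2n : ∀ (d : Dg) (p : Fin 4), present (d, p) = true → (nd2 (d, p)).1 = none →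
    gg (nd2 (d, p)).2 + (cb (qt (d, p)) : ℤ) = gg d := by decide
theorem g2f : ∀ (d : Dg) (p : Fin 4), present (d, p) = true → (nd2 (d, p)).1 = some false →
    gg (nd2 (d, p)).2 + (cb (qt (d, p)) : ℤ) = gg d + 1 := by decide
theorem g2t : ∀ (d : Dg) (p : Fin 4), present (d, p) = true → (nd2 (d, p)).1 = some true →
    gg (nd2 (d, p)).2 + (cb (qt (d, p)) : ℤ) = gg d := by decide

section

variable {l C B : ℝ} (h : IsP l C B)

include h

/-- The type of a phase after a rotation. -/
theorem qz_rot {w : ℝ} (h0 : 0 ≤ w) (h1 : w < 1) :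
    (0 ≤ rot l C false w ∧ rot l C false w < 1) ∧ (0 ≤ rot l C true w ∧ rot l C true w < 1) ∧
    ca (qz l C w) + cb (qz l C (rot l C false w)) = cg (qz l C w) ∧
    ca (qz l C (rot l C true w)) + cb (qz l C w) = cg (qz l C w) := by
  obtain ⟨one, l1, l2, c1, c2, b1, b2, -, -⟩ := h
  rw [rot_false, rot_true]
  by_cases g1 : w < 1 - (5 * l - C)
  · rw [qz0 g1]
    simp only [show ca 0 = 0 from rfl, show cb 0 = 0 from rfl, show cg 0 = 0 from rfl]
    push_cast
    refine ⟨⟨by linarith, by linarith⟩, ⟨by linarith, by linarith⟩, ?_, ?_⟩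
    · by_cases g : w + (4 * l - C) < 1 - (5 * l - C)
      · rw [sub_zero, qz0 g]; rfl
      · by_cases g' : w + (4 * l - C) < 1 - (4 * l - C)
        · rw [sub_zero, qz1 (by linarith) g']; rfl
        · rw [sub_zero, qz2 ⟨by linarith, by linarith⟩ (by linarith) (by linarith)]; rfl
    · by_cases g : w + l < 1 - (5 * l - C)
      · rw [sub_zero, qz0 g]; rfl
      · rw [sub_zero, qz1 (by linarith) (by linarith)]; rfl
  · by_cases g2 : w < 1 - (4 * l - C)
    · rw [qz1 (by linarith) g2]
      simp only [show ca 1 = 0 from rfl, show cb 1 = 0 from rfl, show cg 1 = 1 from rfl]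
      push_cast
      refine ⟨⟨by linarith, by linarith⟩, ⟨by linarith, by linarith⟩, ?_, ?_⟩
      · rw [sub_zero, qz3 ⟨by linarith, by linarith⟩ (by linarith)]; rfl
      · rw [sub_zero, qz2 ⟨by linarith, by linarith⟩ (by linarith) (by linarith)]; rfl
    · by_cases g3 : w < 1 - l
      · rw [qz2 ⟨by linarith, by linarith⟩ (by linarith) g3]
        simp only [show ca 2 = 1 from rfl, show cb 2 = 0 from rfl, show cg 2 = 1 from rfl]
        push_cast
        refine ⟨⟨by linarith, by linarith⟩, ⟨by linarith, by linarith⟩, ?_, ?_⟩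
        · rw [qz0 (by linarith)]; rfl
        · rw [sub_zero]
          by_cases g : w + l < 1 - l
          · rw [qz2 ⟨by linarith, by linarith⟩ (by linarith) (by linarith)]; rfl
          · rw [qz3 ⟨by linarith, by linarith⟩ (by linarith)]; rfl
      · rw [qz3 ⟨by linarith, by linarith⟩ (by linarith)]
        simp only [show ca 3 = 1 from rfl, show cb 3 = 1 from rfl, show cg 3 = 1 from rfl]
        push_cast
        refine ⟨⟨by linarith, by linarith⟩, ⟨by linarith, by linarith⟩, ?_, ?_⟩
        · rw [qz0 (by linarith)]; rfl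
        · rw [qz0 (by linarith)]; rfl

theorem rot_mem (t : Bool) {w : ℝ} (h0 : 0 ≤ w) (h1 : w < 1) :
    0 ≤ rot l C t w ∧ rot l C t w < 1 := by
  obtain ⟨a, b, -, -⟩ := qz_rot h h0 h1
  cases t
  · exact a
  · exact b

/-- Adding: internal steps. -/
theorem rep_int (t : Bool) {y w : ℝ} {d d' : Dg} (hr : Rep l C y d w)
    (hn : nd t (d, qz l C w) = (none, d')) : Rep l C (rot l C t y) d' w := by
  obtain ⟨-, hq, -, -⟩ := rep_all h hr
  obtain ⟨h0, h1, hp, hy⟩ := hr
  refine ⟨h0, h1, ?_⟩
  generalize qz l C w = p at *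
  cases t
  · have hn1 : nd1 (d, p) = (none, d') := hn
    have e1 : (nd1 (d, p)).1 = none := by rw [hn1]
    have e2 : (nd1 (d, p)).2 = d' := by rw [hn1]
    obtain ⟨f1, f2, f3⟩ := fx1 d p hp e1
    have f4 := g1n d p hp e1
    rw [e2] at f1 f2 f3 f4
    refine ⟨f1, ?_⟩
    rw [rot_false, hq, hy]
    unfold PP
    rw [f2, f3, ← f4]
    push_cast
    ring
  · have hn1 : nd2 (d, p) = (none, d') := hn
    have e1 : (nd2 (d, p)).1 = none := by rw [hn1]
    have e2 : (nd2 (d, p)).2 = d' := by rw [hn1]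
    obtain ⟨f1, f2, f3⟩ := fy1 d p hp e1
    have f4 := g2n d p hp e1
    rw [e2] at f1 f2 f3 f4
    refine ⟨f1, ?_⟩
    rw [rot_true, hq, hy]
    unfold PP
    rw [f2, f3, ← f4]
    push_cast
    ring

/-- Adding: crossing steps. -/
theorem rep_cross (t X : Bool) {y w : ℝ} {d d' : Dg} (hr : Rep l C y d w)
    (hn : nd t (d, qz l C w) = (some X, d')) : Rep l C (rot l C t y) d' (rot l C X w) := by
  obtain ⟨-, hq, -, -⟩ := rep_all h hr
  obtain ⟨h0, h1, hp, hy⟩ := hr
  obtain ⟨r0, r1⟩ := rot_mem h X h0 h1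
  obtain ⟨-, -, k1, k2⟩ := qz_rot h h0 h1
  have one := h.one
  have eC := h.eC
  have eB := h.eB
  refine ⟨r0, r1, ?_⟩
  cases t <;> cases X
  · rw [show rot l C false w = w + (4 * l - C) - (ca (qz l C w) : ℝ) from rot_false _ _ _] at *
    generalize qz l C (w + (4 * l - C) - (ca (qz l C w) : ℝ)) = q at *
    generalize qz l C w = p at *
    have hn1 : nd1 (d, p) = (some false, d') := hn
    have e1 : (nd1 (d, p)).1 = some false := by rw [hn1]
    have e2 : (nd1 (d, p)).2 = d' := by rw [hn1]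
    obtain ⟨f1, f2, f3⟩ := fx2 d p q hp e1 k1
    have f4 := g1f d p hp e1
    rw [e2] at f1 f2 f3 f4
    refine ⟨f1, ?_⟩
    rw [rot_false, hq, hy]
    unfold PP
    have z2 : (px d : ℝ) = 2 + px d' := by exact_mod_cast (by linarith : px d = 2 + px d')
    have z3 : (py d p : ℝ) = py d' q - ca p := by exact_mod_cast f3.symm
    have z4 : (gg d : ℝ) = gg d' + ca (qt (d, p)) - 1 := by
      exact_mod_cast (by linarith : gg d = gg d' + ca (qt (d, p)) - 1)
    rw [z2, z3, z4]
    linear_combination (-1 : ℝ) * one + eB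
  · rw [show rot l C true w = w + l - (cb (qz l C w) : ℝ) from rot_true _ _ _] at *
    generalize qz l C (w + l - (cb (qz l C w) : ℝ)) = q at *
    generalize qz l C w = p at *
    have hn1 : nd1 (d, p) = (some true, d') := hn
    have e1 : (nd1 (d, p)).1 = some true := by rw [hn1]
    have e2 : (nd1 (d, p)).2 = d' := by rw [hn1]
    obtain ⟨f1, f2, f3⟩ := fx3 d p q hp e1 k2
    have f4 := g1t d p hp e1
    rw [e2] at f1 f2 f3 f4
    refine ⟨f1, ?_⟩
    rw [rot_false, hq, hy]
    unfold PP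
    have z2 : (px d : ℝ) = px d' - 2 := by exact_mod_cast (by linarith : px d = px d' - 2)
    have z3 : (py d p : ℝ) = 4 - cb p + py d' q := by exact_mod_cast f3.symm
    have z4 : (gg d : ℝ) = gg d' + ca (qt (d, p)) := by exact_mod_cast f4.symm
    rw [z2, z3, z4]
    linear_combination eC
  · rw [show rot l C false w = w + (4 * l - C) - (ca (qz l C w) : ℝ) from rot_false _ _ _] at *
    generalize qz l C (w + (4 * l - C) - (ca (qz l C w) : ℝ)) = q at *
    generalize qz l C w = p at *
    have hn1 : nd2 (d, p) = (some false, d') := hn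
    have e1 : (nd2 (d, p)).1 = some false := by rw [hn1]
    have e2 : (nd2 (d, p)).2 = d' := by rw [hn1]
    obtain ⟨f1, f2, f3⟩ := fy2 d p q hp e1 k1
    have f4 := g2f d p hp e1
    rw [e2] at f1 f2 f3 f4
    refine ⟨f1, ?_⟩
    rw [rot_true, hq, hy]
    unfold PP
    have z2 : (px d : ℝ) = 3 + px d' := by exact_mod_cast (by linarith : px d = 3 + px d')
    have z3 : (py d p : ℝ) = py d' q - ca p - 1 := by
      exact_mod_cast (by linarith : py d p = py d' q - ca p - 1)
    have z4 : (gg d : ℝ) = gg d' + cb (qt (d, p)) - 1 := by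
      exact_mod_cast (by linarith : gg d = gg d' + cb (qt (d, p)) - 1)
    rw [z2, z3, z4]
    linear_combination (-1 : ℝ) * one + eB
  · rw [show rot l C true w = w + l - (cb (qz l C w) : ℝ) from rot_true _ _ _] at *
    generalize qz l C (w + l - (cb (qz l C w) : ℝ)) = q at *
    generalize qz l C w = p at *
    have hn1 : nd2 (d, p) = (some true, d') := hn
    have e1 : (nd2 (d, p)).1 = some true := by rw [hn1]
    have e2 : (nd2 (d, p)).2 = d' := by rw [hn1]
    obtain ⟨f1, f2, f3⟩ := fy3 d p q hp e1 k2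
    have f4 := g2t d p hp e1
    rw [e2] at f1 f2 f3 f4
    refine ⟨f1, ?_⟩
    rw [rot_true, hq, hy]
    unfold PP
    have z2 : (px d : ℝ) = px d' - 1 := by exact_mod_cast f2.symm
    have z3 : (py d p : ℝ) = 4 - cb p + py d' q - 1 := by
      exact_mod_cast (by linarith : py d p = 4 - cb p + py d' q - 1)
    have z4 : (gg d : ℝ) = gg d' + cb (qt (d, p)) := by exact_mod_cast f4.symm
    rw [z2, z3, z4]
    linear_combination eC

end

end Pool.Agent.LibRotU
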