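import Pool.Agent.LibRotU.Lab

/-!
# Labels are defined on a dense open set
-/

namespace Pool.Agent.LibRotU

section

variable {l C B : ℝ} (h : IsP l C B)

include h

theorem iter_mem (n : ℕ) : ∀ {y : ℝ}, 0 ≤ y → y < 1 →
    0 ≤ (nx l C B)^[n] y ∧ (nx l C B)^[n] y < 1 := by
  induction n with
  | zero => intro y y0 y1; exact ⟨y0, y1⟩
  | succ n ih =>
    intro y y0 y1
    rw [Function.iterate_succ_apply]
    exact ih (nx_mem h y0 y1).1 (nx_mem h y0 y1).2

/-- Changing the phase inside a cylinder. -/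
theorem cyl (n : ℕ) : ∀ {y u : ℝ}, 0 ≤ y → y < 1 → 0 ≤ u → u < 1 →
    qz l C u = qz l C ((nx l C B)^[n] y) → (∀ X, lab l C B 2 X u ≠ none) →
    0 ≤ y + l ^ n * (u - (nx l C B)^[n] y) ∧ y + l ^ n * (u - (nx l C B)^[n] y) < 1 ∧
    qz l C (y + l ^ n * (u - (nx l C B)^[n] y)) = qz l C y ∧
    ∀ t, lab l C B (n + 2) t (y + l ^ n * (u - (nx l C B)^[n] y)) ≠ none := by
  induction n with
  | zero =>
    intro y u y0 y1 u0 u1 hq hu
    have e : y + l ^ 0 * (u - (nx l C B)^[0] y) = u := by simp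
    rw [e]
    exact ⟨u0, u1, hq, hu⟩
  | succ n ih =>
    intro y u y0 y1 u0 u1 hq hu
    rw [Function.iterate_succ_apply] at hq ⊢
    obtain ⟨n0, n1⟩ := nx_mem h y0 y1
    obtain ⟨z0, z1, z2, z3⟩ := ih n0 n1 u0 u1 hq hu
    generalize hz : nx l C B y + l ^ n * (u - (nx l C B)^[n] (nx l C B y)) = z' at *
    have hr := rep_dn h y0 y1
    have e : y + l ^ (n + 1) * (u - (nx l C B)^[n] (nx l C B y)) =
        y + l * (z' - nx l C B y) := by rw [← hz]; ring
    rw [e]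
    have hr' : Rep l C (y + l * (z' - nx l C B y)) (dg l C B y) z' := by
      refine ⟨z0, z1, ?_, ?_⟩
      · rw [z2]; exact hr.2.2.1
      · rw [z2]
        have := hr.2.2.2
        linarith
    obtain ⟨⟨a0, a1⟩, a2, a3, a4⟩ := rep_all h hr'
    refine ⟨a0, a1, ?_, fun t => ?_⟩
    · rw [a2, z2]
      exact (rep_all h hr).2.1.symm
    · rcases hn : (nd t (st l C B (y + l * (z' - nx l C B y)))).1 with _ | X
      · rw [lab_int _ hn]; simp
      · rw [lab_cross _ hn, a4]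
        exact z3 X

/-- Digits for the last step. -/
def dl (p : Fin 4) : Dg :=
  if p = 0 then (0, 0) else if p = 1 then (2, 3) else if p = 2 then (0, 2) else (0, 3)

omit h in
theorem dl_qt : ∀ p : Fin 4, qt (dl p, 0) = p ∧ present (dl p, 0) = true := by decide

theorem dl_le (p : Fin 4) : 0 ≤ PP l C (dl p) 0 ∧ PP l C (dl p) 0 + l * l ≤ 1 := by
  obtain ⟨one, l1, l2, c1, c2, b1, b2, eC, -⟩ := h
  rw [← eC]
  fin_cases p
  · show 0 ≤ PP l C (0, 0) 0 ∧ PP l C (0, 0) 0 + C ≤ 1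
    rw [PP00]; constructor <;> linarith
  · show 0 ≤ PP l C (2, 3) 0 ∧ PP l C (2, 3) 0 + C ≤ 1
    rw [PP23]; constructor <;> linarith
  · show 0 ≤ PP l C (0, 2) 0 ∧ PP l C (0, 2) 0 + C ≤ 1
    rw [PP02]; constructor <;> linarith
  · show 0 ≤ PP l C (0, 3) 0 ∧ PP l C (0, 3) 0 + C ≤ 1
    rw [PP03]; constructor <;> linarith

theorem last {p : Fin 4} {w : ℝ} (w0 : 0 ≤ w) (w1 : w < l) :
    0 ≤ PP l C (dl p) 0 + l * w ∧ PP l C (dl p) 0 + l * w < 1 ∧
    qz l C (PP l C (dl p) 0 + l * w) = p ∧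
    ∀ X, lab l C B 2 X (PP l C (dl p) 0 + l * w) ≠ none := by
  have h' := h
  obtain ⟨one, l1, l2, c1, c2, b1, b2, -, -⟩ := h'
  have q0 : qz l C w = 0 := qz0 (by linarith)
  have hr : Rep l C (PP l C (dl p) 0 + l * w) (dl p) w := by
    refine ⟨w0, by linarith, ?_, ?_⟩
    · rw [q0]; exact (dl_qt p).2
    · rw [q0]
  obtain ⟨⟨a0, a1⟩, a2, a3, a4⟩ := rep_all h hr
  rw [q0, (dl_qt p).1] at a2
  refine ⟨a0, a1, a2, fun X => ?_⟩
  rcases hn : (nd X (st l C B (PP l C (dl p) 0 + l * w))).1 with _ | X'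
  · rw [lab_int _ hn]; simp
  · rw [lab_cross _ hn, a4]
    have e : (nd X' (st l C B w)).1 = none := by
      have e1 : st l C B w = ((0, 0), qz l C (nx l C B w)) := by
        unfold st dg
        rw [dgo0 h w1]
      rw [e1]
      cases X'
      · exact congrArg Prod.fst (n1_00 _)
      · exact congrArg Prod.fst (n2_00 _)
    rw [lab_int 0 e]
    simp

theorem dens {y : ℝ} (y0 : 0 ≤ y) (y1 : y < 1) {ε : ℝ} (hε : 0 < ε) :
    ∃ a b, a < b ∧ y - ε < a ∧ b < y + ε ∧ ∀ z, a < z → z < b →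
      0 ≤ z ∧ z < 1 ∧ ∀ t, ∃ k, lab l C B k t z ≠ none := by
  have hl : 0 < l := by have := h.l1; linarith
  have hl1 : l < 1 := by have := h.l2; linarith
  obtain ⟨n, hn⟩ := exists_pow_lt_of_lt_one hε hl1
  have hp : 0 < l ^ n := pow_pos hl n
  obtain ⟨v0, v1⟩ := iter_mem h n y0 y1
  generalize hyn : (nx l C B)^[n] y = yn at *
  obtain ⟨d0, d1⟩ := dl_le h (qz l C yn)
  generalize hP : PP l C (dl (qz l C yn)) 0 = P at *
  refine ⟨y + l ^ n * (P - yn), y + l ^ n * (P + l * l - yn), ?_, ?_, ?_, ?_⟩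
  · have : 0 < l ^ n * (l * l) := by positivity
    nlinarith
  · have : l ^ n * (yn - P) ≤ l ^ n * 1 := mul_le_mul_of_nonneg_left (by linarith) hp.le
    nlinarith
  · have : l ^ n * (P + l * l - yn) ≤ l ^ n * 1 := mul_le_mul_of_nonneg_left (by linarith) hp.le
    nlinarith
  · intro z hz1 hz2
    have e1 : P < yn + (z - y) / l ^ n := by
      have : P - yn < (z - y) / l ^ n := by rw [lt_div_iff₀ hp]; linarith
      linarith
    have e2 : yn + (z - y) / l ^ n < P + l * l := by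
      have : (z - y) / l ^ n < P + l * l - yn := by rw [div_lt_iff₀ hp]; linarith
      linarith
    generalize hu : yn + (z - y) / l ^ n = u at *
    have w0 : 0 ≤ (u - P) / l := div_nonneg (by linarith) hl.le
    have w1 : (u - P) / l < l := by rw [div_lt_iff₀ hl]; linarith
    obtain ⟨b0, b1, b2, b3⟩ := last h (p := qz l C yn) w0 w1
    have e3 : PP l C (dl (qz l C yn)) 0 + l * ((u - P) / l) = u := by
      rw [hP]; field_simp; ring
    rw [e3] at b0 b1 b2 b3
    have := cyl h n y0 y1 b0 b1 (by rw [hyn]; exact b2) b3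
    rw [hyn] at this
    have e4 : y + l ^ n * (u - yn) = z := by
      rw [← hu]; field_simp; ring
    rw [e4] at this
    exact ⟨this.1, this.2.1, fun t => ⟨n + 2, this.2.2.2 t⟩⟩

end

end Pool.Agent.LibRotU
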